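import Pool.Agent.Work.MP_c264fd_pr_h14.Interface

/-! Common lemmas for the blocks AvgShift, AvgInv, AvgFatou. -/

open MeasureTheory ProbabilityTheory Filter Topology
open scoped ENNReal NNReal

namespace Pool.BDep

theorem measurable_of_localBdd {D : Finset ℤ} {F : Config → ℝ} (hF : LocalBdd D F) :
    Measurable F := by
  classical
  let g : ((x : D) → ℤ) → ℝ := fun u => F (fun x => if h : x ∈ D then u ⟨x, h⟩ else 0)
  have h1 : F = g ∘ (fun h : Config => fun x : D => h x) := by
    funext h
    apply hF.1
    intro x hx
    simp [hx]
  rw [h1]
  exact (measurable_of_countable g).comp (measurable_pi_lambda _ fun x => measurable_pi_apply _)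

theorem avg_measurable_ring (x : ℤ) : Measurable (ring x) := by
  refine measurable_pi_lambda _ fun y => ?_
  by_cases h : y = x
  · subst h
    have : (fun h : Config => ring y h y) =
        fun h : Config => max (max (h (y - 1)) (h (y + 1))) (h y + 1) := by
      funext h; simp [ring]
    rw [this]
    have a : Measurable fun h : Config => h (y - 1) := measurable_pi_apply _
    have b : Measurable fun h : Config => h (y + 1) := measurable_pi_apply _
    have c : Measurable fun h : Config => h y + 1 :=
      (measurable_of_countable (fun z : ℤ => z + 1)).comp (measurable_pi_apply y)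
    exact (a.max b).max c
  · have : (fun h : Config => ring x h y) = fun h : Config => h y := by
      funext h'; simp [ring, h]
    rw [this]
    exact measurable_pi_apply _

theorem avg_measurable_run (l : List ℤ) : Measurable (run l) := by
  induction l with
  | nil => exact measurable_id
  | cons x l ih => exact ih.comp (avg_measurable_ring x)

theorem avg_measurable_recenter : Measurable recenter :=
  measurable_pi_lambda _ fun x => (measurable_pi_apply x).sub (measurable_pi_apply 0)

theorem avg_measurable_shift : Measurable shift :=
  measurable_pi_lambda _ fun x => (measurable_pi_apply (x + 1)).sub (measurable_pi_apply 1)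

/-- anything on lists is measurable -/
theorem measurable_list {α : Type*} [MeasurableSpace α] (f : List ℤ → α) : Measurable f :=
  measurable_from_top

/-- functions of a configuration and a list -/
theorem measurable_prod_list {α : Type*} [MeasurableSpace α] (f : Config × List ℤ → α)
    (h : ∀ l, Measurable fun x => f (x, l)) : Measurable f :=
  measurable_from_prod_countable_left h

theorem run_recenter (hDet : Stmt_Det) (l : List ℤ) (h : Config) :
    recenter (run l (recenter h)) = recenter (run l h) := by
  have h2 : ∀ x, run l (recenter h) x = run l h x + -h 0 := by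
    intro x
    have := hDet.2.1 l h (-h 0) x
    rw [← this]
    rfl
  funext x
  have a := h2 x
  have b := h2 0
  change run l (recenter h) x - run l (recenter h) 0 = run l h x - run l h 0
  omega

/-- `F ∘ recenter` is local -/
theorem localBdd_recenter {D : Finset ℤ} {F : Config → ℝ} (hF : LocalBdd D F) :
    LocalBdd (insert 0 D) (fun h => F (recenter h)) := by
  refine ⟨fun h h' hh => hF.1 _ _ fun x hx => ?_, fun h => hF.2 _⟩
  simp only [recenter]
  rw [hh x (Finset.mem_insert_of_mem hx), hh 0 (Finset.mem_insert_self _ _)]

/-- integral of a bounded measurable function w.r.t. the time averages -/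
theorem integral_avg (hP : Stmt_RhoProb) (n k : ℕ) (G : Config → ℝ) (hG : Measurable G)
    (hb : ∀ h, |G h| ≤ 1) :
    ∫ h, G h ∂(avg n k) = ((4 : ℝ) ^ k)⁻¹ * ∑ j ∈ Finset.range (4 ^ k),
      ∫ l, G (recenter (run l lin)) ∂(rho (box n) ((j : ℝ) / 2 ^ k)) := by
  unfold avg
  rw [integral_smul_measure, integral_finsetSum_measure]
  · congr 1
    · rw [ENNReal.toReal_inv, ENNReal.toReal_pow]; norm_num
    · refine Finset.sum_congr rfl fun j _ => ?_
      rw [integral_map (measurable_list _).aemeasurable hG.aestronglyMeasurable]
  · intro j _
    have : IsProbabilityMeasure (rho (box n) ((j : ℝ) / 2 ^ k)) := hP _ _ (by positivity)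
    have : IsProbabilityMeasure
        ((rho (box n) ((j : ℝ) / 2 ^ k)).map (fun l => recenter (run l lin))) :=
      Measure.isProbabilityMeasure_map (measurable_list _).aemeasurable
    refine Integrable.of_bound (C := 1) hG.aestronglyMeasurable ?_
    exact Filter.Eventually.of_forall fun h => by rw [Real.norm_eq_abs]; exact hb h

theorem lintegral_avg (n k : ℕ) (G : Config → ℝ≥0∞) (hG : Measurable G) :
    ∫⁻ h, G h ∂(avg n k) = ((4 : ℝ≥0∞) ^ k)⁻¹ * ∑ j ∈ Finset.range (4 ^ k),
      ∫⁻ l, G (recenter (run l lin)) ∂(rho (box n) ((j : ℝ) / 2 ^ k)) := by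
  unfold avg
  rw [lintegral_smul_measure, lintegral_finsetSum_measure]
  congr 1
  refine Finset.sum_congr rfl fun j _ => ?_
  rw [lintegral_map hG (measurable_list _)]

theorem abs_integral_le_one {α : Type*} [MeasurableSpace α] (μ : Measure α)
    [IsProbabilityMeasure μ] (f : α → ℝ) (h : ∀ x, |f x| ≤ 1) : |∫ x, f x ∂μ| ≤ 1 := by
  have := norm_integral_le_of_norm_le_const (μ := μ) (f := f) (C := 1)
    (Filter.Eventually.of_forall fun x => by rw [Real.norm_eq_abs]; exact h x)
  simpa using this

end Pool.BDep
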