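import Pool.Agent.Work.MP_c264fd_pr_h14.AvgBase

/-! Block AvgFatou. -/

open MeasureTheory ProbabilityTheory Filter Topology
open scoped ENNReal NNReal

namespace Pool.BDep

theorem gr_le_of_mem_box (n : ℕ) (l : List ℤ) (hl : ∀ x ∈ l, x ∈ box n) : gr 0 l ≤ n + 1 := by
  induction l with
  | nil => simp [gr]; omega
  | cons x l ih =>
    have h1 := ih fun y hy => hl y (List.mem_cons_of_mem _ hy)
    have h2 := hl x List.mem_cons_self
    simp only [box, Finset.mem_Icc] at h2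
    rw [gr]
    split_ifs with h
    · omega
    · exact h1

/-- the growth functional which occurs in `AvgFatou` -/
noncomputable def gg (μ : Measure (List ℤ)) (h : Config) : ℝ≥0∞ :=
  ∫⁻ l, ENNReal.ofReal ((run l h 0 - h (gr 0 l) : ℤ) : ℝ) ∂μ

theorem measurable_gg (μ : Measure (List ℤ)) [SFinite μ] : Measurable (gg μ) := by
  have : Measurable fun p : Config × List ℤ =>
      ENNReal.ofReal ((run p.2 p.1 0 - p.1 (gr 0 p.2) : ℤ) : ℝ) := by
    apply measurable_prod_list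
    intro l
    have h1 : Measurable fun h : Config => run l h 0 :=
      (measurable_pi_apply (0 : ℤ)).comp (avg_measurable_run l)
    have h2 : Measurable fun h : Config => h (gr 0 l) := measurable_pi_apply _
    exact (measurable_of_countable (fun z : ℤ => ENNReal.ofReal (z : ℝ))).comp (h1.sub h2)
  exact this.lintegral_prod_right'

theorem gg_recenter (hDet : Stmt_Det) (μ : Measure (List ℤ)) (h : Config) :
    gg μ (recenter h) = gg μ h := by
  unfold gg
  congr 1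
  funext l
  congr 2
  have := hDet.2.1 l h (-h 0) 0
  have e : (fun y => h y + -h 0) = recenter h := rfl
  rw [e] at this
  rw [this]
  simp only [recenter]
  omega

theorem uu_append (hDet : Stmt_Det) (hP : Stmt_RhoProb) (hA : Stmt_RhoAdd) (Λ : Finset ℤ)
    (t s : ℝ) (ht : 0 ≤ t) (hs : 0 ≤ s) :
    ∫⁻ l0, ∫⁻ l, ENNReal.ofReal ((run l (run l0 lin) 0 : ℤ) : ℝ) ∂(rho Λ s) ∂(rho Λ t) =
      uu Λ 0 (t + s) := by
  have i1 : IsProbabilityMeasure (rho Λ t) := hP _ _ ht
  have i2 : IsProbabilityMeasure (rho Λ s) := hP _ _ hs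
  have hmap : Measurable fun p : List ℤ × List ℤ => p.1 ++ p.2 := measurable_of_countable _
  unfold uu
  rw [← hA Λ t s ht hs, lintegral_map (measurable_list _) hmap,
    lintegral_prod _ (measurable_of_countable _).aemeasurable]
  simp only [hDet.2.2.1, sub_zero]

/-- the main inequality for one time -/
theorem fatou_one (hDet : Stmt_Det) (hP : Stmt_RhoProb) (hA : Stmt_RhoAdd)
    (hF : Stmt_RhoFilter) (n n' : ℕ) (hn : n ≤ n') (t s : ℝ) (ht : 0 ≤ t) (hs : 0 ≤ s) :
    ∫⁻ l0, gg (rho (box n) s) (run l0 lin) ∂(rho (box n') t) +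
      ∫⁻ l, ENNReal.ofReal (gr 0 l) ∂(rho (box n) s) +
      ∫⁻ l, uu (box n') (gr 0 l) t ∂(rho (box n) s) ≤ uu (box n') 0 (t + s) := by
  have i1 : IsProbabilityMeasure (rho (box n') t) := hP _ _ ht
  have i2 : IsProbabilityMeasure (rho (box n) s) := hP _ _ hs
  have hsub : box n ⊆ box n' := by
    intro x hx
    simp only [box, Finset.mem_Icc] at *
    omega
  have eB : ∫⁻ l, ENNReal.ofReal (gr 0 l) ∂(rho (box n) s) =
      ∫⁻ _l0 : List ℤ, ∫⁻ l, ENNReal.ofReal (gr 0 l) ∂(rho (box n) s) ∂(rho (box n') t) := by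
    rw [lintegral_const, measure_univ, mul_one]
  have eW : ∫⁻ l, uu (box n') (gr 0 l) t ∂(rho (box n) s) =
      ∫⁻ l0, ∫⁻ l, ENNReal.ofReal ((run l0 lin (gr 0 l) - gr 0 l : ℤ) : ℝ) ∂(rho (box n) s)
        ∂(rho (box n') t) := by
    unfold uu
    rw [lintegral_lintegral_swap]
    exact (measurable_of_countable _).aemeasurable
  rw [eB, eW, ← lintegral_add_left (measurable_list _), ← lintegral_add_left (measurable_list _),
    ← uu_append hDet hP hA (box n') t s ht hs]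
  refine lintegral_mono fun l0 => ?_
  unfold gg
  rw [← lintegral_add_left (measurable_list _), ← lintegral_add_left (measurable_list _),
    ← hF (box n) (box n') s hs hsub, lintegral_map (measurable_list _) (measurable_list _)]
  refine lintegral_mono fun l => ?_
  simp only
  have h1 := (hDet.2.2.2.2.2.2.2.2.1 (l.filter (· ∈ box n)) (run l0 lin) 0).1
  have h2 := (hDet.2.2.2.2.2.2.2.1 (l.filter (· ∈ box n)) 0).2.1
  have h3 := hDet.2.2.2.1 l0 lin (gr 0 (l.filter (· ∈ box n)))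
  have h4 := hDet.2.2.2.2.1 l (run l0 lin) (fun x => decide (x ∈ box n)) 0
  have h3' : gr 0 (l.filter (· ∈ box n)) ≤ run l0 lin (gr 0 (l.filter (· ∈ box n))) := h3
  rw [← ENNReal.ofReal_add (by exact_mod_cast (by omega : (0 : ℤ) ≤ _ - _))
    (by exact_mod_cast h2), ← ENNReal.ofReal_add]
  · apply ENNReal.ofReal_le_ofReal
    exact_mod_cast (by omega)
  · exact_mod_cast (by omega)
  · exact_mod_cast (by omega : (0 : ℤ) ≤ _ - _)

theorem sum_shift_le (b : ℕ → ℝ≥0∞) (hb : Monotone b) (N m : ℕ) :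
    ∑ j ∈ Finset.range N, b (j + m) ≤ ∑ j ∈ Finset.range N, b j + m * b (N + m) := by
  calc ∑ j ∈ Finset.range N, b (j + m) ≤
      ∑ j ∈ Finset.range m, b j + ∑ j ∈ Finset.range N, b (m + j) := by
        refine le_add_left (le_of_eq ?_)
        exact Finset.sum_congr rfl fun j _ => by rw [add_comm]
    _ = ∑ j ∈ Finset.range N, b j + ∑ j ∈ Finset.range m, b (N + j) := by
        rw [← Finset.sum_range_add, ← Finset.sum_range_add, add_comm]
    _ ≤ ∑ j ∈ Finset.range N, b j + m * b (N + m) := by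
        refine add_le_add le_rfl ?_
        calc ∑ j ∈ Finset.range m, b (N + j) ≤ ∑ _j ∈ Finset.range m, b (N + m) := by
              refine Finset.sum_le_sum fun j hj => hb ?_
              rw [Finset.mem_range] at hj
              omega
          _ = m * b (N + m) := by rw [Finset.sum_const, Finset.card_range, nsmul_eq_mul]

theorem stmt_AvgFatou (hDet : Stmt_Det) (hP : Stmt_RhoProb) (hSu : Stmt_RhoSupp)
    (hA : Stmt_RhoAdd) (hF : Stmt_RhoFilter) (hU : Stmt_UU) : Stmt_AvgFatou := by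
  intro n T ε hε
  obtain ⟨hU1, hU2, hU3, C, hC, hU4⟩ := hU
  set θ := Real.log (10 / 7) with hθ
  have hθ0 : 0 < θ := Real.log_pos (by norm_num)
  have hfin : ∀ t, 0 ≤ t → UU t ≠ ⊤ := fun t ht =>
    ((hU4 t ht).trans_lt ENNReal.ofReal_lt_top).ne
  -- choice of `k`
  have hlim : Tendsto (fun k : ℕ => (T : ℝ) * ((10389 / 10000 * T + C) / θ) * (1 / 2 : ℝ) ^ k)
      atTop (𝓝 0) := by
    have := (tendsto_pow_atTop_nhds_zero_of_lt_one (r := (1 / 2 : ℝ)) (by norm_num)
      (by norm_num)).const_mul ((T : ℝ) * ((10389 / 10000 * T + C) / θ))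
    rwa [mul_zero] at this
  filter_upwards [hlim.eventually_le_const (half_pos hε)] with k hk
  -- choice of `n'`
  have hδ : ENNReal.ofReal (ε / 2) ≠ 0 := by
    rw [Ne, ENNReal.ofReal_eq_zero, not_le]
    exact half_pos hε
  have hev : ∀ᶠ n' in atTop, ∀ x ∈ Finset.Icc (0 : ℤ) (n + 1), ∀ j ∈ Finset.range (4 ^ k),
      UU ((j : ℝ) / 2 ^ k) ≤ uu (box n') x ((j : ℝ) / 2 ^ k) + ENNReal.ofReal (ε / 2) := by
    rw [Filter.eventually_all_finset]
    intro x _
    rw [Filter.eventually_all_finset]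
    intro j _
    have ht : (0 : ℝ) ≤ (j : ℝ) / 2 ^ k := by positivity
    by_cases h0 : UU ((j : ℝ) / 2 ^ k) = 0
    · rw [h0]
      exact Filter.Eventually.of_forall fun _ => zero_le
    · have h1 := (hU2 x _ ht).eventually (lt_mem_nhds (ENNReal.sub_lt_self (hfin _ ht) h0 hδ))
      filter_upwards [h1] with n' hn'
      exact tsub_le_iff_right.1 hn'.le
  filter_upwards [hev, eventually_ge_atTop n] with n' hn' hnn'
  have i0 : IsProbabilityMeasure (rho (box n) T) := hP _ _ (Nat.cast_nonneg T)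
  have e1 : ∫⁻ h, ∫⁻ l, ENNReal.ofReal ((run l h 0 - h (gr 0 l) : ℤ) : ℝ) ∂(rho (box n) T)
      ∂(avg n' k) = ((4 : ℝ≥0∞) ^ k)⁻¹ * ∑ j ∈ Finset.range (4 ^ k),
      ∫⁻ l, gg (rho (box n) T) (run l lin) ∂(rho (box n') ((j : ℝ) / 2 ^ k)) := by
    have := lintegral_avg n' k (gg (rho (box n) T)) (measurable_gg _)
    simp only [gg_recenter hDet] at this
    exact this
  rw [e1]
  set B : ℝ≥0∞ := ∫⁻ l, ENNReal.ofReal (gr 0 l) ∂(rho (box n) T) with hB
  set A : ℕ → ℝ≥0∞ := fun j =>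
    ∫⁻ l, gg (rho (box n) T) (run l lin) ∂(rho (box n') ((j : ℝ) / 2 ^ k)) with hAdef
  set m : ℕ := T * 2 ^ k with hm
  set b : ℕ → ℝ≥0∞ := fun j => UU ((j : ℝ) / 2 ^ k) with hb
  have hbm : Monotone b := by
    intro i j hij
    exact hU3 _ _ (by positivity) (by gcongr)
  have hj : ∀ j ∈ Finset.range (4 ^ k), A j + B + b j ≤ b (j + m) + ENNReal.ofReal (ε / 2) := by
    intro j hj
    have ht : (0 : ℝ) ≤ (j : ℝ) / 2 ^ k := by positivity
    have hT : (0 : ℝ) ≤ T := Nat.cast_nonneg T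
    have f1 := fatou_one hDet hP hA hF n n' hnn' ((j : ℝ) / 2 ^ k) T ht hT
    have f2 : uu (box n') 0 ((j : ℝ) / 2 ^ k + T) ≤ b (j + m) := by
      rw [hb]
      simp only
      have : (((j + m : ℕ) : ℝ) / 2 ^ k) = (j : ℝ) / 2 ^ k + T := by
        rw [hm]
        push_cast
        field_simp
      rw [this]
      exact hU1 _ _ _ (by positivity)
    have f3 : b j ≤ ∫⁻ l, uu (box n') (gr 0 l) ((j : ℝ) / 2 ^ k) ∂(rho (box n) T) +
        ENNReal.ofReal (ε / 2) := by
      have e : ∫⁻ l, uu (box n') (gr 0 l) ((j : ℝ) / 2 ^ k) ∂(rho (box n) T) +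
          ENNReal.ofReal (ε / 2) = ∫⁻ l, (uu (box n') (gr 0 l) ((j : ℝ) / 2 ^ k) +
          ENNReal.ofReal (ε / 2)) ∂(rho (box n) T) := by
        rw [lintegral_add_right _ measurable_const, lintegral_const, measure_univ, mul_one]
      have e' : b j = ∫⁻ _l : List ℤ, b j ∂(rho (box n) T) := by
        rw [lintegral_const, measure_univ, mul_one]
      rw [e, e']
      refine lintegral_mono_ae ?_
      filter_upwards [hSu (box n) T] with l hl
      refine hn' _ ?_ j hj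
      rw [Finset.mem_Icc]
      exact ⟨(hDet.2.2.2.2.2.2.2.1 l 0).2.1, gr_le_of_mem_box n l hl⟩
    calc A j + B + b j ≤ A j + B + (∫⁻ l, uu (box n') (gr 0 l) ((j : ℝ) / 2 ^ k) ∂(rho (box n) T) +
        ENNReal.ofReal (ε / 2)) := add_le_add le_rfl f3
      _ = (A j + B + ∫⁻ l, uu (box n') (gr 0 l) ((j : ℝ) / 2 ^ k) ∂(rho (box n) T)) +
        ENNReal.ofReal (ε / 2) := by rw [add_assoc (A j + B)]
      _ ≤ b (j + m) + ENNReal.ofReal (ε / 2) := add_le_add (f1.trans f2) le_rfl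
  have hsum := Finset.sum_le_sum hj
  rw [Finset.sum_add_distrib, Finset.sum_add_distrib, Finset.sum_add_distrib, Finset.sum_const,
    Finset.sum_const, Finset.card_range, nsmul_eq_mul, nsmul_eq_mul] at hsum
  have hbfin : ∑ j ∈ Finset.range (4 ^ k), b j ≠ ⊤ := by
    refine (ENNReal.sum_lt_top.2 fun j _ => ?_).ne
    exact lt_top_iff_ne_top.2 (hfin _ (by positivity))
  have hsum2 : ∑ j ∈ Finset.range (4 ^ k), A j + ((4 ^ k : ℕ) : ℝ≥0∞) * B ≤
      m * b (4 ^ k + m) + ((4 ^ k : ℕ) : ℝ≥0∞) * ENNReal.ofReal (ε / 2) := by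
    have h3 := hsum.trans (add_le_add (sum_shift_le b hbm (4 ^ k) m) le_rfl)
    have h4 : ∑ j ∈ Finset.range (4 ^ k), A j + ((4 ^ k : ℕ) : ℝ≥0∞) * B +
        ∑ j ∈ Finset.range (4 ^ k), b j ≤
      (m * b (4 ^ k + m) + ((4 ^ k : ℕ) : ℝ≥0∞) * ENNReal.ofReal (ε / 2)) +
        ∑ j ∈ Finset.range (4 ^ k), b j := by
      refine h3.trans (le_of_eq ?_)
      ring
    exact (ENNReal.add_le_add_iff_right hbfin).1 h4
  have h4k : ((4 ^ k : ℕ) : ℝ≥0∞) = (4 : ℝ≥0∞) ^ k := by push_cast; rfl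
  have h40 : (4 : ℝ≥0∞) ^ k ≠ 0 := pow_ne_zero _ (by norm_num)
  have h4t : (4 : ℝ≥0∞) ^ k ≠ ⊤ := ENNReal.pow_ne_top (by norm_num)
  rw [h4k] at hsum2
  have hfinal : ((4 : ℝ≥0∞) ^ k)⁻¹ * ∑ j ∈ Finset.range (4 ^ k), A j + B ≤
      ((4 : ℝ≥0∞) ^ k)⁻¹ * (m * b (4 ^ k + m)) + ENNReal.ofReal (ε / 2) := by
    have h5 := mul_le_mul_of_nonneg_left hsum2 (zero_le (a := ((4 : ℝ≥0∞) ^ k)⁻¹))
    rw [mul_add, mul_add, ← mul_assoc _ _ B, ← mul_assoc _ _ (ENNReal.ofReal (ε / 2)),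
      ENNReal.inv_mul_cancel h40 h4t, one_mul, one_mul] at h5
    exact h5
  refine hfinal.trans ?_
  have h6 : b (4 ^ k + m) ≤ ENNReal.ofReal ((10389 / 10000 * (2 ^ k + T) + C) / θ) := by
    have e : (((4 ^ k + m : ℕ) : ℝ) / 2 ^ k) = 2 ^ k + T := by
      rw [hm]
      push_cast
      have : (4 : ℝ) ^ k = 2 ^ k * 2 ^ k := by rw [← mul_pow]; norm_num
      rw [this]
      field_simp
    rw [hb]
    simp only
    rw [e]
    exact hU4 _ (by positivity)
  have h7 : ((4 : ℝ≥0∞) ^ k)⁻¹ * (m * b (4 ^ k + m)) ≤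
      ENNReal.ofReal ((T : ℝ) * (10389 / 10000) / θ + ε / 2) := by
    calc ((4 : ℝ≥0∞) ^ k)⁻¹ * (m * b (4 ^ k + m)) ≤ ((4 : ℝ≥0∞) ^ k)⁻¹ *
        (m * ENNReal.ofReal ((10389 / 10000 * (2 ^ k + T) + C) / θ)) := by gcongr
      _ = ENNReal.ofReal (((4 : ℝ) ^ k)⁻¹ * (m * ((10389 / 10000 * (2 ^ k + T) + C) / θ))) := by
        rw [ENNReal.ofReal_mul (by positivity), ENNReal.ofReal_mul (by positivity),
          ENNReal.ofReal_natCast, ENNReal.ofReal_inv_of_pos (by positivity),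
          ENNReal.ofReal_pow (by norm_num)]
        norm_num
      _ ≤ ENNReal.ofReal ((T : ℝ) * (10389 / 10000) / θ + ε / 2) := by
        apply ENNReal.ofReal_le_ofReal
        have e : ((4 : ℝ) ^ k)⁻¹ * (m * ((10389 / 10000 * (2 ^ k + T) + C) / θ)) =
            (T : ℝ) * (10389 / 10000) / θ +
              (T : ℝ) * ((10389 / 10000 * T + C) / θ) * (1 / 2 : ℝ) ^ k := by
          have h4 : (4 : ℝ) ^ k = 2 ^ k * 2 ^ k := by rw [← mul_pow]; norm_num
          have h2 : ((1 : ℝ) / 2) ^ k = 1 / 2 ^ k := by rw [div_pow, one_pow]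
          rw [hm, h4, h2]
          push_cast
          field_simp
          ring
        rw [e]
        linarith
  calc ((4 : ℝ≥0∞) ^ k)⁻¹ * (m * b (4 ^ k + m)) + ENNReal.ofReal (ε / 2)
      ≤ ENNReal.ofReal ((T : ℝ) * (10389 / 10000) / θ + ε / 2) + ENNReal.ofReal (ε / 2) :=
        add_le_add h7 le_rfl
    _ = ENNReal.ofReal ((T : ℝ) * (10389 / 10000) / θ + ε) := by
        rw [← ENNReal.ofReal_add (by positivity) (by positivity)]
        congr 1
        ring

end Pool.BDep
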