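import Pool.Agent.Work.MP_c264fd_pr_h14.AvgShift

/-! Block AvgInv. -/

open MeasureTheory ProbabilityTheory Filter Topology
open scoped ENNReal NNReal

namespace Pool.BDep

theorem run_eq_of_forall_ne (l : List ℤ) (h : Config) (x : ℤ) (hl : ∀ y ∈ l, y ≠ x) :
    run l h x = h x := by
  induction l generalizing h with
  | nil => rfl
  | cons a l ih =>
    rw [run, ih _ fun y hy => hl y (List.mem_cons_of_mem _ hy)]
    have : x ≠ a := (hl a List.mem_cons_self).symm
    simp [ring, this]

/-- shifting the index of a bounded sequence does not change its sums much -/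
theorem abs_sum_shift (b : ℕ → ℝ) (hb : ∀ j, |b j| ≤ 1) (N i : ℕ) :
    |∑ j ∈ Finset.range N, (b (j + i) - b j)| ≤ 2 * i := by
  induction i with
  | zero => simp
  | succ i ih =>
    have e : ∑ j ∈ Finset.range N, (b (j + (i + 1)) - b j) =
        (∑ j ∈ Finset.range N, (b (j + i) - b j)) + (b (N + i) - b i) := by
      have : ∑ j ∈ Finset.range N, (b (j + 1 + i) - b (j + i)) = b (N + i) - b (0 + i) :=
        Finset.sum_range_sub (fun j => b (j + i)) N
      rw [zero_add] at this
      rw [← this, ← Finset.sum_add_distrib]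
      refine Finset.sum_congr rfl fun j _ => ?_
      rw [show j + (i + 1) = j + 1 + i by ring]
      ring
    rw [e]
    have h1 := hb (N + i)
    have h2 := hb i
    rw [abs_le] at *
    push_cast
    constructor <;> linarith [h1.1, h1.2, h2.1, h2.2, ih.1, ih.2]

/-- one more piece of time -/
theorem integral_append (hDet : Stmt_Det) (hP : Stmt_RhoProb) (hA : Stmt_RhoAdd) (Λ : Finset ℤ)
    (t s : ℝ) (ht : 0 ≤ t) (hs : 0 ≤ s) (f : Config → ℝ) (hf : ∀ h, |f h| ≤ 1) (h : Config) :
    ∫ l, ∫ l', f (run l' (run l h)) ∂(rho Λ s) ∂(rho Λ t) = ∫ l, f (run l h) ∂(rho Λ (t + s)) := by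
  have i1 : IsProbabilityMeasure (rho Λ t) := hP _ _ ht
  have i2 : IsProbabilityMeasure (rho Λ s) := hP _ _ hs
  have hmap : Measurable fun p : List ℤ × List ℤ => p.1 ++ p.2 := measurable_of_countable _
  rw [← hA Λ t s ht hs, integral_map hmap.aemeasurable (measurable_list _).aestronglyMeasurable,
    integral_prod]
  · refine integral_congr_ae (Filter.Eventually.of_forall fun l => ?_)
    refine integral_congr_ae (Filter.Eventually.of_forall fun l' => ?_)
    simp only [hDet.2.2.1]
  · refine Integrable.of_bound (C := 1) (measurable_of_countable _).aestronglyMeasurable ?_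
    exact Filter.Eventually.of_forall fun p => by rw [Real.norm_eq_abs]; exact hf _

theorem integrable_list (μ : Measure (List ℤ)) [IsFiniteMeasure μ] (f : List ℤ → ℝ) (C : ℝ)
    (hf : ∀ l, |f l| ≤ C) : Integrable f μ :=
  Integrable.of_bound (C := C) (measurable_list _).aestronglyMeasurable
    (Filter.Eventually.of_forall fun p => by rw [Real.norm_eq_abs]; exact hf _)

theorem abs_integral_le_of_forall {α : Type*} [MeasurableSpace α] (μ : Measure α)
    [IsProbabilityMeasure μ] (f : α → ℝ) (C : ℝ) (h : ∀ x, |f x| ≤ C) : |∫ x, f x ∂μ| ≤ C := by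
  have := norm_integral_le_of_norm_le_const (μ := μ) (f := f) (C := C)
    (Filter.Eventually.of_forall fun x => by rw [Real.norm_eq_abs]; exact h x)
  simpa using this

/-- a short time does not change local observables much -/
theorem abs_small (hP : Stmt_RhoProb) (hSm : Stmt_RhoSmall) (Λ D : Finset ℤ)
    (δ : ℝ) (hδ : 0 ≤ δ) (f : Config → ℝ) (hf : LocalBdd D f) (h : Config) :
    |∫ l, f (run l h) ∂(rho Λ δ) - f h| ≤ 2 * (D.card * δ) := by
  have i1 : IsProbabilityMeasure (rho Λ δ) := hP _ _ hδ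
  let S : Set (List ℤ) := {l | ∃ x ∈ l, x ∈ D}
  have hS : MeasurableSet S := trivial
  have e : f h = ∫ _ : List ℤ, f h ∂(rho Λ δ) := by simp
  rw [e, ← integral_sub (integrable_list _ _ 1 fun l => hf.2 _) (integrable_const _)]
  have hle : ∀ l, |f (run l h) - f h| ≤ S.indicator (fun _ => (2 : ℝ)) l := by
    intro l
    by_cases hl : l ∈ S
    · rw [Set.indicator_of_mem hl]
      have a := hf.2 (run l h)
      have b := hf.2 h
      rw [abs_le] at *
      constructor <;> linarith [a.1, a.2, b.1, b.2]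
    · rw [Set.indicator_of_notMem hl]
      have : f (run l h) = f h := by
        apply hf.1
        intro x hx
        apply run_eq_of_forall_ne
        rintro y hy rfl
        exact hl ⟨y, hy, hx⟩
      rw [this, sub_self, abs_zero]
  calc |∫ l, (f (run l h) - f h) ∂(rho Λ δ)|
      ≤ ∫ l, |f (run l h) - f h| ∂(rho Λ δ) := abs_integral_le_integral_abs
    _ ≤ ∫ l, S.indicator (fun _ => (2 : ℝ)) l ∂(rho Λ δ) := by
        refine integral_mono ?_ ?_ hle
        · exact integrable_list _ _ 2 fun l => by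
            rw [abs_abs]
            refine (hle l).trans ?_
            by_cases hl : l ∈ S
            · rw [Set.indicator_of_mem hl]
            · rw [Set.indicator_of_notMem hl]; norm_num
        · exact (integrable_const _).indicator hS
    _ = 2 * (rho Λ δ).real S := by
        rw [integral_indicator_const _ hS, smul_eq_mul, mul_comm]
    _ ≤ 2 * (D.card * δ) := by
        refine mul_le_mul_of_nonneg_left ?_ (by norm_num)
        have hc : (0 : ℝ) ≤ D.card := Nat.cast_nonneg _
        exact ENNReal.toReal_le_of_le_ofReal (mul_nonneg hc hδ) (hSm Λ D δ hδ)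

theorem abs_small' (hDet : Stmt_Det) (hP : Stmt_RhoProb) (hA : Stmt_RhoAdd) (hSm : Stmt_RhoSmall)
    (Λ D : Finset ℤ) (t δ : ℝ) (ht : 0 ≤ t) (hδ : 0 ≤ δ) (f : Config → ℝ) (hf : LocalBdd D f)
    (h : Config) :
    |∫ l, f (run l h) ∂(rho Λ (t + δ)) - ∫ l, f (run l h) ∂(rho Λ t)| ≤ 2 * (D.card * δ) := by
  have i1 : IsProbabilityMeasure (rho Λ t) := hP _ _ ht
  have i2 : IsProbabilityMeasure (rho Λ δ) := hP _ _ hδ
  rw [← integral_append hDet hP hA Λ t δ ht hδ f hf.2 h, ← integral_sub]
  · exact abs_integral_le_of_forall _ _ _ fun l => abs_small hP hSm Λ D δ hδ f hf (run l h)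
  · exact integrable_list _ _ 1 fun l => abs_integral_le_one _ _ fun l' => hf.2 _
  · exact integrable_list _ _ 1 fun l => hf.2 _

theorem avg_measurable_inner (μ : Measure (List ℤ)) [IsProbabilityMeasure μ] (f : Config → ℝ)
    (hf : Measurable f) : Measurable fun h => ∫ l, f (run l h) ∂μ := by
  have : StronglyMeasurable (Function.uncurry fun (h : Config) (l : List ℤ) => f (run l h)) := by
    apply Measurable.stronglyMeasurable
    apply measurable_prod_list
    intro l
    exact hf.comp (avg_measurable_run l)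
  exact this.integral_prod_right.measurable

theorem stmt_AvgInv (hDet : Stmt_Det) (hP : Stmt_RhoProb) (hA : Stmt_RhoAdd)
    (hSm : Stmt_RhoSmall) (hC : Stmt_Compare) : Stmt_AvgInv := by
  intro D F s hF hs ε hε
  obtain ⟨M, hM⟩ := exists_bound (insert 0 D)
  set D0 := insert 0 D with hD0
  set f : Config → ℝ := fun h => F (recenter h) with hfdef
  have hf : LocalBdd D0 f := localBdd_recenter hF
  have hfm : Measurable f := measurable_of_localBdd hf
  have h1 := (tendsto_err D0.card (Real.exp s) (M + 1)).eventually_le_const (half_pos hε)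
  obtain ⟨N1, hN1⟩ := (h1.and (eventually_ge_atTop (M + 1))).exists_forall_of_atTop
  refine ⟨N1, fun n hn => ?_⟩
  obtain ⟨hn1, hn2⟩ := hN1 n hn
  have h2 : Tendsto (fun k : ℕ => (2 * D0.card + 2 * s) * (1 / 2 : ℝ) ^ k) atTop (𝓝 0) := by
    have := (tendsto_pow_atTop_nhds_zero_of_lt_one (r := (1 / 2 : ℝ)) (by norm_num)
      (by norm_num)).const_mul (2 * (D0.card : ℝ) + 2 * s)
    rwa [mul_zero] at this
  filter_upwards [h2.eventually_le_const (half_pos hε)] with k hk n' hn'
  have i1 : IsProbabilityMeasure (rho (box n) s) := hP _ _ hs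
  have i2 : IsProbabilityMeasure (rho (box n') s) := hP _ _ hs
  -- the inner integral
  have hGm : Measurable fun h => ∫ l, F (recenter (run l h)) ∂(rho (box n) s) :=
    avg_measurable_inner _ f hfm
  rw [integral_avg hP n' k _ hGm (fun h => abs_integral_le_one _ _ fun l => hF.2 _),
    integral_avg hP n' k F (measurable_of_localBdd hF) hF.2, ← mul_sub, ← Finset.sum_sub_distrib]
  set a : ℝ → ℝ := fun t => ∫ l, f (run l lin) ∂(rho (box n') t) with ha
  set i : ℕ := ⌊s * 2 ^ k⌋₊ with hi
  have hi1 : (i : ℝ) / 2 ^ k ≤ s := by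
    rw [div_le_iff₀ (by positivity)]
    exact Nat.floor_le (by positivity)
  have hi2 : s - (i : ℝ) / 2 ^ k ≤ 1 / 2 ^ k := by
    rw [sub_le_iff_le_add, ← add_div, le_div_iff₀ (by positivity), add_comm]
    exact (Nat.lt_floor_add_one _).le
  have hterm : ∀ j ∈ Finset.range (4 ^ k),
      |(∫ l, ∫ l', F (recenter (run l' (recenter (run l lin)))) ∂(rho (box n) s)
          ∂(rho (box n') ((j : ℝ) / 2 ^ k)) -
        ∫ l, F (recenter (run l lin)) ∂(rho (box n') ((j : ℝ) / 2 ^ k))) -
        (a (((j + i : ℕ) : ℝ) / 2 ^ k) - a ((j : ℝ) / 2 ^ k))|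
        ≤ ε / 2 + 2 * (D0.card * (1 / 2 ^ k)) := by
    intro j _
    have ht : (0 : ℝ) ≤ (j : ℝ) / 2 ^ k := by positivity
    have i3 : IsProbabilityMeasure (rho (box n') ((j : ℝ) / 2 ^ k)) := hP _ _ ht
    have e1 : |∫ l, ∫ l', F (recenter (run l' (recenter (run l lin)))) ∂(rho (box n) s)
          ∂(rho (box n') ((j : ℝ) / 2 ^ k)) - a ((j : ℝ) / 2 ^ k + s)| ≤ ε / 2 := by
      rw [ha]
      simp only
      rw [← integral_append hDet hP hA (box n') _ s ht hs f hf.2 lin, ← integral_sub]
      · refine abs_integral_le_of_forall _ _ _ fun l => ?_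
        · simp only [run_recenter hDet]
          refine le_trans (hC (box n) (box n') D0 (n - (M + 1)) s f (run l lin) hs hf ?_ ?_) hn1
          · intro x hx y hy
            have := hM x hx
            rw [abs_le] at this
            rw [Finset.mem_Icc] at hy
            simp only [box, Finset.mem_Icc]
            omega
          · intro x hx y hy
            have := hM x hx
            rw [abs_le] at this
            rw [Finset.mem_Icc] at hy
            simp only [box, Finset.mem_Icc]
            omega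
      · exact integrable_list _ _ 1 fun l => abs_integral_le_one _ _ fun l' => hF.2 _
      · exact integrable_list _ _ 1 fun l => abs_integral_le_one _ _ fun l' => hf.2 _
    have e2 : |a ((j : ℝ) / 2 ^ k + s) - a (((j + i : ℕ) : ℝ) / 2 ^ k)| ≤
        2 * (D0.card * (1 / 2 ^ k)) := by
      have e3 : (j : ℝ) / 2 ^ k + s = ((j + i : ℕ) : ℝ) / 2 ^ k + (s - (i : ℝ) / 2 ^ k) := by
        push_cast
        ring
      rw [e3]
      refine (abs_small' hDet hP hA hSm (box n') D0 _ _ (by positivity)
        (sub_nonneg.2 hi1) f hf lin).trans ?_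
      gcongr
    have e4 : (∫ l, F (recenter (run l lin)) ∂(rho (box n') ((j : ℝ) / 2 ^ k))) =
      a ((j : ℝ) / 2 ^ k) := rfl
    rw [e4]
    rw [abs_le] at e1 e2 ⊢
    constructor <;> linarith [e1.1, e1.2, e2.1, e2.2]
  have hsum : |∑ j ∈ Finset.range (4 ^ k), (a (((j + i : ℕ) : ℝ) / 2 ^ k) - a ((j : ℝ) / 2 ^ k))|
      ≤ 2 * i := by
    refine abs_sum_shift (fun j : ℕ => a ((j : ℝ) / 2 ^ k)) (fun j => ?_) (4 ^ k) i
    have i3 : IsProbabilityMeasure (rho (box n') ((j : ℝ) / 2 ^ k)) := hP _ _ (by positivity)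
    exact abs_integral_le_one _ _ fun l => hf.2 _
  have htot : |∑ j ∈ Finset.range (4 ^ k),
      (∫ l, ∫ l', F (recenter (run l' (recenter (run l lin)))) ∂(rho (box n) s)
          ∂(rho (box n') ((j : ℝ) / 2 ^ k)) -
        ∫ l, F (recenter (run l lin)) ∂(rho (box n') ((j : ℝ) / 2 ^ k)))|
      ≤ 4 ^ k * (ε / 2 + 2 * (D0.card * (1 / 2 ^ k))) + 2 * i := by
    have h3 := (Finset.abs_sum_le_sum_abs (fun j : ℕ =>
      (∫ l, ∫ l', F (recenter (run l' (recenter (run l lin)))) ∂(rho (box n) s)
          ∂(rho (box n') ((j : ℝ) / 2 ^ k)) -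
        ∫ l, F (recenter (run l lin)) ∂(rho (box n') ((j : ℝ) / 2 ^ k))) -
        (a (((j + i : ℕ) : ℝ) / 2 ^ k) - a ((j : ℝ) / 2 ^ k))) (Finset.range (4 ^ k))).trans
      (Finset.sum_le_sum hterm)
    rw [Finset.sum_sub_distrib, Finset.sum_const, Finset.card_range, nsmul_eq_mul] at h3
    push_cast at h3 hsum ⊢
    rw [abs_le] at h3 hsum ⊢
    constructor <;> linarith [h3.1, h3.2, hsum.1, hsum.2]
  rw [abs_mul, abs_of_pos (by positivity : (0 : ℝ) < ((4 : ℝ) ^ k)⁻¹)]
  have h42 : (4 : ℝ) ^ k = 2 ^ k * 2 ^ k := by rw [← mul_pow]; norm_num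
  have hi3 : (i : ℝ) ≤ s * 2 ^ k := Nat.floor_le (by positivity)
  calc ((4 : ℝ) ^ k)⁻¹ * |∑ j ∈ Finset.range (4 ^ k),
      (∫ l, ∫ l', F (recenter (run l' (recenter (run l lin)))) ∂(rho (box n) s)
          ∂(rho (box n') ((j : ℝ) / 2 ^ k)) -
        ∫ l, F (recenter (run l lin)) ∂(rho (box n') ((j : ℝ) / 2 ^ k)))|
      ≤ ((4 : ℝ) ^ k)⁻¹ * (4 ^ k * (ε / 2 + 2 * (D0.card * (1 / 2 ^ k))) + 2 * (s * 2 ^ k)) := by
        refine mul_le_mul_of_nonneg_left (htot.trans ?_) (by positivity)
        linarith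
    _ = ε / 2 + (2 * D0.card + 2 * s) * (1 / 2 : ℝ) ^ k := by
        have : ((1 : ℝ) / 2) ^ k = 1 / 2 ^ k := by rw [div_pow, one_pow]
        rw [this, h42]
        field_simp
        ring
    _ ≤ ε := by linarith

end Pool.BDep
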