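import Pool.Agent.Work.MP_c264fd_pr_h14.AvgBase

/-! Block AvgShift. -/

open MeasureTheory ProbabilityTheory Filter Topology
open scoped ENNReal NNReal

namespace Pool.BDep

theorem shift_recenter (h : Config) : shift (recenter h) = shift h := by
  funext x
  simp only [shift, recenter]
  omega

theorem shift_run_map (hDet : Stmt_Det) (l : List ℤ) :
    shift (run (l.map (· + 1)) lin) = recenter (run l lin) := by
  have h0 := hDet.2.2.2.2.2.1
  have h1 := hDet.2.1
  have key : ∀ x, run (l.map (· + 1)) lin (x + 1) = run l lin x + 1 := by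
    intro x
    rw [h0 l lin 1 (x + 1)]
    have e : (fun y => lin (y + 1)) = fun y => lin y + 1 := by
      funext y; simp [lin]
    rw [e, h1]
    congr 2
    omega
  funext x
  have a := key x
  have b := key 0
  rw [zero_add] at b
  change run (l.map (· + 1)) lin (x + 1) - run (l.map (· + 1)) lin 1 = run l lin x - run l lin 0
  omega

/-- the error term of the comparison lemma tends to zero -/
theorem tendsto_err (D : ℕ) (c : ℝ) (M : ℕ) :
    Tendsto (fun n : ℕ => 8 * (D : ℝ) * c / 2 ^ (n - M)) atTop (𝓝 0) := by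
  have h1 : Tendsto (fun n : ℕ => 8 * (D : ℝ) * c / 2 ^ n) atTop (𝓝 0) := by
    have := (tendsto_pow_atTop_nhds_zero_of_lt_one (r := (1 / 2 : ℝ)) (by norm_num)
      (by norm_num)).const_mul (8 * (D : ℝ) * c)
    rw [mul_zero] at this
    refine this.congr fun n => ?_
    rw [div_pow, one_pow]
    ring
  exact h1.comp (tendsto_sub_atTop_nat M)

/-- a bound for the sites of a finite set -/
theorem exists_bound (D : Finset ℤ) : ∃ M : ℕ, ∀ x ∈ D, |x| ≤ M := by
  refine ⟨∑ x ∈ D, x.natAbs, fun x hx => ?_⟩
  have : x.natAbs ≤ ∑ x ∈ D, x.natAbs :=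
    Finset.single_le_sum (f := fun x : ℤ => x.natAbs) (fun _ _ => Nat.zero_le _) hx
  rw [Int.abs_eq_natAbs]
  exact_mod_cast this

theorem box_image (n : ℕ) : ((box n).image (fun x => x + -1)).image (fun x => x + 1) = box n := by
  rw [Finset.image_image]
  have : ((fun x : ℤ => x + 1) ∘ fun x => x + -1) = id := by funext x; simp
  rw [this, Finset.image_id]

theorem integral_shift (hDet : Stmt_Det) (hS : Stmt_RhoShift) (n : ℕ) (t : ℝ) (F : Config → ℝ) :
    ∫ l, F (shift (recenter (run l lin))) ∂(rho (box n) t) =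
      ∫ l, F (recenter (run l lin)) ∂(rho ((box n).image (fun x => x + -1)) t) := by
  have h := hS ((box n).image (fun x => x + -1)) t 1
  rw [box_image] at h
  rw [← h, integral_map (measurable_list _).aemeasurable (measurable_list _).aestronglyMeasurable]
  refine integral_congr_ae (Filter.Eventually.of_forall fun l => ?_)
  simp only [shift_recenter, shift_run_map hDet]

theorem stmt_AvgShift (hDet : Stmt_Det) (hP : Stmt_RhoProb) (hS : Stmt_RhoShift)
    (hC : Stmt_Compare) : Stmt_AvgShift := by
  intro k D ε hε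
  obtain ⟨M, hM⟩ := exists_bound (insert 0 D)
  have ht := (tendsto_err (insert 0 D).card (Real.exp (2 ^ k)) (M + 1)).eventually_le_const hε
  filter_upwards [ht, eventually_ge_atTop (M + 1)] with n hn hnM F hF
  have hm : Measurable F := measurable_of_localBdd hF
  rw [integral_avg hP n k (fun h => F (shift h)) (hm.comp avg_measurable_shift) (fun h => hF.2 _),
    integral_avg hP n k F hm hF.2, ← mul_sub, ← Finset.sum_sub_distrib]
  have hbd : ∀ j ∈ Finset.range (4 ^ k),
      |∫ l, F (shift (recenter (run l lin))) ∂(rho (box n) ((j : ℝ) / 2 ^ k)) -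
        ∫ l, F (recenter (run l lin)) ∂(rho (box n) ((j : ℝ) / 2 ^ k))| ≤ ε := by
    intro j hj
    rw [Finset.mem_range] at hj
    have hj' : (j : ℝ) / 2 ^ k ≤ 2 ^ k := by
      rw [div_le_iff₀ (by positivity)]
      have : (j : ℝ) ≤ 4 ^ k := by exact_mod_cast hj.le
      calc (j : ℝ) ≤ 4 ^ k := this
        _ = 2 ^ k * 2 ^ k := by rw [← mul_pow]; norm_num
    rw [integral_shift hDet hS]
    refine le_trans (hC _ _ (insert 0 D) (n - (M + 1)) _ (fun h => F (recenter h)) lin
      (by positivity) (localBdd_recenter hF) ?_ ?_) (le_trans ?_ hn)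
    · intro x hx y hy
      have := hM x hx
      rw [abs_le] at this
      rw [Finset.mem_Icc] at hy
      refine Finset.mem_image.2 ⟨y + 1, ?_, by ring⟩
      simp only [box, Finset.mem_Icc]
      omega
    · intro x hx y hy
      have := hM x hx
      rw [abs_le] at this
      rw [Finset.mem_Icc] at hy
      simp only [box, Finset.mem_Icc]
      omega
    · have := Real.exp_le_exp.2 hj'
      gcongr
  rw [abs_mul, abs_of_pos (by positivity : (0 : ℝ) < ((4 : ℝ) ^ k)⁻¹)]
  calc ((4 : ℝ) ^ k)⁻¹ * |∑ j ∈ Finset.range (4 ^ k),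
        (∫ l, F (shift (recenter (run l lin))) ∂(rho (box n) ((j : ℝ) / 2 ^ k)) -
        ∫ l, F (recenter (run l lin)) ∂(rho (box n) ((j : ℝ) / 2 ^ k)))|
      ≤ ((4 : ℝ) ^ k)⁻¹ * ∑ j ∈ Finset.range (4 ^ k), ε := by
        refine mul_le_mul_of_nonneg_left ?_ (by positivity)
        exact (Finset.abs_sum_le_sum_abs _ _).trans (Finset.sum_le_sum hbd)
    _ = ε := by
        rw [Finset.sum_const, Finset.card_range, nsmul_eq_mul]
        push_cast
        field_simp

end Pool.BDep
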