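import Pool.Agent.Work.MP_c264fd_pr_h14.Defs

/-!
# Interface: internal definitions and the exact statement of every block

See `BLUEPRINT.md` for the proofs.  A block `X` is a file `Work/MP_c264fd_pr_h14/X.lean` with
`theorem stmt_X : Stmt_X` (all inside `namespace Pool.BDep`).
-/

open MeasureTheory ProbabilityTheory Filter Topology
open scoped ENNReal NNReal

namespace Pool.BDep

/-! ## Deterministic objects -/

/-- effect of a ring at `x` -/
noncomputable def ring (x : ℤ) (h : Config) : Config :=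
  Function.update h x (max (max (h (x - 1)) (h (x + 1))) (h x + 1))

/-- apply the rings of the list, the head rings FIRST -/
noncomputable def run : List ℤ → Config → Config
  | [], h => h
  | x :: l, h => run l (ring x h)

/-- the box `[-n, n]` -/
noncomputable def box (n : ℕ) : Finset ℤ := Finset.Icc (-(n : ℤ)) n

/-- right end of the set of sites at time `0` which can influence `z` after the rings `l` -/
def gr (z : ℤ) : List ℤ → ℤ
  | [] => z
  | x :: l => if x = gr z l then gr z l + 1 else gr z l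

/-- left end of the set of sites at time `0` which can influence `z` after the rings `l` -/
def gl (z : ℤ) : List ℤ → ℤ
  | [] => z
  | x :: l => if x = gl z l then gl z l - 1 else gl z l

/-- dual effect of a ring -/
noncomputable def dring (x : ℤ) (K : ℤ → WithBot ℤ) : ℤ → WithBot ℤ := fun y =>
  if y = x then K x + 1 else if y = x - 1 ∨ y = x + 1 then max (K y) (K x) else K y

/-- dual profile of a list: `run l h 0 = max_y (h y + dual l y)` -/
noncomputable def dual : List ℤ → ℤ → WithBot ℤ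
  | [] => fun y => if y = 0 then 0 else ⊥
  | x :: l => dring x (dual l)

/-- the linear profile -/
def lin : Config := fun x => x

/-- shift of the gradient field -/
def shift (h : Config) : Config := fun x => h (x + 1) - h 1

/-- reflection -/
def refl (h : Config) : Config := fun x => h (-x)

/-! ## The law of the list of rings in a finite box -/

instance instMSList : MeasurableSpace (List ℤ) := ⊤

instance instDMSList : DiscreteMeasurableSpace (List ℤ) := ⟨fun _ => trivial⟩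

/-- weight of a list of rings in the box `Λ` during a time interval of length `t` -/
noncomputable def wt (Λ : Finset ℤ) (t : ℝ) (l : List ℤ) : ℝ≥0∞ :=
  if ∀ x ∈ l, x ∈ Λ then
    ENNReal.ofReal (Real.exp (-(Λ.card * t)) * t ^ l.length / l.length.factorial) else 0

/-- law of the list of rings in the box `Λ` during a time interval of length `t` -/
noncomputable def rho (Λ : Finset ℤ) (t : ℝ) : Measure (List ℤ) :=
  Measure.sum fun l => wt Λ t l • Measure.dirac l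

/-- `F` is local (depends on the sites of `D`) and bounded by `1` -/
def LocalBdd (D : Finset ℤ) (F : Config → ℝ) : Prop :=
  (∀ h h' : Config, (∀ x ∈ D, h x = h' x) → F h = F h') ∧ ∀ h, |F h| ≤ 1

/-! ## Block Det: deterministic facts -/

def Stmt_Det : Prop :=
  -- monotone
  (∀ l (h h' : Config), (∀ x, h x ≤ h' x) → ∀ x, run l h x ≤ run l h' x) ∧
  -- constants
  (∀ l (h : Config) (c : ℤ) x, run l (fun y => h y + c) x = run l h x + c) ∧
  -- concatenation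
  (∀ l l' (h : Config), run (l ++ l') h = run l' (run l h)) ∧
  -- heights increase, at most by `length` plus differences
  (∀ l (h : Config) x, h x ≤ run l h x) ∧
  -- fewer rings give smaller heights
  (∀ l (h : Config) (p : ℤ → Bool) x, run (l.filter p) h x ≤ run l h x) ∧
  -- translation
  (∀ l (h : Config) a x, run (l.map (· + a)) h x = run l (fun y => h (y + a)) (x - a)) ∧
  -- reflection
  (∀ l (h : Config) x, run (l.map (fun y => -y)) h x = run l (refl h) (-x)) ∧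
  -- greedy ends
  (∀ l z, gl z l ≤ z ∧ z ≤ gr z l ∧ z - l.length ≤ gl z l ∧ gr z l ≤ z + l.length) ∧
  (∀ l (h : Config) z, h (gr z l) ≤ run l h z ∧ h (gl z l) ≤ run l h z) ∧
  -- locality
  (∀ l (h h' : Config) z, (∀ y ∈ Finset.Icc (gl z l) (gr z l), h y = h' y) →
    run l h z = run l h' z) ∧
  -- only the rings in the influence interval matter
  (∀ l (h : Config) z (p : ℤ → Bool), (∀ y ∈ Finset.Icc (gl z l) (gr z l), p y = true) →
    run (l.filter p) h z = run l h z ∧ gl z (l.filter p) = gl z l ∧ gr z (l.filter p) = gr z l) ∧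
  -- the ends are monotone under prefixing
  (∀ l l' z, gl z (l ++ l') ≤ gl z l' ∧ gr z l' ≤ gr z (l ++ l')) ∧
  -- the value is attained in the influence interval
  (∀ l (h : Config) z, ∃ y ∈ Finset.Icc (gl z l) (gr z l), run l h z ≤ h y + l.length) ∧
  -- optimal starting point for the flat profile is admissible for every profile
  (∀ l z, ∃ y ∈ Finset.Icc (gl z l) (gr z l), ∀ h : Config, h y + run l 0 z ≤ run l h z)

/-! ## Block Dual -/

def Stmt_Dual : Prop :=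
  (∀ l (h : Config) y (k : ℤ), dual l y = k → h y + k ≤ run l h 0) ∧
  (∀ l (h : Config), ∃ y, ∃ k : ℤ, dual l y = k ∧ run l h 0 = h y + k) ∧
  (∀ l y, dual l y ≠ ⊥ → gl 0 l ≤ y ∧ y ≤ gr 0 l)

/-! ## Block Rho: facts about `rho` -/

def Stmt_RhoProb : Prop := ∀ Λ t, 0 ≤ t → IsProbabilityMeasure (rho Λ t)

def Stmt_RhoInt : Prop := ∀ Λ t (Φ : List ℤ → ℝ≥0∞), ∫⁻ l, Φ l ∂(rho Λ t) = ∑' l, wt Λ t l * Φ l

def Stmt_RhoSupp : Prop := ∀ Λ t, ∀ᵐ l ∂(rho Λ t), ∀ x ∈ l, x ∈ Λ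

def Stmt_RhoAdd : Prop := ∀ Λ s t, 0 ≤ s → 0 ≤ t →
  ((rho Λ s).prod (rho Λ t)).map (fun p => p.1 ++ p.2) = rho Λ (s + t)

def Stmt_RhoFilter : Prop := ∀ (Λ Λ' : Finset ℤ) t, 0 ≤ t → Λ ⊆ Λ' →
  (rho Λ' t).map (fun l => l.filter (· ∈ Λ)) = rho Λ t

def Stmt_RhoShift : Prop := ∀ (Λ : Finset ℤ) t (a : ℤ),
  (rho Λ t).map (List.map (· + a)) = rho (Λ.image (· + a)) t

def Stmt_RhoNeg : Prop := ∀ (Λ : Finset ℤ) t,
  (rho Λ t).map (List.map (fun y => -y)) = rho (Λ.image (fun y => -y)) t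

/-- small times: some ring in `D` has probability at most `|D| t` -/
def Stmt_RhoSmall : Prop := ∀ (Λ D : Finset ℤ) t, 0 ≤ t →
  rho Λ t {l | ∃ x ∈ l, x ∈ D} ≤ ENNReal.ofReal (D.card * t)

/-- exponential functionals -/
def Stmt_RhoExp : Prop := ∀ (Λ : Finset ℤ) (t γ C : ℝ) (Φ : List ℤ → ℝ≥0∞), 0 ≤ t → 0 ≤ γ → 0 ≤ C →
  Φ [] ≤ ENNReal.ofReal C →
  (∀ l, (∀ x ∈ l, x ∈ Λ) →
    ∑ x ∈ Λ, Φ (x :: l) ≤ ENNReal.ofReal (Λ.card + γ) * Φ l) →
  ∫⁻ l, Φ l ∂(rho Λ t) ≤ ENNReal.ofReal (C * Real.exp (γ * t))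

/-- linear functionals -/
def Stmt_RhoLin : Prop := ∀ (Λ : Finset ℤ) (t c : ℝ) (Φ : List ℤ → ℝ≥0∞) (good : List ℤ → Prop),
  0 ≤ t → 0 ≤ c → (∀ x l, good (x :: l) → good l) →
  (∀ l, (∀ x ∈ l, x ∈ Λ) → (Λ.card : ℝ≥0∞) * Φ l ≤ ∑ x ∈ Λ, Φ (x :: l)) →
  (∀ l, (∀ x ∈ l, x ∈ Λ) → good l →
    (Λ.card : ℝ≥0∞) * Φ l + ENNReal.ofReal c ≤ ∑ x ∈ Λ, Φ (x :: l)) →
  ENNReal.ofReal (c * t) * rho Λ t {l | good l} ≤ ∫⁻ l, Φ l ∂(rho Λ t)

/-- the influence interval is short -/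
def Stmt_RhoEnds : Prop := ∀ (Λ : Finset ℤ) (t : ℝ) (z : ℤ) (n : ℕ), 0 ≤ t →
  rho Λ t {l | z + n ≤ gr z l ∨ gl z l ≤ z - n} ≤ ENNReal.ofReal (2 * Real.exp t / 2 ^ n)

/-! ## Blocks UB and LB: the two numerical inequalities -/

/-- exponential upper bound for the slope one profile -/
def Stmt_UB : Prop := ∃ C : ℝ, 0 < C ∧ ∀ (Λ : Finset ℤ) (t : ℝ), 0 ≤ t →
  ∫⁻ l, ENNReal.ofReal ((10 / 7 : ℝ) ^ (run l lin 0)) ∂(rho Λ t)
    ≤ ENNReal.ofReal (C * Real.exp (10389 / 10000 * t))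

/-- lower bound for the flat profile -/
def Stmt_LB : Prop := ∃ C : ℝ, 0 < C ∧ ∀ (n : ℕ) (t : ℝ), 0 ≤ t →
  ENNReal.ofReal (19174 / 10000 * t) * rho (box n) t {l | -(n : ℤ) ≤ gl 0 l ∧ gr 0 l ≤ n}
    ≤ ∫⁻ l, ENNReal.ofReal (run l 0 0) ∂(rho (box n) t) + ENNReal.ofReal C

/-- the numbers fit -/
def Stmt_Num : Prop :=
  (10389 / 10000 : ℝ) / Real.log (10 / 7) < 1 + 19174 / 10000

/-! ## The growth function of the slope one profile -/

/-- expected growth at `x` in the box `Λ`, from the profile `lin` -/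
noncomputable def uu (Λ : Finset ℤ) (x : ℤ) (t : ℝ) : ℝ≥0∞ :=
  ∫⁻ l, ENNReal.ofReal ((run l lin x - x : ℤ) : ℝ) ∂(rho Λ t)

/-- infinite volume expected growth from the profile `lin` -/
noncomputable def UU (t : ℝ) : ℝ≥0∞ := ⨆ Λ : Finset ℤ, uu Λ 0 t

def Stmt_UU : Prop :=
  (∀ Λ x t, 0 ≤ t → uu Λ x t ≤ UU t) ∧
  (∀ x t, 0 ≤ t → Tendsto (fun n => uu (box n) x t) atTop (𝓝 (UU t))) ∧
  (∀ s t, 0 ≤ s → s ≤ t → UU s ≤ UU t) ∧
  (∃ C : ℝ, 0 < C ∧ ∀ t, 0 ≤ t →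
    UU t ≤ ENNReal.ofReal ((10389 / 10000 * t + C) / Real.log (10 / 7)))

/-! ## Comparison of boxes -/

/-- the law of a local observable does not depend much on the (large) box -/
def Stmt_Compare : Prop := ∀ (Λ Λ' D : Finset ℤ) (r : ℕ) (t : ℝ) (F : Config → ℝ) (h : Config),
  0 ≤ t → LocalBdd D F → (∀ x ∈ D, Finset.Icc (x - r) (x + r) ⊆ Λ) →
  (∀ x ∈ D, Finset.Icc (x - r) (x + r) ⊆ Λ') →
  |∫ l, F (run l h) ∂(rho Λ t) - ∫ l, F (run l h) ∂(rho Λ' t)|
    ≤ 8 * D.card * Real.exp t / 2 ^ r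

/-! ## Time averages -/

/-- A sequence of time averaged laws, with every property needed to pass to the limit. -/
structure GoodSeq (m : ℕ → Measure Config) : Prop where
  prob : ∀ k, IsProbabilityMeasure (m k)
  zero : ∀ k, ∀ᵐ h ∂(m k), h 0 = 0
  moment : ∀ x : ℤ, ∃ C : ℝ, ∀ k, ∫⁻ h, ENNReal.ofReal |(h x : ℝ)| ∂(m k) ≤ ENNReal.ofReal C
  shift : ∀ (D : Finset ℤ) (F : Config → ℝ), LocalBdd D F →
    Tendsto (fun k => ∫ h, F (shift h) ∂(m k) - ∫ h, F h ∂(m k)) atTop (𝓝 0)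
  inv : ∀ (D : Finset ℤ) (F : Config → ℝ) (s : ℝ), LocalBdd D F → 0 ≤ s → ∀ ε > 0, ∃ N : ℕ,
    ∀ n ≥ N, ∀ᶠ k in atTop,
      |∫ h, ∫ l, F (recenter (run l h)) ∂(rho (box n) s) ∂(m k) - ∫ h, F h ∂(m k)| ≤ ε
  fatou : ∀ (n T : ℕ) (ε : ℝ), 0 < ε → ∀ᶠ k in atTop,
    ∫⁻ h, ∫⁻ l, ENNReal.ofReal ((run l h 0 - h (gr 0 l) : ℤ) : ℝ) ∂(rho (box n) T) ∂(m k)
      + ∫⁻ l, ENNReal.ofReal (gr 0 l) ∂(rho (box n) T)
      ≤ ENNReal.ofReal (T * (10389 / 10000) / Real.log (10 / 7) + ε)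

/-- Time averages of the laws of the box dynamics started from `lin` (times `j 2^{-k}`,
`j < 4^k`). -/
noncomputable def avg (n k : ℕ) : Measure Config :=
  ((4 : ℝ≥0∞) ^ k)⁻¹ • ∑ j ∈ Finset.range (4 ^ k),
    (rho (box n) ((j : ℝ) / 2 ^ k)).map (fun l => recenter (run l lin))

/-- moment bound for time averages -/
def Stmt_AvgMoment : Prop := ∀ x : ℤ, ∃ C : ℝ, ∀ k : ℕ, ∀ᶠ n in atTop,
  ∫⁻ h, ENNReal.ofReal |(h x : ℝ)| ∂(avg n k) ≤ ENNReal.ofReal C

/-- approximate shift invariance of time averages (uniform over `F`) -/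
def Stmt_AvgShift : Prop := ∀ (k : ℕ) (D : Finset ℤ) (ε : ℝ), 0 < ε → ∀ᶠ n in atTop,
  ∀ F : Config → ℝ, LocalBdd D F →
    |∫ h, F (shift h) ∂(avg n k) - ∫ h, F h ∂(avg n k)| ≤ ε

/-- approximate invariance of time averages -/
def Stmt_AvgInv : Prop := ∀ (D : Finset ℤ) (F : Config → ℝ) (s : ℝ), LocalBdd D F → 0 ≤ s →
  ∀ ε > 0, ∃ N : ℕ, ∀ n ≥ N, ∀ᶠ k in atTop, ∀ n' ≥ n,
      |∫ h, ∫ l, F (recenter (run l h)) ∂(rho (box n) s) ∂(avg n' k) - ∫ h, F h ∂(avg n' k)| ≤ ε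

/-- growth inequality for time averages -/
def Stmt_AvgFatou : Prop := ∀ (n T : ℕ) (ε : ℝ), 0 < ε → ∀ᶠ k in atTop, ∀ᶠ n' in atTop,
    ∫⁻ h, ∫⁻ l, ENNReal.ofReal ((run l h 0 - h (gr 0 l) : ℤ) : ℝ) ∂(rho (box n) T) ∂(avg n' k)
      + ∫⁻ l, ENNReal.ofReal (gr 0 l) ∂(rho (box n) T)
      ≤ ENNReal.ofReal (T * (10389 / 10000) / Real.log (10 / 7) + ε)

def Stmt_GoodSeq : Prop := ∃ m : ℕ → Measure Config, GoodSeq m

/-! ## The limit measure -/

/-- box form of invariance -/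
def BoxInvariant (μ : Measure Config) : Prop :=
  ∀ (D : Finset ℤ) (F : Config → ℝ) (s : ℝ), LocalBdd D F → 0 ≤ s →
    Tendsto (fun n => ∫ h, ∫ l, F (recenter (run l h)) ∂(rho (box n) s) ∂μ) atTop
      (𝓝 (∫ h, F h ∂μ))

structure GoodLimit (μ : Measure Config) : Prop where
  prob : IsProbabilityMeasure μ
  zero : ∀ᵐ h ∂μ, h 0 = 0
  integrable : Integrable (fun h : Config => (h 1 : ℝ)) μ
  shift : μ.map shift = μ
  inv : BoxInvariant μ
  fatou : ∀ n T : ℕ,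
    ∫⁻ h, ∫⁻ l, ENNReal.ofReal ((run l h 0 - h (gr 0 l) : ℤ) : ℝ) ∂(rho (box n) T) ∂μ
      + ∫⁻ l, ENNReal.ofReal (gr 0 l) ∂(rho (box n) T)
      ≤ ENNReal.ofReal (T * (10389 / 10000) / Real.log (10 / 7))

/-- Prokhorov: a good sequence has a good limit -/
def Stmt_Limit : Prop := ∀ m : ℕ → Measure Config, GoodSeq m → ∃ μ : Measure Config, GoodLimit μ

/-- a good limit has nonzero mean slope -/
def Stmt_Slope : Prop := ∀ μ : Measure Config, GoodLimit μ → ∫ h, (h 1 : ℝ) ∂μ ≠ 0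

/-- mean ergodic theorem in `L¹`, in the form of convergence in law -/
def Stmt_Ergodic : Prop := ∀ μ : Measure Config, IsProbabilityMeasure μ → (∀ᵐ h ∂μ, h 0 = 0) →
  μ.map shift = μ → Integrable (fun h : Config => (h 1 : ℝ)) μ →
  ∃ ν : Measure ℝ, IsProbabilityMeasure ν ∧ Integrable (fun y => y) ν ∧
    ∫ y, y ∂ν = ∫ h, (h 1 : ℝ) ∂μ ∧
    ∀ f : BoundedContinuousFunction ℝ ℝ,
      Tendsto (fun n : ℕ => ∫ h, f ((h n : ℝ) / n) ∂μ) atTop (𝓝 (∫ y, f y ∂ν))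

/-- The main theorem in terms of box dynamics. -/
def Stmt_BoxMain : Prop := ∃ μ : Measure Config, IsProbabilityMeasure μ ∧ (∀ᵐ h ∂μ, h 0 = 0) ∧
  BoxInvariant μ ∧
  ∃ ν : Measure ℝ, IsProbabilityMeasure ν ∧ ν ≠ Measure.dirac 0 ∧
    ∀ f : BoundedContinuousFunction ℝ ℝ,
      Tendsto (fun x : ℤ => ∫ h, f ((h x : ℝ) / |(x : ℝ)| ^ (1 : ℝ)) ∂μ) cofinite
        (𝓝 (∫ y, f y ∂ν))

/-! ## Clocks -/

/-- rings in the box `Λ` during `(0, t]`, ordered by time -/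
def rings (c : ℤ → Set ℝ) (Λ : Finset ℤ) (t : ℝ) : Set (ℝ ×ₗ ℤ) :=
  {p | (ofLex p).2 ∈ Λ ∧ (ofLex p).1 ∈ c (ofLex p).2 ∩ Set.Ioc 0 t}

open Classical in
/-- the sites of the rings in the box `Λ` during `(0, t]`, in the order of time -/
noncomputable def ringList (c : ℤ → Set ℝ) (Λ : Finset ℤ) (t : ℝ) : List ℤ :=
  if h : (rings c Λ t).Finite then
    (h.toFinset.sort (fun a b => a ≤ b)).map (fun p => (ofLex p).2) else []

/-- good realisations of the clocks -/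
structure Nice (c : ℤ → Set ℝ) : Prop where
  finite : ∀ x (t : ℝ), (c x ∩ Set.Ioc 0 t).Finite
  distinct : ∀ x y (t : ℝ), x ≠ y → 0 < t → t ∈ c x → t ∉ c y
  free : ∀ (t : ℝ) (N : ℕ), (∃ a : ℤ, a < -N ∧ c a ∩ Set.Ioc 0 t = ∅) ∧
    (∃ b : ℤ, (N : ℤ) < b ∧ c b ∩ Set.Ioc 0 t = ∅)

/-- a ballistic deposition path is the limit of the box dynamics -/
def Stmt_TrajUnique : Prop := ∀ (c : ℤ → Set ℝ) (H : ℝ → Config), Nice c → IsBDTrajectory c H →
  ∀ (t : ℝ) (x : ℤ), 0 ≤ t → ∀ᶠ n in atTop, H t x = run (ringList c (box n) t) (H 0) x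

/-- existence of ballistic deposition paths -/
def Stmt_TrajExists : Prop := ∀ (c : ℤ → Set ℝ) (h : Config), Nice c →
  ∃ H : ℝ → Config, H 0 = h ∧ IsBDTrajectory c H

/-- Poisson clocks are nice -/
def Stmt_ClockNice : Prop := ∀ (Ω : Type) (_ : MeasurableSpace Ω) (P : Measure Ω)
  (_ : IsProbabilityMeasure P) (C : ℤ → Ω → Set ℝ), IsPoissonClocks P C →
  ∀ᵐ ω ∂P, Nice (fun x => C x ω)

/-- law of the list of rings, jointly with the initial condition -/
def Stmt_ClockLaw : Prop := ∀ (Ω : Type) (_ : MeasurableSpace Ω) (P : Measure Ω)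
  (_ : IsProbabilityMeasure P) (C : ℤ → Ω → Set ℝ) (g : Ω → Config), IsPoissonClocks P C →
  Measurable g → Indep (MeasurableSpace.comap g inferInstance)
    (⨆ (x : ℤ) (a : ℝ) (b : ℝ), MeasurableSpace.comap (count C x a b) inferInstance) P →
  ∀ (Λ : Finset ℤ) (t : ℝ), 0 ≤ t →
    AEMeasurable (fun ω => ringList (fun x => C x ω) Λ t) P ∧
    P.map (fun ω => (g ω, ringList (fun x => C x ω) Λ t)) = (P.map g).prod (rho Λ t)

/-- existence of independent Poisson clocks, with an independent random configuration -/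
def Stmt_ClockExists : Prop := ∀ μ : Measure Config, IsProbabilityMeasure μ →
  ∃ (Ω : Type) (_ : MeasurableSpace Ω) (P : Measure Ω) (_ : IsProbabilityMeasure P)
    (C : ℤ → Ω → Set ℝ) (g : Ω → Config), IsPoissonClocks P C ∧ Measurable g ∧ P.map g = μ ∧
    Indep (MeasurableSpace.comap g inferInstance)
      (⨆ (x : ℤ) (a : ℝ) (b : ℝ), MeasurableSpace.comap (count C x a b) inferInstance) P

/-- box invariance implies stationarity -/
def Stmt_Bridge : Prop := ∀ μ : Measure Config, IsProbabilityMeasure μ → BoxInvariant μ →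
  IsStationary μ

end Pool.BDep
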