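import Mathlib
import Pool.Agent.Work.MP_c264fd_pr_h14.Interface

/-!
# Block ClockExists: construction of independent Poisson clocks
-/

open MeasureTheory ProbabilityTheory Filter Topology
open scoped ENNReal NNReal

namespace Pool.BDep

namespace Clk

/-- uniform law on `(j, j+1]` -/
noncomputable def unif (j : ℕ) : Measure ℝ := volume.restrict (Set.Ioc (j : ℝ) (j + 1))

instance (j : ℕ) : IsProbabilityMeasure (unif j) := by
  constructor
  unfold unif
  rw [Measure.restrict_apply_univ, Real.volume_Ioc]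
  simp

/-- the law of one cell: a Poisson number and independent uniform points -/
noncomputable def cellM (c : ℤ × ℕ) : Measure (ℕ × (ℕ → ℝ)) :=
  (poissonMeasure 1).prod (Measure.infinitePi fun _ : ℕ => unif c.2)

instance (c : ℤ × ℕ) : IsProbabilityMeasure (cellM c) := by
  unfold cellM
  infer_instance

/-- the sample space -/
abbrev Om := ℤ × ℕ → ℕ × (ℕ → ℝ)

/-- the law -/
noncomputable def PP : Measure Om := Measure.infinitePi cellM

instance : IsProbabilityMeasure PP := by
  unfold PP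
  infer_instance

/-- no coincidences -/
def Good (ω : Om) : Prop := ∀ c : ℤ × ℕ, (∀ k, (ω c).2 k ∈ Set.Ioc (c.2 : ℝ) (c.2 + 1)) ∧
  ∀ k k' : ℕ, k ≠ k' → (ω c).2 k ≠ (ω c).2 k'

theorem measurableSet_Good : MeasurableSet {ω | Good ω} := by
  unfold Good
  simp only [Set.ofPred_forall, Set.ofPred_and]
  refine MeasurableSet.iInter fun c => MeasurableSet.inter ?_ ?_
  · refine MeasurableSet.iInter fun k => ?_
    exact (measurable_pi_apply k).comp (measurable_snd.comp (measurable_pi_apply c))
      measurableSet_Ioc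
  · refine MeasurableSet.iInter fun k => MeasurableSet.iInter fun k' => MeasurableSet.iInter
      fun _ => ?_
    exact (measurableSet_eq_fun ((measurable_pi_apply k).comp (measurable_snd.comp
      (measurable_pi_apply c))) ((measurable_pi_apply k').comp (measurable_snd.comp
      (measurable_pi_apply c)))).compl

theorem diag_null (j : ℕ) : ((unif j).prod (unif j)) {p : ℝ × ℝ | p.1 = p.2} = 0 := by
  rw [Measure.prod_apply (measurableSet_eq_fun measurable_fst measurable_snd)]
  refine (lintegral_congr fun x => ?_).trans lintegral_zero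
  have : Prod.mk x ⁻¹' {p : ℝ × ℝ | p.1 = p.2} = {x} := by
    ext y
    simp [eq_comm]
  rw [this]
  unfold unif
  exact measure_singleton x

theorem ae_Good : ∀ᵐ ω ∂PP, Good ω := by
  unfold Good
  rw [ae_all_iff]
  intro c
  have h1 : ∀ᵐ w ∂(cellM c), (∀ k, w.2 k ∈ Set.Ioc (c.2 : ℝ) (c.2 + 1)) ∧
      ∀ k k' : ℕ, k ≠ k' → w.2 k ≠ w.2 k' := by
    have h2 : ∀ᵐ u ∂(Measure.infinitePi fun _ : ℕ => unif c.2),
        (∀ k, u k ∈ Set.Ioc (c.2 : ℝ) (c.2 + 1)) ∧ ∀ k k' : ℕ, k ≠ k' → u k ≠ u k' := by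
      rw [eventually_and]
      constructor
      · rw [ae_all_iff]
        intro k
        have h3 : ∀ᵐ s ∂(unif c.2), s ∈ Set.Ioc (c.2 : ℝ) (c.2 + 1) :=
          ae_restrict_mem measurableSet_Ioc
        exact (measurePreserving_eval_infinitePi (fun _ : ℕ => unif c.2) k).quasiMeasurePreserving.ae
          h3
      · rw [ae_all_iff]
        intro k
        rw [ae_all_iff]
        intro k'
        by_cases hk : k = k'
        · exact Eventually.of_forall fun _ h => (h hk).elim
        · have h3 := Measure.infinitePi_map_eval_prod (P := fun _ : ℕ => unif c.2) hk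
          have h4 : ∀ᵐ p ∂((unif c.2).prod (unif c.2)), p.1 ≠ p.2 := by
            rw [ae_iff]
            simp only [not_not]
            exact diag_null _
          rw [← h3] at h4
          have h5 := ae_of_ae_map (by fun_prop) h4
          filter_upwards [h5] with u hu _ using hu
    exact Measure.quasiMeasurePreserving_snd.ae h2
  exact (measurePreserving_eval_infinitePi cellM c).quasiMeasurePreserving.ae h1

open Classical in
/-- the clocks -/
noncomputable def CC (x : ℤ) (ω : Om) : Set ℝ :=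
  if Good ω then {s | ∃ j k : ℕ, k < (ω (x, j)).1 ∧ s = (ω (x, j)).2 k} else ∅

open Classical in
theorem count_good (x : ℤ) (a b : ℝ) (J : ℕ) (hJ : b ≤ J) (ω : Om) (hω : Good ω) :
    count CC x a b ω = ∑ j ∈ Finset.range J, ∑ k ∈ Finset.range (ω (x, j)).1,
      if (ω (x, j)).2 k ∈ Set.Ioc a b then 1 else 0 := by
  have h1 : CC x ω ∩ Set.Ioc a b = ↑(((((Finset.range J).sigma fun j => Finset.range (ω (x, j)).1)).filter
      (fun p => (ω (x, p.1)).2 p.2 ∈ Set.Ioc a b)).image
      (fun p : (_ : ℕ) × ℕ => (ω (x, p.1)).2 p.2)) := by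
    ext s
    unfold CC
    rw [if_pos hω]
    simp only [Set.mem_inter_iff, Set.mem_ofPred_eq, Finset.coe_image, Finset.coe_filter,
      Finset.mem_sigma, Finset.mem_range, Set.mem_image]
    constructor
    · rintro ⟨⟨j, k, hk, rfl⟩, hs⟩
      refine ⟨⟨j, k⟩, ⟨⟨?_, hk⟩, hs⟩, rfl⟩
      have h2 := ((hω (x, j)).1 k).1
      have h3 : (j : ℝ) < J := lt_of_lt_of_le h2 (hs.2.trans hJ)
      exact_mod_cast h3
    · rintro ⟨⟨j, k⟩, ⟨⟨_, hk⟩, hs⟩, rfl⟩
      exact ⟨⟨j, k, hk, rfl⟩, hs⟩
  unfold count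
  rw [h1, Set.ncard_coe_finset, Finset.card_image_of_injOn, Finset.card_filter, Finset.sum_sigma]
  rintro ⟨j, k⟩ _ ⟨j', k'⟩ _ h
  simp only at h
  have h2 := (hω (x, j)).1 k
  have h3 := (hω (x, j')).1 k'
  rw [h] at h2
  have h4 : (j : ℝ) < j' + 1 := lt_of_lt_of_le h2.1 h3.2
  have h5 : (j' : ℝ) < j + 1 := lt_of_lt_of_le h3.1 h2.2
  have h6 : j = j' := by
    have h4' : j < j' + 1 := by exact_mod_cast h4
    have h5' : j' < j + 1 := by exact_mod_cast h5
    omega
  subst h6
  by_cases hk : k = k'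
  · rw [hk]
  · exact ((hω (x, j)).2 k k' hk h).elim

theorem count_bad (x : ℤ) (a b : ℝ) (ω : Om) (hω : ¬ Good ω) : count CC x a b ω = 0 := by
  unfold count CC
  rw [if_neg hω]
  simp

theorem finite_CC (x : ℤ) (ω : Om) (t : ℝ) : (CC x ω ∩ Set.Ioc 0 t).Finite := by
  by_cases hω : Good ω
  · refine (((Finset.range ⌈t⌉₊).sigma fun j => Finset.range (ω (x, j)).1).finite_toSet.image
      (fun p : (_ : ℕ) × ℕ => (ω (x, p.1)).2 p.2)).subset ?_
    intro s hs
    unfold CC at hs
    rw [if_pos hω] at hs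
    obtain ⟨⟨j, k, hk, rfl⟩, hs⟩ := hs
    refine ⟨⟨j, k⟩, ?_, rfl⟩
    simp only [Finset.coe_sigma, Set.mem_sigma_iff, Finset.mem_coe, Finset.mem_range]
    refine ⟨?_, hk⟩
    have h2 := ((hω (x, j)).1 k).1
    have h3 : (j : ℝ) < ⌈t⌉₊ := lt_of_lt_of_le h2 (hs.2.trans (Nat.le_ceil t))
    exact_mod_cast h3
  · unfold CC
    rw [if_neg hω]
    simp

/-- measurability of sums over the points of a cell -/
theorem measurable_cell_sum {g : ℝ → ℕ} (hg : Measurable g) :
    Measurable fun w : ℕ × (ℕ → ℝ) => ∑ k ∈ Finset.range w.1, g (w.2 k) := by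
  refine measurable_from_prod_countable_right fun n => ?_
  exact Finset.measurable_sum (Finset.range n) fun k _ => hg.comp (measurable_pi_apply k)

theorem measurable_cell_prod {g : ℝ → ℂ} (hg : Measurable g) :
    Measurable fun w : ℕ × (ℕ → ℝ) => ∏ k ∈ Finset.range w.1, g (w.2 k) := by
  refine measurable_from_prod_countable_right fun n => ?_
  exact Finset.measurable_prod (Finset.range n) fun k _ => hg.comp (measurable_pi_apply k)

theorem measurable_count (x : ℤ) (a b : ℝ) : Measurable (count CC x a b) := by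
  classical
  have h1 : count CC x a b = fun ω => if Good ω then
      ∑ j ∈ Finset.range ⌈b⌉₊, ∑ k ∈ Finset.range (ω (x, j)).1,
        (if (ω (x, j)).2 k ∈ Set.Ioc a b then 1 else 0) else 0 := by
    funext ω
    by_cases hω : Good ω
    · rw [if_pos hω]
      exact count_good x a b _ (Nat.le_ceil b) ω hω
    · rw [if_neg hω]
      exact count_bad x a b ω hω
  rw [h1]
  refine Measurable.ite measurableSet_Good ?_ measurable_const
  refine Finset.measurable_sum _ fun j _ => ?_
  have h2 : Measurable fun s : ℝ => if s ∈ Set.Ioc a b then (1 : ℕ) else 0 :=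
    Measurable.ite measurableSet_Ioc measurable_const measurable_const
  exact (measurable_cell_sum h2).comp (measurable_pi_apply (x, j))

/-- exponential formula in one cell -/
theorem cell_int (c : ℤ × ℕ) {φ : ℝ → ℂ} (hφ : Measurable φ) (hb : ∀ s, ‖φ s‖ ≤ 1) :
    ∫ w, ∏ k ∈ Finset.range w.1, φ (w.2 k) ∂(cellM c) =
      Complex.exp (∫ s, φ s ∂(unif c.2) - 1) := by
  have hbd : ∀ w : ℕ × (ℕ → ℝ), ‖∏ k ∈ Finset.range w.1, φ (w.2 k)‖ ≤ 1 := by
    intro w
    rw [norm_prod]
    exact Finset.prod_le_one (fun _ _ => norm_nonneg _) fun k _ => hb _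
  have hint : Integrable (fun w : ℕ × (ℕ → ℝ) => ∏ k ∈ Finset.range w.1, φ (w.2 k)) (cellM c) :=
    Integrable.of_bound (measurable_cell_prod hφ).aestronglyMeasurable 1
      (Eventually.of_forall hbd)
  unfold cellM at hint ⊢
  rw [integral_prod _ hint]
  have h1 : ∀ n : ℕ, ∫ u : ℕ → ℝ, ∏ k ∈ Finset.range n, φ (u k)
      ∂(Measure.infinitePi fun _ : ℕ => unif c.2) = (∫ s, φ s ∂(unif c.2)) ^ n := by
    intro n
    have h2 : iIndepFun (fun (i : Fin n) (u : ℕ → ℝ) => u (i : ℕ))
        (Measure.infinitePi fun _ : ℕ => unif c.2) :=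
      (iIndepFun_infinitePi (P := fun _ : ℕ => unif c.2) (X := fun _ x => x)
        (fun _ => measurable_id)).precomp Fin.val_injective
    have h3 := h2.integral_fun_prod_comp (f := fun _ => φ)
      (fun i => (measurable_pi_apply (i : ℕ)).aemeasurable)
      (fun i => hφ.aestronglyMeasurable)
    have h4 : ∀ u : ℕ → ℝ, ∏ k ∈ Finset.range n, φ (u k) = ∏ i : Fin n, φ (u i) := fun u =>
      (Fin.prod_univ_eq_prod_range (fun k => φ (u k)) n).symm
    simp only [h4]
    rw [h3]
    have h5 : ∀ i : Fin n, ∫ u : ℕ → ℝ, φ (u i) ∂(Measure.infinitePi fun _ : ℕ => unif c.2) =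
        ∫ s, φ s ∂(unif c.2) := by
      intro i
      have h6 := measurePreserving_eval_infinitePi (fun _ : ℕ => unif c.2) (i : ℕ)
      have h7 := integral_map (μ := Measure.infinitePi fun _ : ℕ => unif c.2)
        h6.measurable.aemeasurable (f := φ) hφ.aestronglyMeasurable
      rw [h6.map_eq] at h7
      exact h7.symm
    simp only [h5]
    rw [Finset.prod_const, Finset.card_univ, Fintype.card_fin]
  simp only [h1]
  rw [integral_poissonMeasure]
  set z := ∫ s, φ s ∂(unif c.2) with hz
  have h8 : ∀ n : ℕ, (Real.exp (-((1 : ℝ≥0) : ℝ)) * ((1 : ℝ≥0) : ℝ) ^ n / n.factorial) • z ^ n =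
      Complex.exp (-1) * (z ^ n / n.factorial) := by
    intro n
    rw [Complex.real_smul]
    push_cast
    rw [one_pow]
    ring
  simp only [h8]
  rw [tsum_mul_left, (NormedSpace.expSeries_div_hasSum_exp z).tsum_eq, ← Complex.exp_eq_exp_ℂ,
    ← Complex.exp_add]
  congr 1
  ring

/-- exponential formula in finitely many cells -/
theorem cells_int (F : Finset (ℤ × ℕ)) {φ : ℤ → ℝ → ℂ} (hφ : ∀ x, Measurable (φ x))
    (hb : ∀ x s, ‖φ x s‖ ≤ 1) :
    ∫ ω, ∏ c ∈ F, ∏ k ∈ Finset.range (ω c).1, φ c.1 ((ω c).2 k) ∂PP =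
      ∏ c ∈ F, Complex.exp (∫ s, φ c.1 s ∂(unif c.2) - 1) := by
  have h2 : iIndepFun (fun (i : F) (ω : Om) => ω (i : ℤ × ℕ)) PP :=
    (iIndepFun_infinitePi (P := cellM) (X := fun _ x => x)
      (fun _ => measurable_id)).precomp Subtype.val_injective
  have h3 := h2.integral_fun_prod_comp (f := fun (i : F) w =>
      ∏ k ∈ Finset.range w.1, φ (i : ℤ × ℕ).1 (w.2 k))
      (fun i => (measurable_pi_apply (i : ℤ × ℕ)).aemeasurable)
      (fun i => (measurable_cell_prod (hφ _)).aestronglyMeasurable)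
  have h4 : ∀ ω : Om, ∏ c ∈ F, ∏ k ∈ Finset.range (ω c).1, φ c.1 ((ω c).2 k) =
      ∏ i : F, ∏ k ∈ Finset.range (ω i).1, φ (i : ℤ × ℕ).1 ((ω i).2 k) := fun ω =>
    (Finset.prod_coe_sort F (fun c => ∏ k ∈ Finset.range (ω c).1, φ c.1 ((ω c).2 k))).symm
  simp only [h4]
  rw [h3, ← Finset.prod_coe_sort F]
  refine Finset.prod_congr rfl fun i _ => ?_
  rw [← cell_int (i : ℤ × ℕ) (hφ _) (hb _)]
  have h6 := measurePreserving_eval_infinitePi cellM (i : ℤ × ℕ)
  have h7 := integral_map (μ := PP) h6.measurable.aemeasurable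
    (f := fun w : ℕ × (ℕ → ℝ) => ∏ k ∈ Finset.range w.1, φ (i : ℤ × ℕ).1 (w.2 k))
    (measurable_cell_prod (hφ _)).aestronglyMeasurable
  have h8 : Measure.map (Function.eval (i : ℤ × ℕ)) PP = cellM i := h6.map_eq
  rw [h8] at h7
  exact h7.symm

theorem sum_unif {S : Set ℝ} (hS : MeasurableSet S) (J : ℕ) :
    ∑ j ∈ Finset.range J, (unif j).real S = volume.real (S ∩ Set.Ioc 0 (J : ℝ)) := by
  induction J with
  | zero => simp
  | succ J ih =>
    rw [Finset.sum_range_succ, ih]
    have h1 : (unif J).real S = volume.real (S ∩ Set.Ioc (J : ℝ) (J + 1)) := by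
      unfold unif
      rw [measureReal_restrict_apply hS]
    rw [h1]
    have h2 : S ∩ Set.Ioc 0 ((J + 1 : ℕ) : ℝ) =
        (S ∩ Set.Ioc 0 (J : ℝ)) ∪ (S ∩ Set.Ioc (J : ℝ) (J + 1)) := by
      rw [← Set.inter_union_distrib_left, Set.Ioc_union_Ioc_eq_Ioc (by positivity) (by linarith)]
      push_cast
      rfl
    have hfin : ∀ u v : ℝ, volume (S ∩ Set.Ioc u v) ≠ ∞ := by
      intro u v
      refine ne_of_lt (lt_of_le_of_lt (measure_mono Set.inter_subset_right) ?_)
      rw [Real.volume_Ioc]
      exact ENNReal.ofReal_lt_top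
    rw [h2, measureReal_union ?_ (hS.inter measurableSet_Ioc) (hfin _ _) (hfin _ _)]
    refine Set.disjoint_left.2 fun s h3 h4 => ?_
    exact absurd h3.2.2 (not_le.2 h4.2.1)

theorem sum_unif_Ioc {a b : ℝ} (ha : 0 ≤ a) (J : ℕ) (hb : b ≤ J) :
    ∑ j ∈ Finset.range J, (unif j).real (Set.Ioc a b) = volume.real (Set.Ioc a b) := by
  rw [sum_unif measurableSet_Ioc]
  congr 1
  refine Set.inter_eq_left.2 fun s hs => ⟨lt_of_le_of_lt ha hs.1, hs.2.trans hb⟩

open Classical in
/-- the test function of a family of windows -/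
noncomputable def tst {m : ℕ} (x : Fin m → ℤ) (a b : Fin m → ℝ) (z : Fin m → ℂ) (y : ℤ) (s : ℝ) :
    ℂ := ∏ i, if x i = y ∧ s ∈ Set.Ioc (a i) (b i) then z i else 1

theorem measurable_tst {m : ℕ} (x : Fin m → ℤ) (a b : Fin m → ℝ) (z : Fin m → ℂ) (y : ℤ) :
    Measurable (tst x a b z y) := by
  classical
  unfold tst
  refine Finset.measurable_prod _ fun i _ => ?_
  refine Measurable.ite ?_ measurable_const measurable_const
  by_cases h : x i = y
  · simp only [h, true_and]
    exact measurableSet_Ioc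
  · simp only [h, false_and]
    exact MeasurableSet.empty

theorem norm_tst {m : ℕ} (x : Fin m → ℤ) (a b : Fin m → ℝ) (z : Fin m → ℂ) (hz : ∀ i, ‖z i‖ ≤ 1)
    (y : ℤ) (s : ℝ) : ‖tst x a b z y s‖ ≤ 1 := by
  classical
  unfold tst
  rw [norm_prod]
  refine Finset.prod_le_one (fun _ _ => norm_nonneg _) fun i _ => ?_
  split_ifs
  · exact hz i
  · simp

open Classical in
theorem tst_eq {m : ℕ} (x : Fin m → ℤ) (a b : Fin m → ℝ) (z : Fin m → ℂ)
    (hd : ∀ i j, i ≠ j → x i = x j → Disjoint (Set.Ioc (a i) (b i)) (Set.Ioc (a j) (b j)))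
    (y : ℤ) (s : ℝ) : tst x a b z y s =
      1 + ∑ i, (if x i = y then (z i - 1) else 0) * (Set.Ioc (a i) (b i)).indicator 1 s := by
  unfold tst
  by_cases h : ∃ i, x i = y ∧ s ∈ Set.Ioc (a i) (b i)
  · obtain ⟨i, hi1, hi2⟩ := h
    have h1 : ∀ j, j ≠ i → ¬ (x j = y ∧ s ∈ Set.Ioc (a j) (b j)) := by
      intro j hj hj2
      exact Set.disjoint_left.1 (hd j i hj (hj2.1.trans hi1.symm)) hj2.2 hi2
    rw [Finset.prod_eq_single i, Finset.sum_eq_single i, if_pos ⟨hi1, hi2⟩, if_pos hi1,
      Set.indicator_of_mem hi2]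
    · simp
    · intro j _ hj
      by_cases h2 : x j = y
      · rw [Set.indicator_of_notMem (fun h3 => h1 j hj ⟨h2, h3⟩), mul_zero]
      · rw [if_neg h2, zero_mul]
    · simp
    · intro j _ hj
      rw [if_neg (h1 j hj)]
    · simp
  · push Not at h
    rw [Finset.prod_eq_one, Finset.sum_eq_zero, add_zero]
    · intro j _
      by_cases h2 : x j = y
      · rw [Set.indicator_of_notMem (h j h2), mul_zero]
      · rw [if_neg h2, zero_mul]
    · intro j _
      rw [if_neg (fun h3 => h j h3.1 h3.2)]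

open Classical in
theorem int_tst {m : ℕ} (x : Fin m → ℤ) (a b : Fin m → ℝ) (z : Fin m → ℂ)
    (hd : ∀ i j, i ≠ j → x i = x j → Disjoint (Set.Ioc (a i) (b i)) (Set.Ioc (a j) (b j)))
    (y : ℤ) (j : ℕ) : ∫ s, tst x a b z y s ∂(unif j) - 1 =
      ∑ i, (if x i = y then (z i - 1) else 0) * ((unif j).real (Set.Ioc (a i) (b i)) : ℂ) := by
  simp only [tst_eq x a b z hd]
  have h1 : ∀ i : Fin m, Integrable (fun s => (if x i = y then (z i - 1) else 0) *
      (Set.Ioc (a i) (b i)).indicator (1 : ℝ → ℂ) s) (unif j) := by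
    intro i
    refine Integrable.const_mul ?_ _
    exact (integrable_const (1 : ℂ)).indicator measurableSet_Ioc
  rw [integral_add (integrable_const _) (integrable_finsetSum _ fun i _ => h1 i),
    integral_finsetSum _ fun i _ => h1 i]
  simp only [integral_const, probReal_univ, one_smul, add_sub_cancel_left]
  refine Finset.sum_congr rfl fun i _ => ?_
  rw [integral_const_mul]
  congr 1
  have h2 : (Set.Ioc (a i) (b i)).indicator (1 : ℝ → ℂ) =
      (Set.Ioc (a i) (b i)).indicator (fun _ => (1 : ℂ)) := rfl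
  rw [h2, integral_indicator_const _ measurableSet_Ioc, Complex.real_smul, mul_one]

theorem main_formula (m : ℕ) (x : Fin m → ℤ) (a b : Fin m → ℝ) (z : Fin m → ℂ)
    (hz : ∀ i, ‖z i‖ ≤ 1) (ha : ∀ i, 0 ≤ a i)
    (hd : ∀ i j, i ≠ j → x i = x j → Disjoint (Set.Ioc (a i) (b i)) (Set.Ioc (a j) (b j))) :
    ∫ ω, ∏ i, z i ^ (count CC (x i) (a i) (b i) ω) ∂PP =
      Complex.exp (∑ i, (z i - 1) * (volume.real (Set.Ioc (a i) (b i)) : ℂ)) := by
  classical
  set J : ℕ := Finset.univ.sup (fun i => ⌈b i⌉₊) with hJ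
  have hbJ : ∀ i, b i ≤ J := by
    intro i
    refine (Nat.le_ceil (b i)).trans ?_
    have h1 : ⌈b i⌉₊ ≤ J := Finset.le_sup (f := fun i => ⌈b i⌉₊) (Finset.mem_univ i)
    exact_mod_cast h1
  set F : Finset (ℤ × ℕ) := (Finset.univ.image x) ×ˢ Finset.range J with hF
  have h1 : ∀ᵐ ω ∂PP, ∏ i, z i ^ (count CC (x i) (a i) (b i) ω) =
      ∏ c ∈ F, ∏ k ∈ Finset.range (ω c).1, tst x a b z c.1 ((ω c).2 k) := by
    filter_upwards [ae_Good] with ω hω
    unfold tst
    have h2 : ∀ c ∈ F, ∏ k ∈ Finset.range (ω c).1, ∏ i, (if x i = c.1 ∧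
        (ω c).2 k ∈ Set.Ioc (a i) (b i) then z i else 1) = ∏ i, ∏ k ∈ Finset.range (ω c).1,
        (if x i = c.1 ∧ (ω c).2 k ∈ Set.Ioc (a i) (b i) then z i else 1) :=
      fun c _ => Finset.prod_comm
    rw [Finset.prod_congr rfl h2, Finset.prod_comm]
    refine Finset.prod_congr rfl fun i _ => ?_
    rw [count_good (x i) (a i) (b i) J (hbJ i) ω hω, hF, Finset.prod_product,
      Finset.prod_eq_single (x i)]
    · rw [← Finset.prod_pow_eq_pow_sum]
      refine Finset.prod_congr rfl fun j _ => ?_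
      rw [← Finset.prod_pow_eq_pow_sum]
      refine Finset.prod_congr rfl fun k _ => ?_
      by_cases h : (ω (x i, j)).2 k ∈ Set.Ioc (a i) (b i)
      · simp [h]
      · simp [h]
    · intro y _ hy
      refine Finset.prod_eq_one fun j _ => Finset.prod_eq_one fun k _ => ?_
      rw [if_neg (fun h => hy h.1.symm)]
    · intro h
      exact absurd (Finset.mem_image_of_mem x (Finset.mem_univ i)) h
  rw [integral_congr_ae h1, cells_int F (measurable_tst x a b z) (norm_tst x a b z hz),
    ← Complex.exp_sum]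
  congr 1
  simp only [int_tst x a b z hd]
  rw [Finset.sum_comm]
  refine Finset.sum_congr rfl fun i _ => ?_
  rw [hF, Finset.sum_product, Finset.sum_eq_single (x i)]
  · simp only [if_true]
    rw [← Finset.mul_sum, ← Complex.ofReal_sum, sum_unif_Ioc (ha i) J (hbJ i)]
  · intro y _ hy
    refine Finset.sum_eq_zero fun j _ => ?_
    rw [if_neg (fun h => hy h.symm), zero_mul]
  · intro h
    exact absurd (Finset.mem_image_of_mem x (Finset.mem_univ i)) h

theorem norm_z (t : ℝ) : ‖Complex.exp (t * Complex.I)‖ ≤ 1 := by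
  rw [Complex.norm_exp_ofReal_mul_I]

theorem single_formula (x : ℤ) (a b : ℝ) (t : ℝ) (ha : 0 ≤ a) :
    ∫ ω, Complex.exp (t * Complex.I) ^ (count CC x a b ω) ∂PP =
      Complex.exp ((Complex.exp (t * Complex.I) - 1) * (volume.real (Set.Ioc a b) : ℂ)) := by
  have h := main_formula 1 (fun _ => x) (fun _ => a) (fun _ => b)
    (fun _ => Complex.exp (t * Complex.I)) (fun _ => norm_z t) (fun _ => ha)
    (fun i j hij => (hij (Subsingleton.elim i j)).elim)
  simpa using h

theorem charFun_count (x : ℤ) (a b : ℝ) (t : ℝ) (ha : 0 ≤ a) :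
    charFun (PP.map (fun ω => (count CC x a b ω : ℝ))) t =
      Complex.exp ((Complex.exp (t * Complex.I) - 1) * (volume.real (Set.Ioc a b) : ℂ)) := by
  rw [charFun_apply, integral_map, ← single_formula x a b t ha]
  · refine integral_congr_ae (Eventually.of_forall fun ω => ?_)
    simp only [Real.inner_apply]
    rw [← Complex.exp_nat_mul]
    congr 1
    push_cast
    ring
  · exact ((measurable_from_top : Measurable (fun n : ℕ => (n : ℝ))).comp
      (measurable_count x a b)).aemeasurable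
  · fun_prop

theorem poisson_count (x : ℤ) (a b : ℝ) (ha : 0 ≤ a) (_hab : a ≤ b) :
    PP.map (count CC x a b) = poissonMeasure (b - a).toNNReal := by
  have hm := measurable_count x a b
  have hc : Measurable (fun n : ℕ => (n : ℝ)) := measurable_from_top
  have h1 : (PP.map (count CC x a b)).map (fun n : ℕ => (n : ℝ)) =
      (poissonMeasure (b - a).toNNReal).map (fun n : ℕ => (n : ℝ)) := by
    have hp1 : IsProbabilityMeasure ((PP.map (count CC x a b)).map (fun n : ℕ => (n : ℝ))) := by
      have := Measure.isProbabilityMeasure_map (μ := PP) hm.aemeasurable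
      exact Measure.isProbabilityMeasure_map hc.aemeasurable
    refine Measure.ext_of_charFun ?_
    funext t
    rw [Measure.map_map hc hm]
    have h2 := charFun_count x a b t ha
    have h3 := charFun_map_cast_poissonMeasure (b - a).toNNReal t
    refine h2.trans (Eq.trans ?_ h3.symm)
    congr 1
    rw [mul_comm]
    congr 1
    rw [Real.volume_real_Ioc]
    rfl
  refine Measure.ext_of_singleton fun n => ?_
  have h2 : (fun n : ℕ => (n : ℝ)) ⁻¹' {(n : ℝ)} = {n} := by
    ext k
    simp
  have h3 : ((PP.map (count CC x a b)).map (fun n : ℕ => (n : ℝ))) {(n : ℝ)} =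
      ((poissonMeasure (b - a).toNNReal).map (fun n : ℕ => (n : ℝ))) {(n : ℝ)} := by rw [h1]
  rw [Measure.map_apply hc (measurableSet_singleton _),
    Measure.map_apply hc (measurableSet_singleton _), h2] at h3
  exact h3

theorem indep_count (m : ℕ) (x : Fin m → ℤ) (a b : Fin m → ℝ) (ha : ∀ i, 0 ≤ a i)
    (hd : ∀ i j, i ≠ j → x i = x j → Disjoint (Set.Ioc (a i) (b i)) (Set.Ioc (a j) (b j))) :
    iIndepFun (fun i => count CC (x i) (a i) (b i)) PP := by
  have hc : Measurable (fun n : ℕ => (n : ℝ)) := measurable_from_top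
  have hm : ∀ i, Measurable fun ω => (count CC (x i) (a i) (b i) ω : ℝ) := fun i =>
    hc.comp (measurable_count _ _ _)
  have h1 : iIndepFun (fun i ω => (count CC (x i) (a i) (b i) ω : ℝ)) PP := by
    rw [iIndepFun_iff_charFun_pi (fun i => (hm i).aemeasurable)]
    intro t
    have h2 : ∀ i, charFun (PP.map (fun ω => (count CC (x i) (a i) (b i) ω : ℝ))) (t i) =
        Complex.exp ((Complex.exp (t i * Complex.I) - 1) *
          (volume.real (Set.Ioc (a i) (b i)) : ℂ)) := fun i => charFun_count _ _ _ _ (ha i)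
    simp only [h2]
    rw [← Complex.exp_sum, ← main_formula m x a b _ (fun i => norm_z (t i)) ha hd]
    rw [charFun_apply, integral_map]
    · refine integral_congr_ae (Eventually.of_forall fun ω => ?_)
      simp only [PiLp.inner_apply, Real.inner_apply]
      rw [Complex.ofReal_sum, Finset.sum_mul, Complex.exp_sum]
      refine Finset.prod_congr rfl fun i _ => ?_
      rw [← Complex.exp_nat_mul]
      congr 1
      push_cast
      ring
    · have : Measurable fun ω => (fun i => (count CC (x i) (a i) (b i) ω : ℝ)) :=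
        measurable_pi_iff.2 hm
      exact ((MeasurableEquiv.toLp 2 (Fin m → ℝ)).measurable.comp this).aemeasurable
    · fun_prop
  have h2 := h1.comp (fun _ => Nat.floor) (fun _ => Nat.measurable_floor)
  have h3 : (fun i => (Nat.floor : ℝ → ℕ) ∘ fun ω => (count CC (x i) (a i) (b i) ω : ℝ)) =
      fun i => count CC (x i) (a i) (b i) := by
    funext i ω
    simp
  rw [h3] at h2
  exact h2

end Clk

theorem stmt_ClockExists : Stmt_ClockExists := by
  intro μ hμ
  have hfst : MeasurePreserving (Prod.fst : Clk.Om × Config → Clk.Om) (Clk.PP.prod μ) Clk.PP :=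
    measurePreserving_fst
  have hcount : ∀ (x : ℤ) (a b : ℝ), count (fun x (ω : Clk.Om × Config) => Clk.CC x ω.1) x a b =
      count Clk.CC x a b ∘ Prod.fst := fun x a b => rfl
  refine ⟨Clk.Om × Config, inferInstance, Clk.PP.prod μ, inferInstance,
    fun x ω => Clk.CC x ω.1, Prod.snd, ?_, measurable_snd, ?_, ?_⟩
  · constructor
    · intro x ω s hs
      simp only [Clk.CC] at hs
      split_ifs at hs with hg
      · obtain ⟨j, k, _, rfl⟩ := hs
        have h1 := ((hg (x, j)).1 k).1
        have h2 : (0 : ℝ) ≤ (j : ℝ) := Nat.cast_nonneg j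
        exact lt_of_le_of_lt h2 h1
      · exact absurd hs (Set.notMem_empty s)
    · intro x ω t
      exact Clk.finite_CC x ω.1 t
    · intro x a b
      rw [hcount]
      exact (Clk.measurable_count x a b).comp measurable_fst
    · intro x a b ha hab
      rw [hcount, ← Measure.map_map (Clk.measurable_count x a b) measurable_fst, hfst.map_eq]
      exact Clk.poisson_count x a b ha hab
    · intro k x a b ha hd
      have h1 := Clk.indep_count k x a b ha hd
      rw [iIndepFun_iff_map_fun_eq_pi_map (fun i => (Clk.measurable_count _ _ _).aemeasurable)]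
        at h1
      simp only [hcount]
      rw [iIndepFun_iff_map_fun_eq_pi_map (fun i =>
        ((Clk.measurable_count _ _ _).comp measurable_fst).aemeasurable)]
      have h2 : (fun (ω : Clk.Om × Config) (i : Fin k) =>
          (count Clk.CC (x i) (a i) (b i) ∘ Prod.fst) ω) =
          (fun ω (i : Fin k) => count Clk.CC (x i) (a i) (b i) ω) ∘ Prod.fst := rfl
      have h3 : Measurable (fun ω (i : Fin k) => count Clk.CC (x i) (a i) (b i) ω) :=
        measurable_pi_iff.2 fun i => Clk.measurable_count _ _ _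
      rw [h2, ← Measure.map_map h3 measurable_fst, hfst.map_eq, h1]
      congr 1
      funext i
      rw [← Measure.map_map (Clk.measurable_count _ _ _) measurable_fst, hfst.map_eq]
  · exact measurePreserving_snd.map_eq
  · have h1 : IndepFun (Prod.snd : Clk.Om × Config → Config) Prod.fst (Clk.PP.prod μ) :=
      (indepFun_prod measurable_id measurable_id).symm
    refine indep_of_indep_of_le_right h1 ?_
    refine iSup_le fun x => iSup_le fun a => iSup_le fun b => ?_
    rw [hcount, ← MeasurableSpace.comap_comp]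
    exact MeasurableSpace.comap_mono (Clk.measurable_count x a b).comap_le

end Pool.BDep
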