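import Pool.Agent.Work.MP_c264fd_pr_helper26.ClockLaw

/-!
# Block ClockNice: Poisson clocks are nice
-/

open MeasureTheory ProbabilityTheory Filter Topology
open scoped ENNReal NNReal

namespace Pool.BDep.CN80

section
variable {Ω : Type} [mΩ : MeasurableSpace Ω] {P : Measure Ω} [IsProbabilityMeasure P]
  {C : ℤ → Ω → Set ℝ}

/-- the probability that there is at least one ring -/
theorem prob_pos (hC : IsPoissonClocks P C) (x : ℤ) {a b : ℝ} (ha : 0 ≤ a) (hab : a ≤ b) :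
    P (count C x a b ⁻¹' {0}ᶜ) = ENNReal.ofReal (1 - Real.exp (-(b - a))) := by
  rw [Set.preimage_compl, prob_compl_eq_one_sub (hC.measurable x a b (MeasurableSet.singleton 0)),
    CL26.prob_cell hC x ha hab 0, ENNReal.ofReal_sub _ (Real.exp_pos _).le, ENNReal.ofReal_one]
  simp

theorem one_sub_exp_le (δ : ℝ) : 1 - Real.exp (-δ) ≤ δ := by
  have := Real.add_one_le_exp (-δ)
  linarith

theorem ne_zero_of_mem (hC : IsPoissonClocks P C) {x : ℤ} {a b t : ℝ} {ω : Ω} (ha : 0 ≤ a)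
    (h1 : t ∈ C x ω) (h2 : a < t) (h3 : t ≤ b) : count C x a b ω ≠ 0 := by
  unfold count
  have hfin : (C x ω ∩ Set.Ioc a b).Finite :=
    (hC.finite x ω b).subset fun τ hτ => ⟨hτ.1, lt_of_le_of_lt ha hτ.2.1, hτ.2.2⟩
  rw [Ne, Set.ncard_eq_zero hfin]
  intro h
  have h4 : t ∈ C x ω ∩ Set.Ioc a b := ⟨h1, h2, h3⟩
  rw [h] at h4
  exact h4

theorem pair_cell (hC : IsPoissonClocks P C) {x y : ℤ} (hxy : x ≠ y) {a b : ℝ} (ha : 0 ≤ a)
    (hab : a ≤ b) :
    P (count C x a b ⁻¹' {0}ᶜ ∩ count C y a b ⁻¹' {0}ᶜ) ≤ ENNReal.ofReal ((b - a) ^ 2) := by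
  have hind := hC.indep 2 ![x, y] (fun _ => a) (fun _ => b) (fun _ => ha) (by
    intro i j hij hx
    exfalso
    fin_cases i <;> fin_cases j <;> simp_all)
  have h2 : IndepFun (count C x a b) (count C y a b) P :=
    hind.indepFun (i := (0 : Fin 2)) (j := (1 : Fin 2)) (by decide)
  rw [h2.measure_inter_preimage_eq_mul _ _ (MeasurableSet.singleton 0).compl
    (MeasurableSet.singleton 0).compl, prob_pos hC x ha hab, prob_pos hC y ha hab,
    ← ENNReal.ofReal_mul (by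
      have : Real.exp (-(b - a)) ≤ 1 := Real.exp_le_one_iff.2 (by linarith)
      linarith)]
  refine ENNReal.ofReal_le_ofReal ?_
  have h3 := one_sub_exp_le (b - a)
  have h4 : 0 ≤ 1 - Real.exp (-(b - a)) := by
    have : Real.exp (-(b - a)) ≤ 1 := Real.exp_le_one_iff.2 (by linarith)
    linarith
  nlinarith

theorem distinct_aux (hC : IsPoissonClocks P C) {x y : ℤ} (hxy : x ≠ y) (K : ℕ) :
    P {ω | ∃ t : ℝ, 0 < t ∧ t ≤ K ∧ t ∈ C x ω ∧ t ∈ C y ω} = 0 := by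
  have key : ∀ M : ℕ, P {ω | ∃ t : ℝ, 0 < t ∧ t ≤ K ∧ t ∈ C x ω ∧ t ∈ C y ω} ≤
      ENNReal.ofReal ((K : ℝ) ^ 2 / ((M : ℝ) + 1)) := by
    intro M
    have hM : (0 : ℝ) < (M : ℝ) + 1 := by positivity
    set δ : ℝ := (K : ℝ) / ((M : ℝ) + 1) with hδd
    have hδ : 0 ≤ δ := by positivity
    have hsub : {ω | ∃ t : ℝ, 0 < t ∧ t ≤ K ∧ t ∈ C x ω ∧ t ∈ C y ω} ⊆
        ⋃ i ∈ Finset.range (M + 1), (count C x (i * δ) ((i + 1) * δ) ⁻¹' {0}ᶜ ∩
          count C y (i * δ) ((i + 1) * δ) ⁻¹' {0}ᶜ) := by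
      rintro ω ⟨t, h0, h1, h2, h3⟩
      have hK : (0 : ℝ) < K := lt_of_lt_of_le h0 h1
      have hδ' : 0 < δ := by positivity
      have hpos : 0 < t / δ := by positivity
      have hceil : 0 < ⌈t / δ⌉₊ := Nat.ceil_pos.2 hpos
      obtain ⟨i, hi⟩ : ∃ i : ℕ, ⌈t / δ⌉₊ = i + 1 := ⟨⌈t / δ⌉₊ - 1, by omega⟩
      have ha : (i : ℝ) * δ < t := by
        have : (i : ℝ) < t / δ := by
          have h := Nat.ceil_lt_add_one hpos.le
          rw [hi] at h
          push_cast at h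
          linarith
        exact (lt_div_iff₀ hδ').1 this
      have hb : t ≤ ((i : ℝ) + 1) * δ := by
        have h := Nat.le_ceil (t / δ)
        rw [hi] at h
        push_cast at h
        exact (div_le_iff₀ hδ').1 h
      have hiM : i < M + 1 := by
        have h : (i : ℝ) * δ < (M + 1) * δ := by
          have : ((M : ℝ) + 1) * δ = K := by
            rw [hδd]
            field_simp
          rw [this]
          exact lt_of_lt_of_le ha h1
        have := lt_of_mul_lt_mul_right h hδ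
        exact_mod_cast this
      simp only [Set.mem_iUnion]
      refine ⟨i, Finset.mem_range.2 hiM, ?_, ?_⟩
      · exact ne_zero_of_mem hC (by positivity) h2 ha hb
      · exact ne_zero_of_mem hC (by positivity) h3 ha hb
    refine (measure_mono hsub).trans ((measure_biUnion_finset_le _ _).trans ?_)
    have hcell : ∀ i ∈ Finset.range (M + 1), P (count C x (i * δ) ((i + 1) * δ) ⁻¹' {0}ᶜ ∩
          count C y (i * δ) ((i + 1) * δ) ⁻¹' {0}ᶜ) ≤ ENNReal.ofReal (δ ^ 2) := by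
      intro i _
      have h := pair_cell hC hxy (a := i * δ) (b := (i + 1) * δ) (by positivity)
        (by nlinarith)
      have h3 : ((i : ℝ) + 1) * δ - i * δ = δ := by ring
      rwa [h3] at h
    refine (Finset.sum_le_sum hcell).trans_eq ?_
    rw [Finset.sum_const, Finset.card_range, nsmul_eq_mul, ← ENNReal.ofReal_natCast,
      ← ENNReal.ofReal_mul (by positivity)]
    congr 1
    rw [hδd]
    push_cast
    field_simp
  have hlim : Tendsto (fun M : ℕ => ENNReal.ofReal ((K : ℝ) ^ 2 / ((M : ℝ) + 1))) atTop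
      (𝓝 0) := by
    have h1 : Tendsto (fun M : ℕ => (K : ℝ) ^ 2 / ((M : ℝ) + 1)) atTop (𝓝 0) := by
      have h2 := (tendsto_one_div_add_atTop_nhds_zero_nat (𝕜 := ℝ)).const_mul ((K : ℝ) ^ 2)
      rw [mul_zero] at h2
      refine h2.congr fun M => ?_
      ring
    have := ENNReal.tendsto_ofReal h1
    rwa [ENNReal.ofReal_zero] at this
  exact le_antisymm (ge_of_tendsto' hlim key) bot_le

theorem free_aux (hC : IsPoissonClocks P C) (s : ℕ → ℤ) (hs : Function.Injective s) (n : ℕ) :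
    P {ω | ∀ i, C (s i) ω ∩ Set.Ioc 0 (n : ℝ) ≠ ∅} = 0 := by
  have key : ∀ M : ℕ, P {ω | ∀ i, C (s i) ω ∩ Set.Ioc 0 (n : ℝ) ≠ ∅} ≤
      (ENNReal.ofReal (1 - Real.exp (-((n : ℝ) - 0)))) ^ M := by
    intro M
    have hind := hC.indep M (fun i => s i) (fun _ => 0) (fun _ => (n : ℝ)) (fun _ => le_rfl) (by
      intro i j hij hx
      exact absurd (Fin.ext (hs hx)) hij)
    have hsub : {ω | ∀ i, C (s i) ω ∩ Set.Ioc 0 (n : ℝ) ≠ ∅} ⊆
        ⋂ j : Fin M, count C (s j) 0 n ⁻¹' {0}ᶜ := by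
      intro ω hω
      rw [Set.mem_iInter]
      intro j
      obtain ⟨t, h1, h2, h3⟩ := Set.nonempty_iff_ne_empty.2 (hω j)
      exact ne_zero_of_mem hC le_rfl h1 h2 h3
    refine (measure_mono hsub).trans ?_
    rw [hind.meas_iInter fun j => ⟨_, (MeasurableSet.singleton 0).compl, rfl⟩]
    have h2 : ∀ j : Fin M, P (count C (s j) 0 n ⁻¹' {0}ᶜ) =
        ENNReal.ofReal (1 - Real.exp (-((n : ℝ) - 0))) := fun j =>
      prob_pos hC (s j) le_rfl (Nat.cast_nonneg n)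
    rw [Finset.prod_congr rfl fun j _ => h2 j, Finset.prod_const, Finset.card_univ,
      Fintype.card_fin]
  have hlt : ENNReal.ofReal (1 - Real.exp (-((n : ℝ) - 0))) < 1 := by
    rw [← ENNReal.ofReal_one]
    refine (ENNReal.ofReal_lt_ofReal_iff one_pos).2 ?_
    have := Real.exp_pos (-((n : ℝ) - 0))
    linarith
  exact le_antisymm (ge_of_tendsto' (ENNReal.tendsto_pow_atTop_nhds_zero_of_lt_one hlt) key)
    bot_le

end

end Pool.BDep.CN80

namespace Pool.BDep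

open CN80 in
theorem stmt_ClockNice : Stmt_ClockNice := by
  intro Ω mΩ P _ C hC
  have h1 : ∀ᵐ ω ∂P, ∀ x y : ℤ, x ≠ y → ∀ K : ℕ,
      ω ∉ {ω | ∃ t : ℝ, 0 < t ∧ t ≤ K ∧ t ∈ C x ω ∧ t ∈ C y ω} := by
    rw [ae_all_iff]
    intro x
    rw [ae_all_iff]
    intro y
    by_cases hxy : x = y
    · exact Eventually.of_forall fun ω h => absurd hxy h
    · have : ∀ᵐ ω ∂P, ∀ K : ℕ, ω ∉ {ω | ∃ t : ℝ, 0 < t ∧ t ≤ K ∧ t ∈ C x ω ∧ t ∈ C y ω} := by
        rw [ae_all_iff]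
        intro K
        exact measure_eq_zero_iff_ae_notMem.1 (distinct_aux hC hxy K)
      filter_upwards [this] with ω hω _
      exact hω
  have h2 : ∀ᵐ ω ∂P, ∀ n N : ℕ,
      ω ∉ {ω | ∀ i : ℕ, C ((N : ℤ) + 1 + i) ω ∩ Set.Ioc 0 (n : ℝ) ≠ ∅} := by
    rw [ae_all_iff]
    intro n
    rw [ae_all_iff]
    intro N
    refine measure_eq_zero_iff_ae_notMem.1 (free_aux hC (fun i : ℕ => (N : ℤ) + 1 + i) ?_ n)
    intro i j hij
    have : (N : ℤ) + 1 + i = (N : ℤ) + 1 + j := hij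
    omega
  have h3 : ∀ᵐ ω ∂P, ∀ n N : ℕ,
      ω ∉ {ω | ∀ i : ℕ, C (-((N : ℤ) + 1 + i)) ω ∩ Set.Ioc 0 (n : ℝ) ≠ ∅} := by
    rw [ae_all_iff]
    intro n
    rw [ae_all_iff]
    intro N
    refine measure_eq_zero_iff_ae_notMem.1 (free_aux hC (fun i : ℕ => -((N : ℤ) + 1 + i)) ?_ n)
    intro i j hij
    have : -((N : ℤ) + 1 + i) = -((N : ℤ) + 1 + j) := hij
    omega
  filter_upwards [h1, h2, h3] with ω g1 g2 g3
  refine ⟨fun x t => hC.finite x ω t, ?_, ?_⟩
  · intro x y t hxy ht hx hy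
    obtain ⟨K, hK⟩ := exists_nat_ge t
    exact g1 x y hxy K ⟨t, ht, hK, hx, hy⟩
  · intro t N
    obtain ⟨n, hn⟩ := exists_nat_ge t
    constructor
    · have := g3 n N
      simp only [not_forall, not_not] at this
      obtain ⟨i, hi⟩ := this
      refine ⟨-((N : ℤ) + 1 + i), by omega, ?_⟩
      rw [Set.eq_empty_iff_forall_notMem] at hi ⊢
      exact fun τ hτ => hi τ ⟨hτ.1, hτ.2.1, hτ.2.2.trans hn⟩
    · have := g2 n N
      simp only [not_forall, not_not] at this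
      obtain ⟨i, hi⟩ := this
      refine ⟨(N : ℤ) + 1 + i, by omega, ?_⟩
      rw [Set.eq_empty_iff_forall_notMem] at hi ⊢
      exact fun τ hτ => hi τ ⟨hτ.1, hτ.2.1, hτ.2.2.trans hn⟩

end Pool.BDep
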