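import Pool.Agent.Work.MP_c264fd_pr_helper48.BoxMain

/-!
# The symmetrised law and the tilted law (box form)
-/

open MeasureTheory ProbabilityTheory Filter Topology
open scoped ENNReal NNReal

namespace Pool.BDep

/-- inverse shift -/
def unshift (h : Config) : Config := fun x => h (x - 1) - h (-1)

theorem measurable_unshift : Measurable unshift :=
  measurable_pi_iff.2 fun x => (measurable_pi_apply (x - 1)).sub (measurable_pi_apply (-1))

theorem map_unshift {μ : Measure Config} (h0 : ∀ᵐ h ∂μ, h 0 = 0) (hs : μ.map shift = μ) :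
    μ.map unshift = μ := by
  conv_lhs => rw [← hs]
  rw [Measure.map_map measurable_unshift measurable_shift]
  have : (unshift ∘ shift) =ᵐ[μ] id := by
    filter_upwards [h0] with h hh
    funext x
    simp only [Function.comp, unshift, shift, id]
    have e1 : x - 1 + 1 = x := by ring
    have e2 : (-1 : ℤ) + 1 = 0 := by ring
    rw [e1, e2, hh]
    ring
  rw [Measure.map_congr this, Measure.map_id]

theorem shift_refl (h : Config) : shift (refl h) = refl (unshift h) := by
  funext x
  simp only [shift, refl, unshift]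
  have e : -(x + 1) = -x - 1 := by ring
  rw [e]

theorem refl_shift_inv {μ : Measure Config} (h0 : ∀ᵐ h ∂μ, h 0 = 0) (hs : μ.map shift = μ) :
    (μ.map refl).map shift = μ.map refl := by
  rw [Measure.map_map measurable_shift measurable_refl]
  have : shift ∘ refl = refl ∘ unshift := by
    funext h; exact shift_refl h
  rw [this, ← Measure.map_map measurable_refl measurable_unshift, map_unshift h0 hs]

theorem refl_zero {μ : Measure Config} (h0 : ∀ᵐ h ∂μ, h 0 = 0) :
    ∀ᵐ h ∂(μ.map refl), h 0 = 0 := by
  have hms : MeasurableSet {h : Config | h 0 = 0} :=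
    (measurableSet_singleton (0 : ℤ)).preimage (measurable_pi_apply (0 : ℤ))
  rw [ae_map_iff measurable_refl.aemeasurable hms]
  filter_upwards [h0] with h hh
  simpa [refl] using hh

theorem measurable_val (x : ℤ) : Measurable (fun h : Config => (h x : ℝ)) :=
  (measurable_from_top (f := fun n : ℤ => (n : ℝ))).comp (measurable_pi_apply x)

/-- all heights are integrable -/
theorem integrable_all {μ : Measure Config} (h0 : ∀ᵐ h ∂μ, h 0 = 0) (hs : μ.map shift = μ)
    (h1 : Integrable (fun h : Config => (h 1 : ℝ)) μ) (x : ℤ) :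
    Integrable (fun h : Config => (h x : ℝ)) μ := by
  have step : ∀ y : ℤ, Integrable (fun h : Config => (h y : ℝ)) μ →
      Integrable (fun h : Config => (h (y + 1) : ℝ)) μ := by
    intro y hy
    have h2 : Integrable (fun h : Config => (shift h y : ℝ)) μ := by
      have h3 : Integrable (fun h : Config => (h y : ℝ)) (μ.map shift) := by rw [hs]; exact hy
      exact h3.comp_measurable measurable_shift
    have h4 := h2.add h1
    refine h4.congr (ae_of_all _ fun h => ?_)
    simp only [Pi.add_apply, shift]
    push_cast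
    ring
  have stepd : ∀ y : ℤ, Integrable (fun h : Config => (h y : ℝ)) μ →
      Integrable (fun h : Config => (h (y - 1) : ℝ)) μ := by
    intro y hy
    have hu := map_unshift h0 hs
    have hm1 : Integrable (fun h : Config => (h (-1) : ℝ)) μ := by
      have h3 : Integrable (fun h : Config => (unshift h 1 : ℝ)) μ := by
        have h4 : Integrable (fun h : Config => (h 1 : ℝ)) (μ.map unshift) := by rw [hu]; exact h1
        exact h4.comp_measurable measurable_unshift
      refine (h3.neg).congr ?_
      filter_upwards [h0] with h hh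
      simp only [Pi.neg_apply, unshift]
      have e : (1 : ℤ) - 1 = 0 := by ring
      rw [e, hh]
      push_cast
      ring
    have h2 : Integrable (fun h : Config => (unshift h y : ℝ)) μ := by
      have h3 : Integrable (fun h : Config => (h y : ℝ)) (μ.map unshift) := by rw [hu]; exact hy
      exact h3.comp_measurable measurable_unshift
    have h4 := h2.add hm1
    refine h4.congr (ae_of_all _ fun h => ?_)
    simp only [Pi.add_apply, unshift]
    push_cast
    ring
  have hz : Integrable (fun h : Config => (h 0 : ℝ)) μ := by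
    refine (integrable_zero Config ℝ μ).congr ?_
    filter_upwards [h0] with h hh
    simp [hh]
  induction x using Int.induction_on with
  | zero => exact hz
  | succ n ih => exact step _ ih
  | pred n ih => exact stepd _ ih

/-- Box form of the properties of a stationary law. -/
structure NiceBox (μ : Measure Config) : Prop where
  prob : IsProbabilityMeasure μ
  zero : ∀ᵐ h ∂μ, h 0 = 0
  integrable : ∀ x, Integrable (fun h : Config => (h x : ℝ)) μ
  shift : μ.map shift = μ
  inv : BoxInvariant μ

theorem GoodLimit.niceBox {μ : Measure Config} (h : GoodLimit μ) : NiceBox μ :=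
  ⟨h.prob, h.zero, integrable_all h.zero h.shift h.integrable, h.shift, h.inv⟩

theorem NiceBox.map_refl (hDet : Stmt_Det) (hProb : Stmt_RhoProb) (hNeg : Stmt_RhoNeg)
    {μ : Measure Config} (h : NiceBox μ) : NiceBox (μ.map refl) := by
  have := h.prob
  refine ⟨Measure.isProbabilityMeasure_map measurable_refl.aemeasurable, refl_zero h.zero, ?_,
    refl_shift_inv h.zero h.shift, h.inv.map_refl hDet hProb hNeg⟩
  intro x
  rw [integrable_map_measure (measurable_val x).aestronglyMeasurable measurable_refl.aemeasurable]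
  exact h.integrable (-x)

theorem NiceBox.mix (hProb : Stmt_RhoProb) {μ ν : Measure Config} (h : NiceBox μ)
    (h' : NiceBox ν) : NiceBox (Pool.BDep.mix μ ν) := by
  have := h.prob
  have := h'.prob
  refine ⟨mix_prob _ _, ?_, ?_, ?_, h.inv.mix hProb h'.inv⟩
  · rw [Pool.BDep.mix, ae_add_measure_iff]
    exact ⟨Measure.ae_smul_measure h.zero _, Measure.ae_smul_measure h'.zero _⟩
  · intro x
    rw [Pool.BDep.mix]
    exact ((h.integrable x).smul_measure (by simp)).add_measure
      ((h'.integrable x).smul_measure (by simp))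
  · rw [Pool.BDep.mix, Measure.map_add _ _ measurable_shift, Measure.map_smul, Measure.map_smul,
      h.shift, h'.shift]

theorem mix_comm {α : Type*} [MeasurableSpace α] (μ ν : Measure α) : mix μ ν = mix ν μ := by
  rw [mix, mix, add_comm]

theorem mix_refl (μ : Measure Config) : (mix μ (μ.map refl)).map refl = mix μ (μ.map refl) := by
  have e : (μ.map refl).map refl = μ := by
    rw [Measure.map_map measurable_refl measurable_refl]
    have : refl ∘ refl = id := by funext h; exact refl_refl h
    rw [this, Measure.map_id]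
  conv_rhs => rw [mix_comm]
  rw [mix, Measure.map_add _ _ measurable_refl, Measure.map_smul, Measure.map_smul, e, mix]

/-- scaling limit of the symmetrised law -/
theorem mix_scales {μ : Measure Config} (hμ : NiceBox μ) (hsl : ∫ h, (h 1 : ℝ) ∂μ ≠ 0)
    (hErg : Stmt_Ergodic) :
    ∃ ν : Measure ℝ, IsProbabilityMeasure ν ∧ ν ≠ Measure.dirac 0 ∧
      ScalesTo (mix μ (μ.map refl)) 1 ν := by
  have := hμ.prob
  obtain ⟨ν, hν, hνi, hνm, hconv⟩ := hErg μ hμ.prob hμ.zero hμ.shift (hμ.integrable 1)
  have hrp : IsProbabilityMeasure (μ.map refl) :=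
    Measure.isProbabilityMeasure_map measurable_refl.aemeasurable
  have hnp : IsProbabilityMeasure (ν.map (fun y => -y)) :=
    Measure.isProbabilityMeasure_map measurable_neg.aemeasurable
  refine ⟨mix ν (ν.map (fun y => -y)), mix_prob _ _, ?_, ?_⟩
  · intro hcon
    apply hsl
    rw [← hνm]
    have h0 : mix ν (ν.map (fun y => -y)) ({0}ᶜ : Set ℝ) = 0 := by
      rw [hcon, Measure.dirac_apply' _ (measurableSet_singleton _).compl]
      simp
    have h1 : ν ({0}ᶜ : Set ℝ) = 0 := by
      simp only [mix, Measure.add_apply, Measure.smul_apply, smul_eq_mul, add_eq_zero,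
        mul_eq_zero] at h0
      rcases h0.1 with h | h
      · simp at h
      · exact h
    have h2 : (fun y : ℝ => y) =ᵐ[ν] fun _ => (0 : ℝ) := by
      rw [Filter.EventuallyEq, ae_iff]
      exact h1
    rw [integral_congr_ae h2]
    simp
  · intro f
    have hfm : ∀ x : ℤ, Measurable (fun h : Config => f ((h x : ℝ) / |(x : ℝ)| ^ (1 : ℝ))) :=
      fun x => f.continuous.measurable.comp ((measurable_coord x).div_const _)
    have hfi : ∀ (x : ℤ) (P : Measure Config) [IsProbabilityMeasure P],
        Integrable (fun h : Config => f ((h x : ℝ) / |(x : ℝ)| ^ (1 : ℝ))) P := by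
      intro x P _
      exact integrable_of_bddConf _ (hfm x) ‖f‖ fun h => by
        simpa using f.norm_coe_le_norm ((h x : ℝ) / |(x : ℝ)| ^ (1 : ℝ))
    let fn : BoundedContinuousFunction ℝ ℝ := f.compContinuous ⟨fun y => -y, continuous_neg⟩
    have hfn : ∀ y, fn y = f (-y) := fun y => rfl
    have hA := hconv f
    have hB := hconv fn
    have hlim : ∫ y, f y ∂(mix ν (ν.map (fun y => -y))) = 2⁻¹ * ∫ y, f y ∂ν + 2⁻¹ * ∫ y, fn y ∂ν := by
      rw [integral_mix]
      · rw [integral_map measurable_neg.aemeasurable f.continuous.measurable.aestronglyMeasurable]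
        rfl
      · exact f.integrable _
      · exact f.integrable _
    have hneg : ∀ n : ℕ, ∫ h : Config, f ((h (-(n : ℤ)) : ℝ) / n) ∂μ
        = ∫ h : Config, fn ((h n : ℝ) / n) ∂μ := by
      intro n
      have hmp : MeasurePreserving (shift^[n]) μ μ :=
        MeasurePreserving.iterate ⟨measurable_shift, hμ.shift⟩ n
      have hms : Measurable (fun h : Config => f ((h (-(n : ℤ)) : ℝ) / n)) :=
        f.continuous.measurable.comp ((measurable_coord _).div_const _)
      calc ∫ h : Config, f ((h (-(n : ℤ)) : ℝ) / n) ∂μ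
          = ∫ h : Config, f ((h (-(n : ℤ)) : ℝ) / n) ∂(μ.map (shift^[n])) := by rw [hmp.map_eq]
        _ = ∫ h : Config, f (((shift^[n] h) (-(n : ℤ)) : ℝ) / n) ∂μ := by
            rw [integral_map hmp.measurable.aemeasurable hms.aestronglyMeasurable]
        _ = ∫ h : Config, fn ((h n : ℝ) / n) ∂μ := by
            refine integral_congr_ae ?_
            filter_upwards [hμ.zero] with h hh
            rw [shift_iterate n h _ hh, hfn]
            congr 1
            have e : -(n : ℤ) + n = 0 := by ring
            rw [e, hh]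
            push_cast
            ring
    have hval : ∀ x : ℤ, ∫ h : Config, f ((h x : ℝ) / |(x : ℝ)| ^ (1 : ℝ)) ∂(mix μ (μ.map refl))
        = 2⁻¹ * ∫ h : Config, f ((h x : ℝ) / |(x : ℝ)|) ∂μ
          + 2⁻¹ * ∫ h : Config, f ((h (-x) : ℝ) / |(x : ℝ)|) ∂μ := by
      intro x
      rw [integral_mix _ _ _ (hfi x _) (hfi x _),
        integral_map measurable_refl.aemeasurable (hfm x).aestronglyMeasurable]
      simp only [Real.rpow_one]
      rfl
    have hpos : ∀ n : ℕ, ∫ h : Config, f ((h (n : ℤ) : ℝ) / |((n : ℤ) : ℝ)| ^ (1 : ℝ))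
          ∂(mix μ (μ.map refl))
        = 2⁻¹ * ∫ h : Config, f ((h n : ℝ) / n) ∂μ + 2⁻¹ * ∫ h : Config, fn ((h n : ℝ) / n) ∂μ := by
      intro n
      rw [hval, ← hneg]
      simp
    have hposn : ∀ n : ℕ, ∫ h : Config, f ((h (-(n : ℤ)) : ℝ) / |((-(n : ℤ) : ℤ) : ℝ)| ^ (1 : ℝ))
          ∂(mix μ (μ.map refl))
        = 2⁻¹ * ∫ h : Config, f ((h n : ℝ) / n) ∂μ + 2⁻¹ * ∫ h : Config, fn ((h n : ℝ) / n) ∂μ := by
      intro n
      rw [hval, ← hneg, neg_neg]
      simp [add_comm]
    have hT : Tendsto (fun n : ℕ => 2⁻¹ * ∫ h : Config, f ((h n : ℝ) / n) ∂μ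
        + 2⁻¹ * ∫ h : Config, fn ((h n : ℝ) / n) ∂μ) atTop
        (𝓝 (∫ y, f y ∂(mix ν (ν.map (fun y => -y))))) := by
      rw [hlim]
      exact (hA.const_mul _).add (hB.const_mul _)
    rw [Int.cofinite_eq, tendsto_sup]
    have hcast : map (Nat.cast : ℕ → ℤ) atTop = atTop := Nat.map_cast_int_atTop
    constructor
    · rw [← Filter.map_neg_atTop, tendsto_map'_iff, ← hcast, tendsto_map'_iff]
      exact hT.congr fun n => (hposn n).symm
    · rw [← hcast, tendsto_map'_iff]
      exact hT.congr fun n => (hpos n).symm

end Pool.BDep
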