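import Mathlib

/-!
# Ballistic deposition on `ℤ`: definitions used in the final statement

`Config` : height functions `ℤ → ℤ`.
`IsPoissonClocks P C` : the random sets `C x` (`x : ℤ`) of ring times are independent rate one
Poisson clocks.
`IsBDTrajectory c H` : the path `t ↦ H t` follows the ballistic deposition rule with ring times `c`.
`IsBallisticDeposition P C g H` : `H` is ballistic deposition driven by the clocks `C` and
started from the random configuration `g`, which is independent of the clocks.
`IsStationary μ` : `μ` is invariant for the recentred process `h(t,·) - h(t,0)`.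
-/

open MeasureTheory ProbabilityTheory Filter Topology

namespace Pool.BDep

/-- Height functions on the one-dimensional lattice (with the product σ-algebra). -/
abbrev Config := ℤ → ℤ

/-- The recentred configuration `x ↦ h x - h 0`. -/
def recenter (h : Config) : Config := fun x => h x - h 0

/-- Number of rings of the clock at `x` during `(a, b]`. -/
noncomputable def count {Ω : Type} (C : ℤ → Ω → Set ℝ) (x : ℤ) (a b : ℝ) (ω : Ω) : ℕ :=
  (C x ω ∩ Set.Ioc a b).ncard

/-- The random sets `C x`, `x : ℤ`, are independent Poisson clocks of rate `1`: numbers of rings in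
`(a, b]` are Poisson of parameter `b - a`, and the numbers of rings in finitely many pairwise
disjoint space-time windows `{x i} × (a i, b i]` are independent. -/
structure IsPoissonClocks {Ω : Type} [MeasurableSpace Ω] (P : Measure Ω)
    (C : ℤ → Ω → Set ℝ) : Prop where
  pos : ∀ x ω, C x ω ⊆ Set.Ioi 0
  finite : ∀ x ω (t : ℝ), (C x ω ∩ Set.Ioc 0 t).Finite
  measurable : ∀ x (a b : ℝ), Measurable (count C x a b)
  poisson : ∀ x (a b : ℝ), 0 ≤ a → a ≤ b →
    P.map (count C x a b) = poissonMeasure (b - a).toNNReal
  indep : ∀ (k : ℕ) (x : Fin k → ℤ) (a b : Fin k → ℝ), (∀ i, 0 ≤ a i) →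
    (∀ i j, i ≠ j → x i = x j → Disjoint (Set.Ioc (a i) (b i)) (Set.Ioc (a j) (b j))) →
    iIndepFun (fun i => count C (x i) (a i) (b i)) P

/-- `H` is a ballistic deposition path for the ring times `c`: the height at `x` does not change
between rings of `x`, and at a ring of `x` at time `t` it becomes
`max (h(t-,x-1), h(t-,x+1), h(t-,x) + 1)`. -/
def IsBDTrajectory (c : ℤ → Set ℝ) (H : ℝ → Config) : Prop :=
  (∀ x (a b : ℝ), 0 ≤ a → a ≤ b → c x ∩ Set.Ioc a b = ∅ → H b x = H a x) ∧
  (∀ x (t : ℝ), 0 < t → t ∈ c x → ∃ ε > 0, ε < t ∧ ∀ s ∈ Set.Ioo (t - ε) t,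
    H t x = max (max (H s (x - 1)) (H s (x + 1))) (H s x + 1))

/-- `H` is ballistic deposition driven by the independent Poisson clocks `C`, started from the
random configuration `g` which is independent of the clocks. -/
structure IsBallisticDeposition {Ω : Type} [MeasurableSpace Ω] (P : Measure Ω)
    (C : ℤ → Ω → Set ℝ) (g : Ω → Config) (H : ℝ → Ω → Config) : Prop where
  clocks : IsPoissonClocks P C
  measurable : Measurable g
  indep : Indep (MeasurableSpace.comap g inferInstance)
    (⨆ (x : ℤ) (a : ℝ) (b : ℝ), MeasurableSpace.comap (count C x a b) inferInstance) P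
  init : ∀ᵐ ω ∂P, H 0 ω = g ω
  dyn : ∀ᵐ ω ∂P, IsBDTrajectory (fun x => C x ω) (fun t => H t ω)

/-- `μ` is a stationary distribution of the recentred ballistic deposition process: whenever the
process is started from a random configuration of law `μ`, independent of the clocks, the
recentred configuration has law `μ` at every later time. -/
def IsStationary (μ : Measure Config) : Prop :=
  IsProbabilityMeasure μ ∧
  ∀ (Ω : Type) (_ : MeasurableSpace Ω) (P : Measure Ω) (_ : IsProbabilityMeasure P)
    (C : ℤ → Ω → Set ℝ) (g : Ω → Config) (H : ℝ → Ω → Config),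
    IsBallisticDeposition P C g H → P.map g = μ →
    ∀ t : ℝ, 0 ≤ t → AEMeasurable (H t) P ∧ P.map (fun ω => recenter (H t ω)) = μ

/-- The process exists from every initial law. -/
def ProcessExists : Prop :=
  ∀ μ : Measure Config, IsProbabilityMeasure μ →
    ∃ (Ω : Type) (_ : MeasurableSpace Ω) (P : Measure Ω) (_ : IsProbabilityMeasure P)
      (C : ℤ → Ω → Set ℝ) (g : Ω → Config) (H : ℝ → Ω → Config),
      IsBallisticDeposition P C g H ∧ P.map g = μ

/-- `μ` is a stationary distribution with the properties which are known for the classical one: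
it is carried by configurations with `g(0) = 0`, all `E |g(x)|` are finite, and the gradient field
is translation invariant (`x ↦ g(x + 1) - g(1)` has the law of `g`). -/
structure IsNiceStationary (μ : Measure Config) : Prop where
  stationary : IsStationary μ
  zero : ∀ᵐ g ∂μ, g 0 = 0
  integrable : ∀ x, Integrable (fun g : Config => (g x : ℝ)) μ
  gradient : μ.map (fun (g : Config) (x : ℤ) => g (x + 1) - g 1) = μ

/-- `g(x)/|x|^α` converges in law to `ν` as `|x| → ∞`, when `g` has law `μ`. -/
def ScalesTo (μ : Measure Config) (α : ℝ) (ν : Measure ℝ) : Prop :=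
  ∀ f : BoundedContinuousFunction ℝ ℝ,
    Tendsto (fun x : ℤ => ∫ g, f ((g x : ℝ) / |(x : ℝ)| ^ α) ∂μ) cofinite (𝓝 (∫ y, f y ∂ν))

/-- The symmetrisation `(μ + law of x ↦ g(-x)) / 2` of a law `μ`. -/
noncomputable def symmetrised (μ : Measure Config) : Measure Config :=
  (2 : ENNReal)⁻¹ • μ + (2 : ENNReal)⁻¹ • μ.map (fun (g : Config) (x : ℤ) => g (-x))

/-- Q1 for `d = 1` has a positive answer. The process exists from every initial law. There is a
stationary distribution `μ₁` (finite means, translation invariant gradients) with strictly positive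
mean slope, its symmetrisation is again a stationary distribution (with the same properties,
moreover invariant under the reflection `x ↦ -x`), and under the symmetrisation `g(x)/|x|^α` with
`α = 1` converges in law as `|x| → ∞` to a probability measure `ν ≠ δ₀` on `ℝ`. -/
def MainStatement : Prop :=
  ProcessExists ∧
  ∃ μ₁ : Measure Config, IsNiceStationary μ₁ ∧ 0 < ∫ g, (g 1 : ℝ) ∂μ₁ ∧
    IsNiceStationary (symmetrised μ₁) ∧
    (symmetrised μ₁).map (fun (g : Config) (x : ℤ) => g (-x)) = symmetrised μ₁ ∧
    ∃ ν : Measure ℝ, IsProbabilityMeasure ν ∧ ν ≠ Measure.dirac 0 ∧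
      ScalesTo (symmetrised μ₁) 1 ν

end Pool.BDep
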