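import Pool.Agent.Work.MP_c264fd_pr_h14.Interface

namespace Pool.BDep

theorem dual_ring_self (x : ℤ) (h : Config) :
    ring x h x = max (max (h (x - 1)) (h (x + 1))) (h x + 1) := by
  simp [ring]

theorem dual_ring_of_ne {x y : ℤ} (hy : y ≠ x) (h : Config) : ring x h y = h y := by
  simp [ring, hy]

theorem dual_le : ∀ l (h : Config) y (k : ℤ), dual l y = k → h y + k ≤ run l h 0
  | [], h, y, k, hk => by
      simp only [dual] at hk
      split_ifs at hk with h0
      · subst h0
        have : k = 0 := by exact_mod_cast hk.symm
        simp [run, this]
      · exact absurd hk (by simp)
  | x :: l, h, y, k, hk => by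
      have ih := dual_le l
      simp only [dual, dring] at hk
      simp only [run]
      by_cases hyx : y = x
      · subst hyx
        simp only [if_true] at hk
        cases hd : dual l y with
        | bot => rw [hd] at hk; exact absurd hk (by simp)
        | coe k' =>
          rw [hd] at hk
          have hk' : k' + 1 = k := by exact_mod_cast hk
          have := ih (ring y h) y k' hd
          have h2 : h y + 1 ≤ ring y h y := by rw [dual_ring_self]; exact le_max_right _ _
          omega
      · rw [if_neg hyx] at hk
        by_cases hy2 : y = x - 1 ∨ y = x + 1
        · rw [if_pos hy2] at hk
          rcases max_choice (dual l y) (dual l x) with hm | hm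
          · rw [hm] at hk
            have := ih (ring x h) y k hk
            rwa [dual_ring_of_ne hyx] at this
          · rw [hm] at hk
            have := ih (ring x h) x k hk
            have h2 : h y ≤ ring x h x := by
              rw [dual_ring_self]
              rcases hy2 with rfl | rfl
              · exact le_max_of_le_left (le_max_left _ _)
              · exact le_max_of_le_left (le_max_right _ _)
            omega
        · rw [if_neg hy2] at hk
          have := ih (ring x h) y k hk
          rwa [dual_ring_of_ne hyx] at this

theorem dual_attain : ∀ l (h : Config), ∃ y, ∃ k : ℤ, dual l y = k ∧ run l h 0 = h y + k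
  | [], h => ⟨0, 0, by simp [dual], by simp [run]⟩
  | x :: l, h => by
      obtain ⟨y, k, hk, hr⟩ := dual_attain l (ring x h)
      simp only [run]
      by_cases hyx : y = x
      · subst hyx
        rw [dual_ring_self] at hr
        rcases max_choice (max (h (y - 1)) (h (y + 1))) (h y + 1) with hm | hm
        · rw [hm] at hr
          rcases max_choice (h (y - 1)) (h (y + 1)) with hm2 | hm2
          · rw [hm2] at hr
            -- start at y - 1
            have hle : (k : WithBot ℤ) ≤ dual (y :: l) (y - 1) := by
              simp only [dual, dring]
              rw [if_neg (by omega), if_pos (Or.inl trivial), hk]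
              exact le_max_right _ _
            cases hd : dual (y :: l) (y - 1) with
            | bot => rw [hd] at hle; exact absurd hle (by simp)
            | coe k' =>
              rw [hd] at hle
              have hle' : k ≤ k' := by exact_mod_cast hle
              have := dual_le (y :: l) h (y - 1) k' hd
              simp only [run] at this
              exact ⟨y - 1, k', hd, by omega⟩
          · rw [hm2] at hr
            have hle : (k : WithBot ℤ) ≤ dual (y :: l) (y + 1) := by
              simp only [dual, dring]
              rw [if_neg (by omega), if_pos (Or.inr trivial), hk]
              exact le_max_right _ _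
            cases hd : dual (y :: l) (y + 1) with
            | bot => rw [hd] at hle; exact absurd hle (by simp)
            | coe k' =>
              rw [hd] at hle
              have hle' : k ≤ k' := by exact_mod_cast hle
              have := dual_le (y :: l) h (y + 1) k' hd
              simp only [run] at this
              exact ⟨y + 1, k', hd, by omega⟩
        · rw [hm] at hr
          refine ⟨y, k + 1, ?_, by omega⟩
          simp only [dual, dring, if_true]
          rw [hk]
          push_cast
          rfl
      · rw [dual_ring_of_ne hyx] at hr
        have hle : (k : WithBot ℤ) ≤ dual (x :: l) y := by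
          simp only [dual, dring]
          rw [if_neg hyx]
          split_ifs
          · rw [← hk]; exact le_max_left _ _
          · rw [hk]
        cases hd : dual (x :: l) y with
        | bot => rw [hd] at hle; exact absurd hle (by simp)
        | coe k' =>
          rw [hd] at hle
          have hle' : k ≤ k' := by exact_mod_cast hle
          have := dual_le (x :: l) h y k' hd
          simp only [run] at this
          exact ⟨y, k', hd, by omega⟩

theorem dual_supp : ∀ l y, dual l y ≠ ⊥ → gl 0 l ≤ y ∧ y ≤ gr 0 l
  | [], y, h => by
      simp only [dual] at h
      split_ifs at h with h0
      · subst h0; simp [gl, gr]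
      · exact absurd rfl h
  | x :: l, y, h => by
      have ih := dual_supp l
      simp only [dual, dring] at h
      have key : ∀ z, dual l z ≠ ⊥ → gl 0 l ≤ z ∧ z ≤ gr 0 l := ih
      have hl : gl 0 (x :: l) ≤ gl 0 l ∧ (x = gl 0 l → gl 0 (x :: l) = gl 0 l - 1) := by
        simp only [gl]; split_ifs with h1
        · exact ⟨by omega, fun _ => rfl⟩
        · exact ⟨le_rfl, fun h2 => absurd h2 h1⟩
      have hr : gr 0 l ≤ gr 0 (x :: l) ∧ (x = gr 0 l → gr 0 (x :: l) = gr 0 l + 1) := by
        simp only [gr]; split_ifs with h1
        · exact ⟨by omega, fun _ => rfl⟩
        · exact ⟨le_rfl, fun h2 => absurd h2 h1⟩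
      by_cases hyx : y = x
      · subst hyx
        rw [if_pos rfl] at h
        have hne : dual l y ≠ ⊥ := by
          intro hb; rw [hb] at h; exact h (by simp)
        have := key y hne
        omega
      · rw [if_neg hyx] at h
        by_cases hy2 : y = x - 1 ∨ y = x + 1
        · rw [if_pos hy2] at h
          by_cases hx : dual l x = ⊥
          · rw [hx] at h
            have hne : dual l y ≠ ⊥ := by
              intro hb; rw [hb] at h; exact h (by simp)
            have := key y hne
            omega
          · have := key x hx
            rcases eq_or_ne x (gl 0 l) with h3 | h3 <;> rcases eq_or_ne x (gr 0 l) with h4 | h4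
            · have h5 := hl.2 h3; have h6 := hr.2 h4; omega
            · have h5 := hl.2 h3; omega
            · have h6 := hr.2 h4; omega
            · omega
        · rw [if_neg hy2] at h
          have := key y h
          omega

theorem stmt_Dual : Stmt_Dual := ⟨dual_le, dual_attain, dual_supp⟩

end Pool.BDep
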