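import Mathlib
import Pool.Agent.Work.MP_c264fd_pr_h14.Interface

/-!
# Block Ergodic: mean ergodic theorem in `L¹`
-/

open MeasureTheory ProbabilityTheory Filter Topology
open scoped ENNReal NNReal

namespace Pool.BDep

namespace Erg

theorem measurable_shift : Measurable shift := by
  rw [measurable_pi_iff]
  intro x
  exact (measurable_pi_apply (x + 1)).sub (measurable_pi_apply 1)

theorem shift_iterate (i : ℕ) (h : Config) (h0 : h 0 = 0) (x : ℤ) :
    shift^[i] h x = h (x + i) - h i := by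
  induction i generalizing x with
  | zero => simp [h0]
  | succ i ih =>
    rw [Function.iterate_succ_apply']
    change shift^[i] h (x + 1) - shift^[i] h 1 = _
    rw [ih, ih]
    push_cast
    rw [show x + 1 + (i : ℤ) = x + (i + 1) by ring, show (1 : ℤ) + i = i + 1 by ring]
    ring

section general

set_option linter.unusedSectionVars false

variable {X : Type} [MeasurableSpace X] {μ : Measure X} [IsProbabilityMeasure μ] {T : X → X}

theorem memLp_avg {p : ℝ≥0∞} (hT : MeasurePreserving T μ μ) {g : X → ℝ} (hg : MemLp g p μ)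
    (n : ℕ) : MemLp (birkhoffAverage ℝ T g n) p μ := by
  have h1 : MemLp (birkhoffSum T g n) p μ := by
    have h2 : birkhoffSum T g n = fun x => ∑ k ∈ Finset.range n, (g ∘ T^[k]) x := by
      funext x
      rfl
    rw [h2]
    exact memLp_finsetSum _ fun k _ => hg.comp_measurePreserving (hT.iterate k)
  have h3 : birkhoffAverage ℝ T g n = (n : ℝ)⁻¹ • birkhoffSum T g n := by
    funext x
    rfl
  rw [h3]
  exact h1.const_smul _

theorem iter_toLp {p : ℝ≥0∞} [Fact (1 ≤ p)] (hT : MeasurePreserving T μ μ) {g : X → ℝ}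
    (hg : MemLp g p μ) (k : ℕ) :
    (Lp.compMeasurePreservingₗᵢ ℝ T hT : Lp ℝ p μ →ₗᵢ[ℝ] Lp ℝ p μ)^[k] (hg.toLp g) =
      (hg.comp_measurePreserving (hT.iterate k)).toLp (g ∘ T^[k]) := by
  induction k with
  | zero => rfl
  | succ k ih =>
    rw [Function.iterate_succ_apply', ih]
    rfl

theorem avg_toLp {p : ℝ≥0∞} [Fact (1 ≤ p)] (hT : MeasurePreserving T μ μ) {g : X → ℝ}
    (hg : MemLp g p μ) (n : ℕ) :
    birkhoffAverage ℝ (Lp.compMeasurePreservingₗᵢ ℝ T hT : Lp ℝ p μ →ₗᵢ[ℝ] Lp ℝ p μ) id n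
      (hg.toLp g) = (memLp_avg hT hg n).toLp (birkhoffAverage ℝ T g n) := by
  have hs : ∀ n : ℕ, ∃ hn : MemLp (birkhoffSum T g n) p μ,
      birkhoffSum (Lp.compMeasurePreservingₗᵢ ℝ T hT : Lp ℝ p μ →ₗᵢ[ℝ] Lp ℝ p μ) id n
        (hg.toLp g) = hn.toLp (birkhoffSum T g n) := by
    intro n
    induction n with
    | zero =>
      have h0 : birkhoffSum T g 0 = 0 := by
        funext x
        simp
      have h1 : MemLp (birkhoffSum T g 0) p μ := by
        rw [h0]
        exact MemLp.zero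
      refine ⟨h1, ?_⟩
      rw [birkhoffSum_zero]
      symm
      rw [Lp.ext_iff]
      refine h1.coeFn_toLp.trans ?_
      rw [h0]
      exact (Lp.coeFn_zero _ _ _).symm
    | succ n ih =>
      obtain ⟨hn, e⟩ := ih
      have h0 : birkhoffSum T g (n + 1) = birkhoffSum T g n + g ∘ T^[n] := by
        funext x
        rw [birkhoffSum_succ]
        rfl
      have h1 : MemLp (birkhoffSum T g (n + 1)) p μ := by
        rw [h0]
        exact hn.add (hg.comp_measurePreserving (hT.iterate n))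
      refine ⟨h1, ?_⟩
      rw [birkhoffSum_succ, e, id, iter_toLp hT hg n]
      rw [← MemLp.toLp_add]
      congr 1
      exact h0.symm
  obtain ⟨hn, e⟩ := hs n
  unfold birkhoffAverage
  rw [e]
  exact (MemLp.toLp_const_smul _ hn).symm

theorem cauchy_L2 (hT : MeasurePreserving T μ μ) {g : X → ℝ} (hg : MemLp g 2 μ) :
    CauchySeq fun n => (memLp_avg hT hg n).toLp (birkhoffAverage ℝ T g n) := by
  have h1 := ContinuousLinearMap.tendsto_birkhoffAverage_orthogonalProjection (𝕜 := ℝ)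
    (Lp.compMeasurePreservingₗᵢ ℝ T hT : Lp ℝ 2 μ →ₗᵢ[ℝ] Lp ℝ 2 μ).toContinuousLinearMap
    (LinearIsometry.norm_toContinuousLinearMap_le _) (hg.toLp g)
  have h2 := h1.cauchySeq
  have h3 : (fun n => (memLp_avg hT hg n).toLp (birkhoffAverage ℝ T g n)) =
      fun n => birkhoffAverage ℝ (Lp.compMeasurePreservingₗᵢ ℝ T hT :
        Lp ℝ 2 μ →ₗᵢ[ℝ] Lp ℝ 2 μ).toContinuousLinearMap id n (hg.toLp g) := by
    funext n
    exact (avg_toLp hT hg n).symm
  rw [h3]
  exact h2

theorem cauchy_L1_of_L2 (hT : MeasurePreserving T μ μ) {g : X → ℝ} (hg : MemLp g 2 μ)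
    (hg1 : MemLp g 1 μ) :
    CauchySeq fun n => (memLp_avg hT hg1 n).toLp (birkhoffAverage ℝ T g n) := by
  have h1 := cauchy_L2 hT hg
  rw [EMetric.cauchySeq_iff] at h1 ⊢
  intro ε hε
  obtain ⟨N, hN⟩ := h1 ε hε
  refine ⟨N, fun m hm n hn => lt_of_le_of_lt ?_ (hN m hm n hn)⟩
  rw [Lp.edist_toLp_toLp, Lp.edist_toLp_toLp]
  exact eLpNorm_le_eLpNorm_of_exponent_le one_le_two
    ((memLp_avg hT hg m).sub (memLp_avg hT hg n)).aestronglyMeasurable

theorem avg_contr (hT : MeasurePreserving T μ μ) {f g : X → ℝ} (hf : MemLp f 1 μ)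
    (hg : MemLp g 1 μ) (n : ℕ) :
    dist ((memLp_avg hT hf n).toLp (birkhoffAverage ℝ T f n))
      ((memLp_avg hT hg n).toLp (birkhoffAverage ℝ T g n)) ≤
      dist (hf.toLp f) (hg.toLp g) := by
  rw [← avg_toLp hT hf n, ← avg_toLp hT hg n]
  refine (dist_birkhoffAverage_birkhoffAverage_le ℝ _ _ _ _ _).trans ?_
  have h1 : ∀ k : ℕ, dist (id ((Lp.compMeasurePreservingₗᵢ ℝ T hT :
      Lp ℝ 1 μ →ₗᵢ[ℝ] Lp ℝ 1 μ)^[k] (hf.toLp f)))
      (id ((Lp.compMeasurePreservingₗᵢ ℝ T hT :
      Lp ℝ 1 μ →ₗᵢ[ℝ] Lp ℝ 1 μ)^[k] (hg.toLp g))) = dist (hf.toLp f) (hg.toLp g) := by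
    intro k
    induction k with
    | zero => rfl
    | succ k ih =>
      rw [Function.iterate_succ_apply', Function.iterate_succ_apply', id, id,
        LinearIsometry.dist_map]
      exact ih
  simp only [h1]
  rw [Finset.sum_const, Finset.card_range, nsmul_eq_mul]
  rcases eq_or_ne n 0 with hn | hn
  · simp [hn]
  · rw [mul_div_cancel_left₀ _ (Nat.cast_ne_zero.mpr hn)]

theorem cauchy_L1 (hT : MeasurePreserving T μ μ) {f : X → ℝ} (hf : MemLp f 1 μ) :
    CauchySeq fun n => (memLp_avg hT hf n).toLp (birkhoffAverage ℝ T f n) := by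
  rw [Metric.cauchySeq_iff]
  intro ε hε
  obtain ⟨g, hg, hg1⟩ := hf.exists_simpleFunc_eLpNorm_sub_lt ENNReal.one_ne_top
    (ε := ENNReal.ofReal (ε / 3)) (by positivity)
  have hg2 : MemLp g 2 μ := SimpleFunc.memLp_of_finite_measure_preimage _ fun y _ =>
    measure_lt_top _ _
  have h1 := cauchy_L1_of_L2 hT hg2 hg1
  rw [Metric.cauchySeq_iff] at h1
  obtain ⟨N, hN⟩ := h1 (ε / 3) (by positivity)
  refine ⟨N, fun m hm n hn => ?_⟩
  have h2 := hN m hm n hn
  have h3 : dist (hf.toLp f) (hg1.toLp g) < ε / 3 := by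
    rw [← edist_lt_ofReal, Lp.edist_toLp_toLp]
    exact hg
  have h4 := avg_contr hT hf hg1 m
  have h5 := avg_contr hT hf hg1 n
  have h6 := dist_triangle4 ((memLp_avg hT hf m).toLp (birkhoffAverage ℝ T f m))
    ((memLp_avg hT hg1 m).toLp (birkhoffAverage ℝ T g m))
    ((memLp_avg hT hg1 n).toLp (birkhoffAverage ℝ T g n))
    ((memLp_avg hT hf n).toLp (birkhoffAverage ℝ T f n))
  rw [dist_comm] at h5
  linarith

theorem exists_limit (hT : MeasurePreserving T μ μ) {f : X → ℝ} (hf : MemLp f 1 μ) :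
    ∃ U : Lp ℝ 1 μ, Tendsto (fun n => (memLp_avg hT hf n).toLp (birkhoffAverage ℝ T f n)) atTop
      (𝓝 U) :=
  cauchySeq_tendsto_of_complete (cauchy_L1 hT hf)

theorem integral_avg (hT : MeasurePreserving T μ μ) {f : X → ℝ} (hf : Integrable f μ) (n : ℕ)
    (hn : n ≠ 0) : ∫ x, birkhoffAverage ℝ T f n x ∂μ = ∫ x, f x ∂μ := by
  have h1 : ∀ k : ℕ, ∫ x, f (T^[k] x) ∂μ = ∫ x, f x ∂μ := by
    intro k
    have h2 := hT.iterate k
    have h3 : AEStronglyMeasurable f (μ.map T^[k]) := by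
      rw [h2.map_eq]
      exact hf.aestronglyMeasurable
    have h4 := integral_map h2.measurable.aemeasurable h3
    rw [h2.map_eq] at h4
    exact h4.symm
  unfold birkhoffAverage birkhoffSum
  rw [integral_smul, integral_finsetSum]
  · simp only [h1]
    rw [Finset.sum_const, Finset.card_range, nsmul_eq_mul, smul_eq_mul]
    field_simp
  · intro k _
    have h2 : MemLp f 1 μ := memLp_one_iff_integrable.2 hf
    exact memLp_one_iff_integrable.1 (h2.comp_measurePreserving (hT.iterate k))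

end general

end Erg

theorem stmt_Ergodic : Stmt_Ergodic := by
  intro μ hμ h0 hshift hint
  have hT : MeasurePreserving shift μ μ := ⟨Erg.measurable_shift, hshift⟩
  have hf : MemLp (fun h : Config => (h 1 : ℝ)) 1 μ := memLp_one_iff_integrable.2 hint
  obtain ⟨U, hU⟩ := Erg.exists_limit hT hf
  have hU1 : Integrable U μ := memLp_one_iff_integrable.1 (Lp.memLp U)
  have hUm : AEMeasurable U μ := hU1.aemeasurable
  have havg : ∀ n : ℕ, ∀ᵐ h ∂μ,
      ((Erg.memLp_avg hT hf n).toLp (birkhoffAverage ℝ shift (fun h : Config => (h 1 : ℝ)) n))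
        h = (h n : ℝ) / n := by
    intro n
    filter_upwards [h0, (Erg.memLp_avg hT hf n).coeFn_toLp] with h hh h1
    rw [h1]
    unfold birkhoffAverage birkhoffSum
    have h2 : ∀ k : ℕ, ((shift^[k] h 1 : ℤ) : ℝ) = (h ((k + 1 : ℕ) : ℤ) : ℝ) - (h (k : ℤ) : ℝ) := by
      intro k
      rw [Erg.shift_iterate k h hh]
      push_cast
      rw [add_comm]
    simp only [h2]
    rw [Finset.sum_range_sub (fun k : ℕ => (h (k : ℤ) : ℝ))]
    simp [hh, div_eq_inv_mul]
  refine ⟨μ.map U, Measure.isProbabilityMeasure_map hUm, ?_, ?_, ?_⟩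
  · exact (integrable_map_measure (f := U) (g := fun y : ℝ => y) aestronglyMeasurable_id hUm).2 hU1
  · have h0' : ∫ y, y ∂(μ.map U) = ∫ h, U h ∂μ :=
      integral_map (φ := U) (f := fun y : ℝ => y) hUm aestronglyMeasurable_id
    rw [h0']
    have h1 : Tendsto (fun n : ℕ => ∫ h, birkhoffAverage ℝ shift (fun h : Config => (h 1 : ℝ)) n h
        ∂μ) atTop (𝓝 (∫ h, U h ∂μ)) := by
      refine tendsto_integral_of_L1' U hU1.aestronglyMeasurable (Eventually.of_forall fun n =>
        memLp_one_iff_integrable.1 (Erg.memLp_avg hT hf n)) ?_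
      rw [Lp.tendsto_Lp_iff_tendsto_eLpNorm'] at hU
      refine hU.congr fun n => ?_
      refine eLpNorm_congr_ae ?_
      filter_upwards [(Erg.memLp_avg hT hf n).coeFn_toLp] with h h1
      simp only [Pi.sub_apply, h1]
    have h2 : Tendsto (fun n : ℕ => ∫ h, birkhoffAverage ℝ shift (fun h : Config => (h 1 : ℝ)) n h
        ∂μ) atTop (𝓝 (∫ h, (h 1 : ℝ) ∂μ)) := by
      refine tendsto_const_nhds.congr' ?_
      filter_upwards [eventually_ne_atTop 0] with n hn
      exact (Erg.integral_avg hT hint n hn).symm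
    exact tendsto_nhds_unique h1 h2
  · intro f
    have h1 := tendstoInMeasure_of_tendsto_Lp hU
    have h2 : TendstoInMeasure μ (fun (n : ℕ) (h : Config) => (h n : ℝ) / n) atTop U :=
      h1.congr (fun n => havg n) (Filter.EventuallyEq.refl _ _)
    have hm : ∀ n : ℕ, AEMeasurable (fun h : Config => (h n : ℝ) / n) μ := fun n =>
      (((measurable_from_top : Measurable (fun z : ℤ => (z : ℝ))).comp
        (measurable_pi_apply (n : ℤ))).div_const _).aemeasurable
    have h3 := h2.tendstoInDistribution hm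
    have h4 := h3.tendsto
    rw [ProbabilityMeasure.tendsto_iff_forall_integral_tendsto] at h4
    have h5 := h4 f
    have h6 : ∫ y, f y ∂(μ.map U) = ∫ h, f (U h) ∂μ :=
      integral_map hUm f.continuous.aestronglyMeasurable
    refine Tendsto.congr (fun n => ?_) h5
    exact integral_map (hm n) f.continuous.aestronglyMeasurable

end Pool.BDep
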