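import Pool.Agent.Work.MP_c264fd_pr_h14.AvgBase

/-! Block GoodSeq: a diagonal sequence of time averages. -/

open MeasureTheory ProbabilityTheory Filter Topology
open scoped ENNReal NNReal

namespace Pool.BDep

namespace GS

theorem isProb_avg (hP : Stmt_RhoProb) (n k : ℕ) : IsProbabilityMeasure (avg n k) := by
  constructor
  have h := lintegral_avg n k (fun _ => 1) measurable_const
  rw [lintegral_one] at h
  rw [h]
  have h1 : ∀ j ∈ Finset.range (4 ^ k),
      ∫⁻ _l, (1 : ℝ≥0∞) ∂(rho (box n) ((j : ℝ) / 2 ^ k)) = 1 := by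
    intro j _
    have := hP (box n) ((j : ℝ) / 2 ^ k) (by positivity)
    simp
  rw [Finset.sum_congr rfl h1]
  simp only [Finset.sum_const, Finset.card_range, nsmul_eq_mul, mul_one, Nat.cast_pow,
    Nat.cast_ofNat]
  exact ENNReal.inv_mul_cancel (by positivity) (by finiteness)

theorem measurable_abs_apply (x : ℤ) :
    Measurable fun h : Config => ENNReal.ofReal |(h x : ℝ)| :=
  (measurable_of_countable (fun z : ℤ => ENNReal.ofReal |(z : ℝ)|)).comp (measurable_pi_apply x)

theorem zero_avg (n k : ℕ) : ∀ᵐ h ∂(avg n k), h 0 = 0 := by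
  have hs : MeasurableSet {h : Config | ¬ h 0 = 0} :=
    (measurableSet_eq_fun (measurable_pi_apply (0 : ℤ)) measurable_const).compl
  rw [ae_iff, ← lintegral_indicator_one hs,
    lintegral_avg n k _ (measurable_one.indicator hs)]
  have : ∀ l, ({h : Config | ¬ h 0 = 0}.indicator (1 : Config → ℝ≥0∞))
      (recenter (run l lin)) = 0 := by
    intro l
    apply Set.indicator_of_notMem
    simp [recenter]
  simp [this]

theorem moment_lt_top (hDet : Stmt_Det) (hP : Stmt_RhoProb) (hUU : Stmt_UU) (n k : ℕ) (x : ℤ) :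
    ∫⁻ h, ENNReal.ofReal |(h x : ℝ)| ∂(avg n k) < ∞ := by
  rw [lintegral_avg n k _ (measurable_abs_apply x)]
  refine ENNReal.mul_lt_top (ENNReal.inv_lt_top.2 (by positivity)) ?_
  refine ENNReal.sum_lt_top.2 fun j _ => ?_
  have ht : (0 : ℝ) ≤ (j : ℝ) / 2 ^ k := by positivity
  have hpr := hP (box n) _ ht
  have hfin : ∀ x, uu (box n) x ((j : ℝ) / 2 ^ k) < ∞ := by
    intro x
    obtain ⟨C, _, hC⟩ := hUU.2.2.2
    exact ((hUU.1 (box n) x _ ht).trans (hC _ ht)).trans_lt ENNReal.ofReal_lt_top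
  calc ∫⁻ l, ENNReal.ofReal |(recenter (run l lin) x : ℝ)| ∂(rho (box n) ((j : ℝ) / 2 ^ k))
      ≤ ∫⁻ l, (ENNReal.ofReal ((run l lin x - x : ℤ) : ℝ)
        + ENNReal.ofReal ((run l lin 0 - 0 : ℤ) : ℝ)
        + ENNReal.ofReal |(x : ℝ)|) ∂(rho (box n) ((j : ℝ) / 2 ^ k)) := by
        refine lintegral_mono fun l => ?_
        have a := hDet.2.2.2.1 l lin x
        have b := hDet.2.2.2.1 l lin 0
        have a' : (0 : ℝ) ≤ ((run l lin x - x : ℤ) : ℝ) := by
          have : 0 ≤ run l lin x - x := sub_nonneg.2 a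
          exact_mod_cast this
        have b' : (0 : ℝ) ≤ ((run l lin 0 - 0 : ℤ) : ℝ) := by
          have : 0 ≤ run l lin 0 - 0 := sub_nonneg.2 b
          exact_mod_cast this
        rw [← ENNReal.ofReal_add a' b', ← ENNReal.ofReal_add (add_nonneg a' b') (abs_nonneg _)]
        apply ENNReal.ofReal_le_ofReal
        have e : ((recenter (run l lin) x : ℤ) : ℝ)
            = ((run l lin x - x : ℤ) : ℝ) - ((run l lin 0 - 0 : ℤ) : ℝ) + (x : ℝ) := by
          simp only [recenter]; push_cast; ring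
        rw [e]
        refine (abs_add_le _ _).trans (add_le_add ?_ le_rfl)
        refine (abs_sub _ _).trans ?_
        rw [abs_of_nonneg a', abs_of_nonneg b']
    _ = uu (box n) x ((j : ℝ) / 2 ^ k) + uu (box n) 0 ((j : ℝ) / 2 ^ k)
        + ENNReal.ofReal |(x : ℝ)| := by
        rw [lintegral_add_left (measurable_list _), lintegral_add_left (measurable_list _)]
        simp [uu]
    _ < ∞ := by
        have := hfin x
        have := hfin 0
        simp [*]

theorem exists_box (D : Finset ℤ) : ∃ k0 : ℕ, ∀ k ≥ k0, D ⊆ box k := by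
  refine ⟨D.sup Int.natAbs, fun k hk x hx => ?_⟩
  have h1 : x.natAbs ≤ D.sup Int.natAbs := Finset.le_sup (f := Int.natAbs) hx
  have h2 : x.natAbs ≤ k := h1.trans hk
  simp only [box, Finset.mem_Icc]
  omega

end GS

open GS

theorem stmt_GoodSeq (hDet : Stmt_Det) (hP : Stmt_RhoProb) (hUU : Stmt_UU)
    (hM : Stmt_AvgMoment) (hS : Stmt_AvgShift) (hI : Stmt_AvgInv) (hF : Stmt_AvgFatou) :
    Stmt_GoodSeq := by
  classical
  choose C hC using hM
  let FT : ℕ → ℕ → ℕ → ℕ → ℕ → Prop := fun n T p k n' =>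
    ∫⁻ h, ∫⁻ l, ENNReal.ofReal ((run l h 0 - h (gr 0 l) : ℤ) : ℝ) ∂(rho (box n) T) ∂(avg n' k)
      + ∫⁻ l, ENNReal.ofReal (gr 0 l) ∂(rho (box n) T)
      ≤ ENNReal.ofReal (T * (10389 / 10000) / Real.log (10 / 7) + 1 / ((p : ℝ) + 1))
  have key : ∀ k : ℕ, ∃ n : ℕ, k ≤ n ∧
      (∀ x ∈ box k, ∫⁻ h, ENNReal.ofReal |(h x : ℝ)| ∂(avg n k) ≤ ENNReal.ofReal (C x)) ∧
      (∀ F : Config → ℝ, LocalBdd (box k) F →
        |∫ h, F (shift h) ∂(avg n k) - ∫ h, F h ∂(avg n k)| ≤ 1 / ((k : ℝ) + 1)) ∧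
      (∀ a ∈ Finset.range (k + 1), ∀ T ∈ Finset.range (k + 1), ∀ p ∈ Finset.range (k + 1),
        (∀ᶠ n' in atTop, FT a T p k n') → FT a T p k n) := by
    intro k
    have e1 : ∀ᶠ n in atTop, k ≤ n := eventually_ge_atTop k
    have e2 : ∀ᶠ n in atTop, ∀ x ∈ box k,
        ∫⁻ h, ENNReal.ofReal |(h x : ℝ)| ∂(avg n k) ≤ ENNReal.ofReal (C x) :=
      (Filter.eventually_all_finset (box k)).2 fun x _ => hC x k
    have e3 := hS k (box k) (1 / ((k : ℝ) + 1)) (by positivity)
    have e4 : ∀ᶠ n in atTop, ∀ a ∈ Finset.range (k + 1), ∀ T ∈ Finset.range (k + 1),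
        ∀ p ∈ Finset.range (k + 1), (∀ᶠ n' in atTop, FT a T p k n') → FT a T p k n := by
      refine (Filter.eventually_all_finset _).2 fun a _ => ?_
      refine (Filter.eventually_all_finset _).2 fun T _ => ?_
      refine (Filter.eventually_all_finset _).2 fun p _ => ?_
      by_cases h : ∀ᶠ n' in atTop, FT a T p k n'
      · exact h.mono fun n hn _ => hn
      · exact Eventually.of_forall fun n h' => absurd h' h
    obtain ⟨n, h1, h2, h3, h4⟩ := (e1.and (e2.and (e3.and e4))).exists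
    exact ⟨n, h1, h2, h3, h4⟩
  choose N hN1 hN2 hN3 hN4 using key
  refine ⟨fun k => avg (N k) k, ⟨fun k => isProb_avg hP _ _, fun k => zero_avg _ _, ?_, ?_, ?_, ?_⟩⟩
  · -- moment
    intro x
    refine ⟨max (C x) 0 + ∑ k ∈ Finset.range x.natAbs,
      (∫⁻ h, ENNReal.ofReal |(h x : ℝ)| ∂(avg (N k) k)).toReal, fun k => ?_⟩
    have hpos : 0 ≤ ∑ k ∈ Finset.range x.natAbs,
      (∫⁻ h, ENNReal.ofReal |(h x : ℝ)| ∂(avg (N k) k)).toReal :=
      Finset.sum_nonneg fun _ _ => ENNReal.toReal_nonneg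
    by_cases hx : x ∈ box k
    · refine (hN2 k x hx).trans (ENNReal.ofReal_le_ofReal ?_)
      have := le_max_left (C x) 0
      linarith
    · have hk : k ∈ Finset.range x.natAbs := by
        simp only [box, Finset.mem_Icc, not_and_or, not_le] at hx
        simp only [Finset.mem_range]
        omega
      rw [← ENNReal.ofReal_toReal (moment_lt_top hDet hP hUU (N k) k x).ne]
      refine ENNReal.ofReal_le_ofReal ?_
      have h1 := Finset.single_le_sum (f := fun k =>
        (∫⁻ h, ENNReal.ofReal |(h x : ℝ)| ∂(avg (N k) k)).toReal)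
        (fun _ _ => ENNReal.toReal_nonneg) hk
      have := le_max_right (C x) 0
      linarith
  · -- shift
    intro D F hDF
    obtain ⟨k0, hk0⟩ := exists_box D
    refine squeeze_zero_norm' (a := fun k : ℕ => 1 / ((k : ℝ) + 1)) ?_
      tendsto_one_div_add_atTop_nhds_zero_nat
    filter_upwards [eventually_ge_atTop k0] with k hk
    rw [Real.norm_eq_abs]
    exact hN3 k F ⟨fun h h' hh => hDF.1 h h' fun x hx => hh x (hk0 k hk hx), hDF.2⟩
  · -- inv
    intro D F s hDF hs ε hε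
    obtain ⟨M, hM⟩ := hI D F s hDF hs ε hε
    refine ⟨M, fun n hn => ?_⟩
    filter_upwards [hM n hn, eventually_ge_atTop n] with k hk hkn
    exact hk (N k) (hkn.trans (hN1 k))
  · -- fatou
    intro n T ε hε
    obtain ⟨p, hp⟩ := exists_nat_one_div_lt hε
    have h1 := hF n T (1 / ((p : ℝ) + 1)) (by positivity)
    filter_upwards [h1, eventually_ge_atTop n, eventually_ge_atTop T, eventually_ge_atTop p]
      with k hk ha hb hc
    have := hN4 k n (by simp; omega) T (by simp; omega) p (by simp; omega) hk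
    refine le_trans this (ENNReal.ofReal_le_ofReal ?_)
    linarith

end Pool.BDep
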