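import Pool.Agent.Work.MP_c264fd_pr_h14.LBData

/-!
# Block LB, verification of the table by the kernel
-/

namespace Pool.BDep.LB

theorem okRows_spec (a : Nat) : ∀ k : Nat, okRows a k = true → ∀ j, j < k →
    okRow (prof (a + j)) (trow (a + j)) (ph (a + j)) = true
  | 0, _, j, hj => absurd hj (Nat.not_lt_zero j)
  | k + 1, h, j, hj => by
    have h' : (okRow (prof (a + k)) (trow (a + k)) (ph (a + k)) && okRows a k) = true := h
    rw [Bool.and_eq_true] at h'
    rcases Nat.lt_succ_iff_lt_or_eq.1 hj with h1 | h1
    · exact okRows_spec a k h'.2 j h1
    · rw [h1]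
      exact h'.1

theorem c0 : okRows 0 250 = true := by decide +kernel
theorem c1 : okRows 250 250 = true := by decide +kernel
theorem c2 : okRows 500 250 = true := by decide +kernel
theorem c3 : okRows 750 250 = true := by decide +kernel
theorem c4 : okRows 1000 250 = true := by decide +kernel
theorem c5 : okRows 1250 250 = true := by decide +kernel
theorem c6 : okRows 1500 222 = true := by decide +kernel

theorem chk (i : Nat) (hi : i < 1722) : okRow (prof i) (trow i) (ph i) = true := by
  have key : ∀ a k, okRows a k = true → a ≤ i → i < a + k →
      okRow (prof i) (trow i) (ph i) = true := by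
    intro a k h h1 h2
    have := okRows_spec a k h (i - a) (by omega)
    rwa [Nat.add_sub_cancel' h1] at this
  by_cases h1 : i < 250
  · exact key _ _ c0 (by omega) (by omega)
  by_cases h2 : i < 500
  · exact key _ _ c1 (by omega) (by omega)
  by_cases h3 : i < 750
  · exact key _ _ c2 (by omega) (by omega)
  by_cases h4 : i < 1000
  · exact key _ _ c3 (by omega) (by omega)
  by_cases h5 : i < 1250
  · exact key _ _ c4 (by omega) (by omega)
  by_cases h6 : i < 1500
  · exact key _ _ c5 (by omega) (by omega)
  · exact key _ _ c6 (by omega) (by omega)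

end Pool.BDep.LB
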