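import Pool.Agent.Work.MP_c264fd_pr_h14.Interface
import Pool.Agent.Work.MP_c264fd_pr_h14.LBCheck

/-!
# Block LB: the lower bound for the flat profile (window policy)
-/

open MeasureTheory ProbabilityTheory Filter Topology
open scoped ENNReal NNReal

namespace Pool.BDep

namespace LB

/-! ### Reading the table -/

theorem dig_eq (p s : ℕ) : dig p s = (p >>> (3 * s)) % 8 := rfl

theorem dig_lt (p s : ℕ) : dig p s < 8 := Nat.mod_lt _ (by norm_num)

theorem prof_lt (i : ℕ) : prof i < 2 ^ 24 := Nat.mod_lt _ (by norm_num)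

theorem dig_eight_zero (p : ℕ) : dig (8 * p) 0 = 0 := by
  rw [dig_eq]
  simp

theorem dig_eight_succ (p s : ℕ) : dig (8 * p) (s + 1) = dig p s := by
  rw [dig_eq, dig_eq, Nat.shiftRight_eq_div_pow, Nat.shiftRight_eq_div_pow]
  congr 1
  rw [show 3 * (s + 1) = 3 + 3 * s by ring, pow_add, show (2 : ℕ) ^ 3 = 8 by norm_num,
    Nat.mul_div_mul_left _ _ (by norm_num : 0 < 8)]

theorem dig_big {p : ℕ} (hp : p < 2 ^ 24) {s : ℕ} (hs : 8 ≤ s) : dig p s = 0 := by
  rw [dig_eq, Nat.shiftRight_eq_div_pow]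
  have h1 : (2 : ℕ) ^ 24 ≤ 2 ^ (3 * s) := Nat.pow_le_pow_right (by norm_num) (by omega)
  rw [Nat.div_eq_of_lt (lt_of_lt_of_le hp h1)]

theorem row_site {i : ℕ} (hi : i < 1722) {s : ℕ} (hs : s < 8) :
    okS (prof i) (trow i) (ph i) s = true := by
  have h := chk i hi
  simp only [okRow, Bool.and_eq_true] at h
  obtain ⟨⟨⟨⟨⟨⟨⟨⟨h0, h1⟩, h2⟩, h3⟩, h4⟩, h5⟩, h6⟩, h7⟩, _⟩ := h
  interval_cases s <;> assumption

theorem row_gain {i : ℕ} (hi : i < 1722) :
    191740 ≤ ∑ s ∈ Finset.range 8, gainS (prof i) (trow i) (ph i) s := by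
  have h := chk i hi
  simp only [okRow, Bool.and_eq_true] at h
  have h2 := Nat.le_of_ble_eq_true h.2
  simp only [Finset.sum_range_succ, Finset.sum_range_zero]
  change 191740 ≤ gainS (prof i) (trow i) (ph i) 0 + (gainS (prof i) (trow i) (ph i) 1 +
    (gainS (prof i) (trow i) (ph i) 2 + (gainS (prof i) (trow i) (ph i) 3 +
    (gainS (prof i) (trow i) (ph i) 4 + (gainS (prof i) (trow i) (ph i) 5 +
    (gainS (prof i) (trow i) (ph i) 6 + gainS (prof i) (trow i) (ph i) 7)))))) at h2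
  linarith

theorem okAll_spec {p8 c s q a m : ℕ} (h : okAll p8 c s q a m = true) {u : ℕ} (hu : u < 8)
    (hd : dig q u ≠ 0) : dig q u + m ≤ gd p8 c s (a + u) := by
  have h' : okSite p8 c s q a m u = true := by
    simp only [okAll, Bool.and_eq_true] at h
    obtain ⟨⟨⟨⟨⟨⟨⟨h0, h1⟩, h2⟩, h3⟩, h4⟩, h5⟩, h6⟩, h7⟩ := h
    interval_cases u <;> assumption
  simp only [okSite, Bool.or_eq_true] at h'
  rcases h' with h1 | h1
  · exact absurd (Nat.eq_of_beq_eq_true h1) hd
  · exact Nat.le_of_ble_eq_true h1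

theorem site_spec {i : ℕ} (hi : i < 1722) {s : ℕ} (hs : s < 8) (hd : dig (prof i) s ≠ 0) :
    tg (tsite (trow i) s) < 1722 ∧
    (∀ u < 8, dig (prof (tg (tsite (trow i) s))) u ≠ 0 →
      dig (prof (tg (tsite (trow i) s))) u + dm (tsite (trow i) s) ≤
        gd (8 * prof i) (dig (prof i) s) s (sh (tsite (trow i) s) + u)) ∧
    ph i ≤ ph (tg (tsite (trow i) s)) + 100000 * dm (tsite (trow i) s) := by
  have h := row_site hi hs
  simp only [okS, Bool.or_eq_true] at h
  rcases h with h | h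
  · exact absurd (Nat.eq_of_beq_eq_true h) hd
  · simp only [okTr, Bool.and_eq_true] at h
    obtain ⟨⟨h1, h2⟩, h3⟩ := h
    have h4 := Nat.le_of_ble_eq_true h1
    exact ⟨by omega, fun u hu hq => okAll_spec h2 hu hq, Nat.le_of_ble_eq_true h3⟩

/-! ### The policy -/

/-- state: row `j`, position `a`, height `m` -/
structure S where
  /-- row -/
  j : ℕ
  /-- position -/
  a : ℤ
  /-- height -/
  m : ℕ

/-- the transition at the known site `s` -/
def jump (σ : S) (s : ℕ) : S :=
  ⟨tg (tsite (trow σ.j) s), σ.a + sh (tsite (trow σ.j) s) - 1, σ.m + dm (tsite (trow σ.j) s)⟩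

/-- the new state after a ring at `x` -/
def step (x : ℤ) (σ : S) : S :=
  if 0 ≤ x - σ.a ∧ x - σ.a < 8 ∧ dig (prof σ.j) (x - σ.a).toNat ≠ 0 then
    jump σ (x - σ.a).toNat else σ

/-- the state of a list -/
def st : List ℤ → S
  | [] => ⟨0, 0, 0⟩
  | x :: l => step x (st l)

/-- the potential -/
def pot (σ : S) : ℕ := 100000 * σ.m + ph σ.j

theorem step_known (σ : S) {s : ℕ} (hs : s < 8) (hd : dig (prof σ.j) s ≠ 0) :
    step (σ.a + s) σ = jump σ s := by
  have h : σ.a + (s : ℤ) - σ.a = s := by ring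
  rw [step, h, if_pos]
  · simp
  · refine ⟨by omega, by exact_mod_cast hs, ?_⟩
    simpa using hd

theorem step_cases (x : ℤ) (σ : S) : step x σ = σ ∨
    ∃ s : ℕ, s < 8 ∧ dig (prof σ.j) s ≠ 0 ∧ x = σ.a + s ∧ step x σ = jump σ s := by
  by_cases h : 0 ≤ x - σ.a ∧ x - σ.a < 8 ∧ dig (prof σ.j) (x - σ.a).toNat ≠ 0
  · right
    refine ⟨(x - σ.a).toNat, by omega, h.2.2, by omega, ?_⟩
    rw [step, if_pos h]
  · left
    rw [step, if_neg h]

theorem pot_jump {σ : S} (hj : σ.j < 1722) {s : ℕ} (hs : s < 8) (hd : dig (prof σ.j) s ≠ 0) :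
    pot (jump σ s) = pot σ + gainS (prof σ.j) (trow σ.j) (ph σ.j) s := by
  obtain ⟨_, _, h3⟩ := site_spec hj hs hd
  have hg : gainS (prof σ.j) (trow σ.j) (ph σ.j) s =
      ph (tg (tsite (trow σ.j) s)) + 100000 * dm (tsite (trow σ.j) s) - ph σ.j := by
    rw [gainS, gain]
    have : Nat.beq (dig (prof σ.j) s) 0 = false := by
      rw [Bool.eq_false_iff]
      intro h
      exact hd (Nat.eq_of_beq_eq_true h)
    rw [this]
    rfl
  rw [hg, pot, pot, jump]
  simp only
  omega

/-- the profile of the state is below the dual profile -/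
def Inv (σ : S) (K : ℤ → WithBot ℤ) : Prop :=
  σ.j < 1722 ∧ ∀ s < 8, dig (prof σ.j) s ≠ 0 →
    (((σ.m : ℤ) + dig (prof σ.j) s - 4 : ℤ) : WithBot ℤ) ≤ K (σ.a + s)

theorem le_dring (x : ℤ) (K : ℤ → WithBot ℤ) (y : ℤ) : K y ≤ dring x K y := by
  rw [dring]
  split_ifs with h1 h2
  · rw [h1]
    cases K x with
    | bot => simp
    | coe k =>
      have : ((k : ℤ) : WithBot ℤ) + 1 = ((k + 1 : ℤ) : WithBot ℤ) := by push_cast; rfl
      rw [this]
      exact WithBot.coe_le_coe.2 (by omega)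
  · exact le_max_left _ _
  · exact le_rfl

theorem inv_wide {σ : S} {K : ℤ → WithBot ℤ} (h : Inv σ K) {w : ℕ}
    (hw : dig (8 * prof σ.j) w ≠ 0) :
    (((σ.m : ℤ) + dig (8 * prof σ.j) w - 4 : ℤ) : WithBot ℤ) ≤ K (σ.a + w - 1) := by
  rcases w with _ | w
  · exact absurd (dig_eight_zero _) hw
  · rw [dig_eight_succ] at hw ⊢
    have hw8 : w < 8 := by
      by_contra h8
      exact hw (dig_big (prof_lt _) (by omega))
    have := h.2 w hw8 hw
    have e : σ.a + ((w + 1 : ℕ) : ℤ) - 1 = σ.a + w := by push_cast; ring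
    rw [e]
    exact this

theorem gd_spec {σ : S} {K : ℤ → WithBot ℤ} (h : Inv σ K) {s : ℕ} (hs : s < 8)
    (hd : dig (prof σ.j) s ≠ 0) {w : ℕ}
    (hw : gd (8 * prof σ.j) (dig (prof σ.j) s) s w ≠ 0) :
    (((σ.m : ℤ) + gd (8 * prof σ.j) (dig (prof σ.j) s) s w - 4 : ℤ) : WithBot ℤ) ≤
      dring (σ.a + s) K (σ.a + w - 1) := by
  have hx := h.2 s hs hd
  set c := dig (prof σ.j) s with hc
  by_cases h1 : w = s + 1
  · have e1 : gd (8 * prof σ.j) c s w = c + 1 := by
      rw [gd, h1]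
      have : Nat.beq (s + 1) (Nat.add s 1) = true := Nat.beq_refl _
      rw [this]
      rfl
    rw [e1]
    have e2 : σ.a + (w : ℤ) - 1 = σ.a + s := by rw [h1]; push_cast; ring
    rw [e2, dring, if_pos rfl]
    cases hk : K (σ.a + s) with
    | bot =>
      rw [hk] at hx
      exact absurd (le_bot_iff.1 hx) (WithBot.coe_ne_bot)
    | coe k =>
      rw [hk] at hx
      have h2 := WithBot.coe_le_coe.1 hx
      have : ((k : ℤ) : WithBot ℤ) + 1 = ((k + 1 : ℤ) : WithBot ℤ) := by push_cast; rfl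
      rw [this]
      refine WithBot.coe_le_coe.2 ?_
      push_cast
      linarith
  · have b1 : Nat.beq w (Nat.add s 1) = false := by
      rw [Bool.eq_false_iff]
      intro hb
      exact h1 (Nat.eq_of_beq_eq_true hb)
    by_cases h2 : w = s ∨ w = s + 2
    · have b2 : (Nat.beq w s || Nat.beq w (Nat.add s 2)) = true := by
        rcases h2 with h2 | h2
        · rw [h2, Nat.beq_refl]; rfl
        · rw [h2]
          have : Nat.beq (s + 2) (Nat.add s 2) = true := Nat.beq_refl _
          rw [this, Bool.or_true]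
      have e1 : gd (8 * prof σ.j) c s w = bif Nat.ble (dig (8 * prof σ.j) w) c then c
          else dig (8 * prof σ.j) w := by
        rw [gd, b1, b2]
        rfl
      have e2 : dring (σ.a + s) K (σ.a + w - 1) = max (K (σ.a + w - 1)) (K (σ.a + s)) := by
        rw [dring, if_neg, if_pos]
        · rcases h2 with h2 | h2
          · left; rw [h2]
          · right; rw [h2]; push_cast; ring
        · rcases h2 with h2 | h2
          · rw [h2]; omega
          · rw [h2]; push_cast; omega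
      rw [e2, e1]
      rw [e1] at hw
      cases hb : Nat.ble (dig (8 * prof σ.j) w) c with
      | true =>
        simp only [cond_true]
        exact hx.trans (le_max_right _ _)
      | false =>
        rw [hb] at hw
        simp only [cond_false] at hw ⊢
        exact (inv_wide h hw).trans (le_max_left _ _)
    · have b2 : (Nat.beq w s || Nat.beq w (Nat.add s 2)) = false := by
        rw [Bool.or_eq_false_iff]
        constructor
        · rw [Bool.eq_false_iff]
          intro hb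
          exact h2 (Or.inl (Nat.eq_of_beq_eq_true hb))
        · rw [Bool.eq_false_iff]
          intro hb
          exact h2 (Or.inr (Nat.eq_of_beq_eq_true hb))
      have e1 : gd (8 * prof σ.j) c s w = dig (8 * prof σ.j) w := by
        rw [gd, b1, b2]
        rfl
      rw [e1] at hw ⊢
      exact (inv_wide h hw).trans (le_dring _ _ _)

theorem inv_step (x : ℤ) {σ : S} {K : ℤ → WithBot ℤ} (h : Inv σ K) :
    Inv (step x σ) (dring x K) := by
  rcases step_cases x σ with h1 | ⟨s, hs, hd, hx, h1⟩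
  · rw [h1]
    exact ⟨h.1, fun s hs hd => (h.2 s hs hd).trans (le_dring _ _ _)⟩
  · rw [h1, hx]
    obtain ⟨g1, g2, _⟩ := site_spec h.1 hs hd
    refine ⟨g1, fun u hu hq => ?_⟩
    have g3 := g2 u hu hq
    have g4 : gd (8 * prof σ.j) (dig (prof σ.j) s) s (sh (tsite (trow σ.j) s) + u) ≠ 0 := by
      have : dig (prof (tg (tsite (trow σ.j) s))) u ≠ 0 := hq
      omega
    have g5 := gd_spec h hs hd g4
    have e : (jump σ s).a + (u : ℤ) = σ.a + ((sh (tsite (trow σ.j) s) + u : ℕ) : ℤ) - 1 := by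
      rw [jump]
      push_cast
      ring
    rw [e]
    refine le_trans (WithBot.coe_le_coe.2 ?_) g5
    rw [jump]
    simp only
    push_cast
    have g6 : ((dig (prof (tg (tsite (trow σ.j) s))) u : ℕ) : ℤ) +
      (dm (tsite (trow σ.j) s) : ℕ) ≤
        (gd (8 * prof σ.j) (dig (prof σ.j) s) s (sh (tsite (trow σ.j) s) + u) : ℕ) := by
      exact_mod_cast g3
    linarith

theorem dig_prof_zero : ∀ s < 8, dig (prof 0) s ≠ 0 → s = 0 ∧ dig (prof 0) s = 4 := by
  decide +kernel

theorem ph_zero : ph 0 = 0 := by decide +kernel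

theorem inv_nil : Inv (st []) (dual []) := by
  refine ⟨by rw [st]; norm_num, fun s hs hd => ?_⟩
  obtain ⟨h1, h2⟩ := dig_prof_zero s hs hd
  rw [st]
  simp only
  rw [h2, h1, dual]
  simp

theorem inv_st : ∀ l : List ℤ, Inv (st l) (dual l)
  | [] => inv_nil
  | x :: l => inv_step x (inv_st l)

theorem pot_step (x : ℤ) {σ : S} (hj : σ.j < 1722) : pot σ ≤ pot (step x σ) := by
  rcases step_cases x σ with h1 | ⟨s, hs, hd, _, h1⟩
  · rw [h1]
  · rw [h1, pot_jump hj hs hd]
    omega

theorem ph_lt (i : ℕ) : ph i < 262144 := Nat.mod_lt _ (by norm_num)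

/-- total gain of the potential -/
theorem total_gain (Λ : Finset ℤ) {σ : S} (hj : σ.j < 1722)
    (hΛ : ∀ s < 8, dig (prof σ.j) s ≠ 0 → σ.a + (s : ℤ) ∈ Λ) :
    Λ.card * pot σ + 191740 ≤ ∑ x ∈ Λ, pot (step x σ) := by
  have h1 : ∑ x ∈ Λ, pot (step x σ) = ∑ x ∈ Λ, (pot σ + (pot (step x σ) - pot σ)) := by
    refine Finset.sum_congr rfl fun x _ => ?_
    have := pot_step x hj
    omega
  rw [h1, Finset.sum_add_distrib, Finset.sum_const, smul_eq_mul]
  refine Nat.add_le_add_left ?_ _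
  set I := (Finset.range 8).filter (fun s => dig (prof σ.j) s ≠ 0) with hI
  have h2 : I.image (fun s : ℕ => σ.a + (s : ℤ)) ⊆ Λ := by
    intro y hy
    rw [Finset.mem_image] at hy
    obtain ⟨s, hs, rfl⟩ := hy
    rw [hI, Finset.mem_filter, Finset.mem_range] at hs
    exact hΛ s hs.1 hs.2
  refine le_trans ?_ (Finset.sum_le_sum_of_subset h2)
  rw [Finset.sum_image (by intro a _ b _ hab; simpa using hab)]
  have h3 : ∑ s ∈ I, (pot (step (σ.a + (s : ℤ)) σ) - pot σ) =
      ∑ s ∈ I, gainS (prof σ.j) (trow σ.j) (ph σ.j) s := by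
    refine Finset.sum_congr rfl fun s hs => ?_
    rw [hI, Finset.mem_filter, Finset.mem_range] at hs
    rw [step_known σ hs.1 hs.2, pot_jump hj hs.1 hs.2]
    omega
  rw [h3]
  refine (row_gain hj).trans (le_of_eq ?_)
  rw [hI, Finset.sum_filter]
  refine Finset.sum_congr rfl fun s _ => ?_
  split_ifs with h4
  · rfl
  · have h5 : dig (prof σ.j) s = 0 := by simpa using h4
    rw [gainS, gain, h5]
    rfl

/-- some site is known -/
theorem exists_known {i : ℕ} (hi : i < 1722) : ∃ s < 8, dig (prof i) s ≠ 0 := by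
  by_contra h
  push Not at h
  have h1 : ∑ s ∈ Finset.range 8, gainS (prof i) (trow i) (ph i) s = 0 := by
    refine Finset.sum_eq_zero fun s hs => ?_
    rw [gainS, gain, h s (Finset.mem_range.1 hs)]
    rfl
  have := row_gain hi
  omega

/-- the potential is bounded by the height -/
theorem pot_le (hD : Stmt_Dual) (l : List ℤ) :
    (pot (st l) : ℝ) / 100000 ≤ (run l 0 0 : ℝ) + 6 := by
  obtain ⟨hj, hI⟩ := inv_st l
  obtain ⟨s, hs, hd⟩ := exists_known hj
  have h1 := hI s hs hd
  have h2 : ((st l).m : ℤ) - 3 ≤ run l 0 0 := by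
    cases hk : dual l ((st l).a + s) with
    | bot =>
      rw [hk] at h1
      exact absurd (le_bot_iff.1 h1) (WithBot.coe_ne_bot)
    | coe k =>
      rw [hk] at h1
      have h3 := WithBot.coe_le_coe.1 h1
      have h4 := hD.1 l 0 _ k hk
      have h5 : (1 : ℤ) ≤ dig (prof (st l).j) s := by
        have : 1 ≤ dig (prof (st l).j) s := Nat.one_le_iff_ne_zero.2 hd
        exact_mod_cast this
      rw [Pi.zero_apply, zero_add] at h4
      linarith
  have h3 : ((st l).m : ℝ) - 3 ≤ (run l 0 0 : ℝ) := by exact_mod_cast h2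
  have h4 : (ph (st l).j : ℝ) ≤ 262144 := by exact_mod_cast (ph_lt _).le
  rw [pot]
  push_cast
  linarith

end LB

open LB in
theorem stmt_LB (hP : Stmt_RhoProb) (hL : Stmt_RhoLin) (hD : Stmt_Dual) : Stmt_LB := by
  refine ⟨6, by norm_num, fun n t ht => ?_⟩
  have : IsProbabilityMeasure (rho (box n) t) := hP _ _ ht
  have hsum : ∀ l : List ℤ, ∑ x ∈ box n, ENNReal.ofReal ((pot (st (x :: l)) : ℝ) / 100000) =
      ENNReal.ofReal (((∑ x ∈ box n, pot (step x (st l)) : ℕ) : ℝ) / 100000) := by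
    intro l
    rw [← ENNReal.ofReal_sum_of_nonneg (fun x _ => by positivity)]
    congr 1
    push_cast
    rw [Finset.sum_div]
    rfl
  have hcard : ∀ l : List ℤ, ((box n).card : ℝ≥0∞) * ENNReal.ofReal ((pot (st l) : ℝ) / 100000) =
      ENNReal.ofReal ((((box n).card * pot (st l) : ℕ) : ℝ) / 100000) := by
    intro l
    rw [← ENNReal.ofReal_natCast, ← ENNReal.ofReal_mul (by positivity)]
    congr 1
    push_cast
    ring
  have key := hL (box n) t (19174 / 10000)
    (fun l => ENNReal.ofReal ((pot (st l) : ℝ) / 100000))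
    (fun l => -(n : ℤ) ≤ gl 0 l ∧ gr 0 l ≤ n) ht (by norm_num) ?_ ?_ ?_
  · refine key.trans ?_
    have h1 : ∫⁻ l, ENNReal.ofReal ((pot (st l) : ℝ) / 100000) ∂(rho (box n) t) ≤
        ∫⁻ l, (ENNReal.ofReal (run l 0 0) + ENNReal.ofReal 6) ∂(rho (box n) t) := by
      refine lintegral_mono fun l => ?_
      refine (ENNReal.ofReal_le_ofReal (pot_le hD l)).trans ?_
      exact ENNReal.ofReal_add_le
    refine h1.trans ?_
    rw [lintegral_add_right _ measurable_const, lintegral_const, measure_univ, mul_one]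
  · -- good
    intro x l h
    have h1 : gl 0 (x :: l) ≤ gl 0 l := by
      rw [gl]
      split_ifs <;> omega
    have h2 : gr 0 l ≤ gr 0 (x :: l) := by
      rw [gr]
      split_ifs <;> omega
    exact ⟨h.1.trans h1, h2.trans h.2⟩
  · intro l _
    rw [hsum, hcard]
    refine ENNReal.ofReal_le_ofReal ?_
    have : (box n).card * pot (st l) ≤ ∑ x ∈ box n, pot (step x (st l)) := by
      rw [← smul_eq_mul, ← Finset.sum_const]
      exact Finset.sum_le_sum fun x _ => pot_step x (inv_st l).1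
    have h2 : (((box n).card * pot (st l) : ℕ) : ℝ) ≤
        ((∑ x ∈ box n, pot (step x (st l)) : ℕ) : ℝ) := by exact_mod_cast this
    linarith
  · intro l _ hg
    rw [hsum, hcard, ← ENNReal.ofReal_add (by positivity) (by norm_num)]
    refine ENNReal.ofReal_le_ofReal ?_
    have h1 := total_gain (box n) (inv_st l).1 (fun s hs hd => by
      have h2 := (inv_st l).2 s hs hd
      have h3 : dual l ((st l).a + s) ≠ ⊥ := by
        intro hb
        rw [hb] at h2
        exact absurd (le_bot_iff.1 h2) (WithBot.coe_ne_bot)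
      have h4 := hD.2.2 l _ h3
      rw [box, Finset.mem_Icc]
      exact ⟨hg.1.trans h4.1, h4.2.trans hg.2⟩)
    have h2 : (((box n).card * pot (st l) + 191740 : ℕ) : ℝ) ≤
        ((∑ x ∈ box n, pot (step x (st l)) : ℕ) : ℝ) := by exact_mod_cast h1
    push_cast at h2 ⊢
    linarith

end Pool.BDep
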