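import Pool.Agent.Work.MP_c264fd_pr_h14.RhoBasic

/-!
# RhoExp, RhoLin, RhoEnds: exponential and linear functionals of the list of rings
-/

open MeasureTheory ProbabilityTheory Filter Topology
open scoped ENNReal NNReal

namespace Pool.BDep

open Rho

theorem stmt_RhoExp : Stmt_RhoExp := by
  intro Λ t γ C Φ ht hγ hC h0 hstep
  have hS : ∀ k, SS Λ k Φ ≤ ENNReal.ofReal C * ENNReal.ofReal (Λ.card + γ) ^ k := by
    intro k
    induction k with
    | zero => rw [SS_zero, pow_zero, mul_one]; exact h0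
    | succ k ih =>
      rw [SS_succ']
      calc SS Λ k (fun l => ∑ x ∈ Λ, Φ (x :: l))
          ≤ SS Λ k (fun l => ENNReal.ofReal (Λ.card + γ) * Φ l) :=
            SS_mono k fun l _ hl => hstep l hl
        _ = ENNReal.ofReal (Λ.card + γ) * SS Λ k Φ := SS_const_mul _ _ _ _
        _ ≤ ENNReal.ofReal (Λ.card + γ) * (ENNReal.ofReal C * ENNReal.ofReal (Λ.card + γ) ^ k) :=
            mul_le_mul_right ih _
        _ = _ := by rw [pow_succ]; ring
  rw [lintegral_rho]
  calc ENNReal.ofReal (Real.exp (-(Λ.card * t))) * ∑' k, ww t k * SS Λ k Φ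
      ≤ ENNReal.ofReal (Real.exp (-(Λ.card * t))) *
        ∑' k, ENNReal.ofReal C * (ww t k * ENNReal.ofReal (Λ.card + γ) ^ k) := by
        refine mul_le_mul_right (ENNReal.tsum_le_tsum fun k => ?_) _
        refine (mul_le_mul_right (hS k) _).trans (le_of_eq ?_)
        ring
    _ = ENNReal.ofReal (C * Real.exp (γ * t)) := by
        rw [ENNReal.tsum_mul_left, tsum_ww ht (by positivity), ← mul_assoc,
          ← ENNReal.ofReal_mul (Real.exp_pos _).le, ← ENNReal.ofReal_mul (by positivity)]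
        congr 1
        rw [mul_comm (Real.exp _) C, mul_assoc, ← Real.exp_add]
        congr 2
        ring

theorem stmt_RhoLin : Stmt_RhoLin := by
  classical
  intro Λ t c Φ good ht hc hgood h1 h2
  set G : List ℤ → ℝ≥0∞ := fun l => if good l then 1 else 0 with hG
  set cc := ENNReal.ofReal c with hcc
  have hS : ∀ k, (Λ.card : ℝ≥0∞) * SS Λ k Φ + cc * SS Λ k G ≤ SS Λ (k + 1) Φ := by
    intro k
    rw [SS_succ', ← SS_const_mul, ← SS_const_mul, ← SS_add]
    refine SS_mono k fun l _ hl => ?_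
    simp only [hG]
    by_cases hg : good l
    · rw [if_pos hg, mul_one]; exact h2 l hl hg
    · rw [if_neg hg, mul_zero, add_zero]; exact h1 l hl
  have hg : ∀ k, SS Λ (k + 1) G ≤ (Λ.card : ℝ≥0∞) * SS Λ k G := by
    intro k
    rw [SS_succ', ← SS_const_mul]
    refine SS_mono k fun l _ hl => ?_
    simp only [hG]
    by_cases hg : good l
    · rw [if_pos hg, mul_one, Finset.card_eq_sum_ones, Nat.cast_sum]
      refine Finset.sum_le_sum fun x _ => ?_
      split_ifs <;> simp
    · rw [if_neg hg, mul_zero]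
      refine le_of_eq (Finset.sum_eq_zero fun x _ => if_neg fun h => hg (hgood x l h))
  have hmain : ∀ k : ℕ, cc * ((k + 1 : ℕ) : ℝ≥0∞) * SS Λ k G ≤ SS Λ (k + 1) Φ := by
    intro k
    induction k with
    | zero =>
      rw [zero_add, Nat.cast_one, mul_one]
      exact le_trans le_add_self (hS 0)
    | succ k ih =>
      refine le_trans ?_ (hS (k + 1))
      calc cc * ((k + 1 + 1 : ℕ) : ℝ≥0∞) * SS Λ (k + 1) G
          = cc * ((k + 1 : ℕ) : ℝ≥0∞) * SS Λ (k + 1) G + cc * SS Λ (k + 1) G := by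
            push_cast; ring
        _ ≤ cc * ((k + 1 : ℕ) : ℝ≥0∞) * ((Λ.card : ℝ≥0∞) * SS Λ k G) + cc * SS Λ (k + 1) G :=
            add_le_add_left (mul_le_mul_right (hg k) _) _
        _ = (Λ.card : ℝ≥0∞) * (cc * ((k + 1 : ℕ) : ℝ≥0∞) * SS Λ k G) + cc * SS Λ (k + 1) G := by
            ring
        _ ≤ (Λ.card : ℝ≥0∞) * SS Λ (k + 1) Φ + cc * SS Λ (k + 1) G :=
            add_le_add_left (mul_le_mul_right ih _) _
  have hw : ∀ k : ℕ, ww t (k + 1) * ((k + 1 : ℕ) : ℝ≥0∞) = ENNReal.ofReal t * ww t k := by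
    intro k
    unfold ww
    rw [natCast_eq, ← ENNReal.ofReal_mul (by positivity), ← ENNReal.ofReal_mul ht]
    congr 1
    rw [Nat.factorial_succ]
    push_cast
    have h3 : ((k : ℝ) + 1) ≠ 0 := by positivity
    have h4 : (k.factorial : ℝ) ≠ 0 := by positivity
    field_simp
    ring
  have hrho : rho Λ t {l | good l} =
      ENNReal.ofReal (Real.exp (-(Λ.card * t))) * ∑' k, ww t k * SS Λ k G := by
    rw [← lintegral_indicator_one (MeasurableSet.of_discrete), ← lintegral_rho]
    refine lintegral_congr fun l => ?_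
    simp only [hG, Set.indicator_apply, Set.mem_ofPred_eq, Pi.one_apply]
  rw [hrho, lintegral_rho, ENNReal.ofReal_mul hc, ← hcc]
  calc cc * ENNReal.ofReal t *
        (ENNReal.ofReal (Real.exp (-(Λ.card * t))) * ∑' k, ww t k * SS Λ k G)
      = ENNReal.ofReal (Real.exp (-(Λ.card * t))) *
          ∑' k, cc * (ENNReal.ofReal t * ww t k) * SS Λ k G := by
        rw [mul_left_comm, ← ENNReal.tsum_mul_left]
        congr 1
        refine tsum_congr fun k => ?_
        ring
    _ ≤ ENNReal.ofReal (Real.exp (-(Λ.card * t))) * ∑' k, ww t (k + 1) * SS Λ (k + 1) Φ := by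
        refine mul_le_mul_right (ENNReal.tsum_le_tsum fun k => ?_) _
        rw [← hw]
        refine le_trans (le_of_eq ?_) (mul_le_mul_right (hmain k) _)
        ring
    _ ≤ ENNReal.ofReal (Real.exp (-(Λ.card * t))) * ∑' k, ww t k * SS Λ k Φ := by
        refine mul_le_mul_right ?_ _
        exact ENNReal.tsum_comp_le_tsum_of_injective (add_left_injective 1)
          (fun k => ww t k * SS Λ k Φ)

namespace Rho

/-- one greedy end -/
theorem end_le {Λ : Finset ℤ} {t : ℝ} (ht : 0 ≤ t) (e : List ℤ → ℤ) (z0 : ℤ) (h0 : e [] = z0)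
    (g : List ℤ → ℤ) (hstep : ∀ x l, e (x :: l) = if x = g l then e l + 1 else e l) (n : ℕ) :
    rho Λ t {l | z0 + n ≤ e l} ≤ ENNReal.ofReal (Real.exp t / 2 ^ n) := by
  set Φ : List ℤ → ℝ≥0∞ := fun l => ENNReal.ofReal ((2 : ℝ) ^ (e l - z0)) with hΦ
  have h1 : ∫⁻ l, Φ l ∂(rho Λ t) ≤ ENNReal.ofReal (1 * Real.exp (1 * t)) := by
    refine stmt_RhoExp Λ t 1 1 Φ ht zero_le_one zero_le_one ?_ fun l _ => ?_
    · simp only [hΦ]
      rw [h0, sub_self, zpow_zero]
    · have h2 : ∀ x ∈ Λ, Φ (x :: l) = Φ l + if x = g l then Φ l else 0 := by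
        intro x _
        simp only [hΦ]
        rw [hstep]
        by_cases hx : x = g l
        · rw [if_pos hx, if_pos hx, ← ENNReal.ofReal_add (by positivity) (by positivity)]
          congr 1
          rw [show e l + 1 - z0 = (e l - z0) + 1 by ring, zpow_add_one₀ two_ne_zero]
          ring
        · rw [if_neg hx, if_neg hx, add_zero]
      rw [Finset.sum_congr rfl h2, Finset.sum_add_distrib, Finset.sum_const, nsmul_eq_mul,
        ENNReal.ofReal_add (by positivity) zero_le_one, ENNReal.ofReal_natCast,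
        ENNReal.ofReal_one, add_mul, one_mul]
      refine add_le_add_right ?_ _
      rw [Finset.sum_ite_eq']
      split_ifs
      · exact le_rfl
      · exact zero_le
  rw [one_mul, one_mul] at h1
  have h2 : {l | z0 + n ≤ e l} ⊆ {l | ENNReal.ofReal ((2 : ℝ) ^ n) ≤ Φ l} := by
    intro l hl
    rw [Set.mem_ofPred_eq] at hl ⊢
    simp only [hΦ]
    refine ENNReal.ofReal_le_ofReal ?_
    rw [← zpow_natCast]
    exact zpow_le_zpow_right₀ one_le_two (by omega)
  have h3 : (0 : ℝ) < 2 ^ n := by positivity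
  refine (measure_mono h2).trans ?_
  refine (meas_ge_le_lintegral_div (measurable_of_countable Φ).aemeasurable
    (by simp) ENNReal.ofReal_ne_top).trans ?_
  rw [ENNReal.ofReal_div_of_pos h3]
  exact ENNReal.div_le_div_right h1 _

end Rho

theorem stmt_RhoEnds : Stmt_RhoEnds := by
  intro Λ t z n ht
  have h1 := end_le (Λ := Λ) ht (gr z) z rfl (gr z) (fun x l => rfl) n
  have h2 := end_le (Λ := Λ) ht (fun l => - gl z l) (-z) rfl (gl z) (fun x l => by
    simp only [gl]
    split_ifs <;> ring) n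
  have h3 : {l | z + n ≤ gr z l ∨ gl z l ≤ z - n} ⊆
      {l | z + n ≤ gr z l} ∪ {l | -z + n ≤ - gl z l} := by
    intro l hl
    rw [Set.mem_ofPred_eq] at hl
    rcases hl with h | h
    · exact Or.inl h
    · right
      rw [Set.mem_ofPred_eq]
      omega
  refine (measure_mono h3).trans ((measure_union_le _ _).trans ((add_le_add h1 h2).trans ?_))
  rw [← ENNReal.ofReal_add (by positivity) (by positivity)]
  apply ENNReal.ofReal_le_ofReal
  apply le_of_eq
  ring

end Pool.BDep
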