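import Mathlib
import Pool.Agent.Work.MP_c264fd_pr_h14.Interface

/-!
# The box dynamics obeys the rule of ballistic deposition
-/

open MeasureTheory ProbabilityTheory Filter Topology

namespace Pool.BDep

/-! ## `run` -/

theorem run_append' (l l' : List ℤ) (h : Config) : run (l ++ l') h = run l' (run l h) := by
  induction l generalizing h with
  | nil => rfl
  | cons x l ih => exact ih (ring x h)

theorem run_of_notMem {l : List ℤ} {y : ℤ} (hy : y ∉ l) (h : Config) : run l h y = h y := by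
  induction l generalizing h with
  | nil => rfl
  | cons x l ih =>
    rw [List.mem_cons, not_or] at hy
    show run l (ring x h) y = h y
    rw [ih hy.2]
    exact Function.update_of_ne hy.1 _ _

theorem run_singleton (y : ℤ) (h : Config) :
    run [y] h y = max (max (h (y - 1)) (h (y + 1))) (h y + 1) := by
  show ring y h y = _
  exact Function.update_self _ _ _

/-! ## Rings in a time interval -/

/-- rings in the box during `(s, t]` -/
def rgs (c : ℤ → Set ℝ) (Λ : Finset ℤ) (s t : ℝ) : Set (ℝ ×ₗ ℤ) :=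
  {p | (ofLex p).2 ∈ Λ ∧ (ofLex p).1 ∈ c (ofLex p).2 ∩ Set.Ioc s t}

theorem rgs_finite {c : ℤ → Set ℝ} (hc : ∀ x (t : ℝ), (c x ∩ Set.Ioc 0 t).Finite) (Λ : Finset ℤ)
    {s : ℝ} (hs : 0 ≤ s) (t : ℝ) : (rgs c Λ s t).Finite := by
  have h1 : (⋃ x ∈ Λ, (fun τ : ℝ => toLex (τ, x)) '' (c x ∩ Set.Ioc 0 t)).Finite :=
    (Finset.finite_toSet Λ).biUnion (fun x _ => (hc x t).image _)
  apply h1.subset
  intro p hp
  simp only [Set.mem_iUnion]
  refine ⟨(ofLex p).2, hp.1, (ofLex p).1, ⟨hp.2.1, lt_of_le_of_lt hs hp.2.2.1, hp.2.2.2⟩, ?_⟩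
  rfl

open Classical in
/-- the sites of the rings in `(s, t]` in the order of time -/
noncomputable def rlist (c : ℤ → Set ℝ) (Λ : Finset ℤ) (s t : ℝ) : List ℤ :=
  if h : (rgs c Λ s t).Finite then
    (h.toFinset.sort (fun a b => a ≤ b)).map (fun p => (ofLex p).2) else []

theorem ringList_eq_rlist (c : ℤ → Set ℝ) (Λ : Finset ℤ) (t : ℝ) :
    ringList c Λ t = rlist c Λ 0 t := rfl

theorem sort_append {α : Type} [LinearOrder α] {F F₁ F₂ : Finset α}
    (hF : ∀ p, p ∈ F ↔ p ∈ F₁ ∨ p ∈ F₂) (hlt : ∀ p ∈ F₁, ∀ q ∈ F₂, p < q) :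
    F.sort (fun a b => a ≤ b) = F₁.sort (fun a b => a ≤ b) ++ F₂.sort (fun a b => a ≤ b) := by
  have hnd : (F₁.sort (fun a b => a ≤ b) ++ F₂.sort (fun a b => a ≤ b)).Nodup := by
    rw [List.nodup_append]
    refine ⟨Finset.sort_nodup _ _, Finset.sort_nodup _ _, ?_⟩
    intro a ha b hb
    rw [Finset.mem_sort] at ha hb
    exact (hlt a ha b hb).ne
  have hpw : (F₁.sort (fun a b => a ≤ b) ++ F₂.sort (fun a b => a ≤ b)).Pairwise
      (fun a b => a ≤ b) := by
    rw [List.pairwise_append]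
    refine ⟨Finset.pairwise_sort _ _, Finset.pairwise_sort _ _, ?_⟩
    intro a ha b hb
    rw [Finset.mem_sort] at ha hb
    exact (hlt a ha b hb).le
  have h1 := (List.toFinset_sort (r := fun a b : α => a ≤ b) hnd).2 hpw
  have h2 : (F₁.sort (fun a b => a ≤ b) ++ F₂.sort (fun a b => a ≤ b)).toFinset = F := by
    ext p
    rw [List.mem_toFinset, List.mem_append, Finset.mem_sort, Finset.mem_sort, hF]
  rw [h2] at h1
  exact h1

theorem rlist_append {c : ℤ → Set ℝ} (hc : ∀ x (t : ℝ), (c x ∩ Set.Ioc 0 t).Finite)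
    (Λ : Finset ℤ) {s t u : ℝ} (hs : 0 ≤ s) (hst : s ≤ t) (htu : t ≤ u) :
    rlist c Λ s u = rlist c Λ s t ++ rlist c Λ t u := by
  have f1 := rgs_finite hc Λ hs u
  have f2 := rgs_finite hc Λ hs t
  have f3 := rgs_finite hc Λ (hs.trans hst) u
  unfold rlist
  rw [dif_pos f1, dif_pos f2, dif_pos f3, ← List.map_append]
  congr 1
  apply sort_append
  · intro p
    simp only [Set.Finite.mem_toFinset]
    constructor
    · rintro ⟨h1, h2, h3⟩
      rcases le_or_gt (ofLex p).1 t with h4 | h4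
      · exact Or.inl ⟨h1, h2, h3.1, h4⟩
      · exact Or.inr ⟨h1, h2, h4, h3.2⟩
    · rintro (⟨h1, h2, h3⟩ | ⟨h1, h2, h3⟩)
      · exact ⟨h1, h2, h3.1, h3.2.trans htu⟩
      · exact ⟨h1, h2, lt_of_le_of_lt hst h3.1, h3.2⟩
  · intro p hp q hq
    rw [Set.Finite.mem_toFinset] at hp hq
    rw [Prod.Lex.lt_iff]
    left
    exact lt_of_le_of_lt hp.2.2.2 hq.2.2.1

theorem mem_rlist {c : ℤ → Set ℝ} (hc : ∀ x (t : ℝ), (c x ∩ Set.Ioc 0 t).Finite)
    (Λ : Finset ℤ) {s : ℝ} (hs : 0 ≤ s) (t : ℝ) {y : ℤ} (hy : y ∈ rlist c Λ s t) :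
    y ∈ Λ ∧ (c y ∩ Set.Ioc s t).Nonempty := by
  unfold rlist at hy
  rw [dif_pos (rgs_finite hc Λ hs t), List.mem_map] at hy
  obtain ⟨p, hp, rfl⟩ := hy
  rw [Finset.mem_sort, Set.Finite.mem_toFinset] at hp
  exact ⟨hp.1, _, hp.2⟩

theorem rlist_self (c : ℤ → Set ℝ) (Λ : Finset ℤ) (s : ℝ) : rlist c Λ s s = [] := by
  unfold rlist
  have : rgs c Λ s s = ∅ := by
    rw [Set.eq_empty_iff_forall_notMem]
    rintro p ⟨-, -, h1, h2⟩
    exact absurd h1 (not_lt.2 h2)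
  split_ifs with h
  · have h2 : h.toFinset = ∅ := by
      ext p
      simp [this]
    rw [h2]
    simp
  · rfl

/-- just before a ring time of `y` the list of rings is the list without the last `y` -/
theorem rlist_before {c : ℤ → Set ℝ} (hc : ∀ x (t : ℝ), (c x ∩ Set.Ioc 0 t).Finite)
    (hd : ∀ x y (t : ℝ), x ≠ y → 0 < t → t ∈ c x → t ∉ c y)
    {Λ : Finset ℤ} {y : ℤ} (hy : y ∈ Λ) {τ : ℝ} (hτ : 0 < τ) (hτy : τ ∈ c y) :
    ∃ ε > 0, ε < τ ∧ ∀ s ∈ Set.Ioo (τ - ε) τ, rlist c Λ s τ = [y] := by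
  -- times different from `τ`
  have hfin : ((fun p : ℝ ×ₗ ℤ => (ofLex p).1) '' (rgs c Λ 0 τ) \ {τ}).Finite :=
    ((rgs_finite hc Λ le_rfl τ).image _).sdiff
  have hlt : ∀ r ∈ ((fun p : ℝ ×ₗ ℤ => (ofLex p).1) '' (rgs c Λ 0 τ) \ {τ}), r < τ := by
    rintro r ⟨⟨p, hp, rfl⟩, hr⟩
    exact lt_of_le_of_ne hp.2.2.2 hr
  obtain ⟨m, hm0, hmτ, hm⟩ : ∃ m : ℝ, 0 ≤ m ∧ m < τ ∧
      ∀ r ∈ ((fun p : ℝ ×ₗ ℤ => (ofLex p).1) '' (rgs c Λ 0 τ) \ {τ}), r ≤ m := by
    have hne : (insert 0 hfin.toFinset).Nonempty := Finset.insert_nonempty _ _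
    refine ⟨(insert 0 hfin.toFinset).max' hne, ?_, ?_, ?_⟩
    · exact Finset.le_max' _ _ (Finset.mem_insert_self _ _)
    · rw [Finset.max'_lt_iff]
      intro r hr
      rw [Finset.mem_insert, Set.Finite.mem_toFinset] at hr
      rcases hr with rfl | hr
      · exact hτ
      · exact hlt r hr
    · intro r hr
      exact Finset.le_max' _ _ (Finset.mem_insert_of_mem ((Set.Finite.mem_toFinset _).2 hr))
  refine ⟨(τ - m) / 2, by linarith, by linarith, ?_⟩
  rintro s ⟨hs1, hs2⟩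
  have hs0 : 0 ≤ s := by linarith
  have hsm : m < s := by linarith
  have hset : rgs c Λ s τ = {toLex (τ, y)} := by
    ext p
    rw [Set.mem_singleton_iff]
    constructor
    · rintro ⟨h1, h2, h3⟩
      have h4 : (ofLex p).1 = τ := by
        by_contra hne
        have h5 := hm (ofLex p).1 ⟨⟨p, ⟨h1, h2, by linarith [h3.1], h3.2⟩, rfl⟩, hne⟩
        linarith [h3.1]
      have h5 : (ofLex p).2 = y := by
        by_contra hne
        rw [h4] at h2
        exact hd y (ofLex p).2 τ (fun h => hne h.symm) hτ hτy h2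
      have : ofLex p = (τ, y) := Prod.ext h4 h5
      rw [← this]
      rfl
    · rintro rfl
      exact ⟨hy, hτy, hs2, le_refl _⟩
  unfold rlist
  rw [dif_pos (rgs_finite hc Λ hs0 τ)]
  have h6 : (rgs_finite hc Λ hs0 τ).toFinset = {toLex (τ, y)} := by
    ext p
    rw [Set.Finite.mem_toFinset, hset]
    simp
  rw [h6, Finset.sort_singleton]
  rfl

/-! ## The rule at the sites of a set -/

/-- `H` obeys the rule of ballistic deposition at the sites of `A` -/
def Obeys (c : ℤ → Set ℝ) (H : ℝ → Config) (A : Set ℤ) : Prop :=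
  (∀ x ∈ A, ∀ (a b : ℝ), 0 ≤ a → a ≤ b → c x ∩ Set.Ioc a b = ∅ → H b x = H a x) ∧
  (∀ x ∈ A, ∀ (t : ℝ), 0 < t → t ∈ c x → ∃ ε > 0, ε < t ∧ ∀ s ∈ Set.Ioo (t - ε) t,
    H t x = max (max (H s (x - 1)) (H s (x + 1))) (H s x + 1))

theorem obeys_box {c : ℤ → Set ℝ} (hc : ∀ x (t : ℝ), (c x ∩ Set.Ioc 0 t).Finite)
    (hd : ∀ x y (t : ℝ), x ≠ y → 0 < t → t ∈ c x → t ∉ c y) (Λ : Finset ℤ) (h : Config) :
    Obeys c (fun t => run (ringList c Λ t) h) (Λ : Set ℤ) := by
  constructor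
  · intro x hx a b ha hab hemp
    simp only [ringList_eq_rlist]
    rw [rlist_append hc Λ le_rfl ha hab, run_append']
    apply run_of_notMem
    intro hmem
    have := (mem_rlist hc Λ ha b hmem).2
    rw [hemp] at this
    exact Set.not_nonempty_empty this
  · intro x hx t ht htx
    obtain ⟨ε, hε, hεt, hs⟩ := rlist_before hc hd (Finset.mem_coe.1 hx) ht htx
    refine ⟨ε, hε, hεt, ?_⟩
    intro s hsI
    simp only [ringList_eq_rlist]
    have hs0 : 0 ≤ s := by linarith [hsI.1]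
    rw [rlist_append hc Λ le_rfl hs0 hsI.2.le, run_append', hs s hsI]
    exact run_singleton x _

theorem Obeys.mono {c : ℤ → Set ℝ} {H : ℝ → Config} {A B : Set ℤ} (h : Obeys c H B)
    (hAB : A ⊆ B) : Obeys c H A :=
  ⟨fun x hx => h.1 x (hAB hx), fun x hx => h.2 x (hAB hx)⟩

theorem obeys_of_trajectory {c : ℤ → Set ℝ} {H : ℝ → Config} (h : IsBDTrajectory c H)
    (A : Set ℤ) : Obeys c H A :=
  ⟨fun x _ => h.1 x, fun x _ => h.2 x⟩

/-- uniqueness between two ring-free sites -/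
theorem obeys_unique {c : ℤ → Set ℝ} (hc : ∀ x (t : ℝ), (c x ∩ Set.Ioc 0 t).Finite)
    {H G : ℝ → Config} {a b : ℤ} {T : ℝ} (hH : Obeys c H (Set.Icc a b))
    (hG : Obeys c G (Set.Icc a b)) (ha : c a ∩ Set.Ioc 0 T = ∅) (hb : c b ∩ Set.Ioc 0 T = ∅)
    (h0 : ∀ y ∈ Set.Icc a b, H 0 y = G 0 y) :
    ∀ s, 0 ≤ s → s ≤ T → ∀ y ∈ Set.Icc a b, H s y = G s y := by
  have key : ∀ (k : ℕ) (s : ℝ), 0 ≤ s → s ≤ T → (rgs c (Finset.Icc a b) 0 s).ncard ≤ k →
      ∀ y ∈ Set.Icc a b, H s y = G s y := by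
    intro k
    induction k with
    | zero =>
      intro s hs hsT hk y hy
      have hfin := rgs_finite hc (Finset.Icc a b) le_rfl s
      have hemp : rgs c (Finset.Icc a b) 0 s = ∅ := by
        rw [← Set.ncard_eq_zero hfin]
        omega
      have h1 : c y ∩ Set.Ioc 0 s = ∅ := by
        rw [Set.eq_empty_iff_forall_notMem]
        intro τ hτ
        have : toLex (τ, y) ∈ rgs c (Finset.Icc a b) 0 s := ⟨Finset.mem_Icc.2 hy, hτ⟩
        rw [hemp] at this
        exact this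
      rw [hH.1 y hy 0 s le_rfl hs h1, hG.1 y hy 0 s le_rfl hs h1]
      exact h0 y hy
    | succ k ih =>
      intro s hs hsT hk y hy
      by_cases h1 : c y ∩ Set.Ioc 0 s = ∅
      · rw [hH.1 y hy 0 s le_rfl hs h1, hG.1 y hy 0 s le_rfl hs h1]
        exact h0 y hy
      · have hne : (c y ∩ Set.Ioc 0 s).Nonempty := Set.nonempty_iff_ne_empty.2 h1
        obtain ⟨τ, hτ, hmax⟩ := Set.exists_max_image _ id (hc y s) hne
        simp only [id] at hmax
        have hτ0 : 0 < τ := hτ.2.1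
        have h2 : c y ∩ Set.Ioc τ s = ∅ := by
          rw [Set.eq_empty_iff_forall_notMem]
          rintro r ⟨hr1, hr2, hr3⟩
          have := hmax r ⟨hr1, hτ0.trans hr2, hr3⟩
          linarith
        rw [hH.1 y hy τ s hτ0.le hτ.2.2 h2, hG.1 y hy τ s hτ0.le hτ.2.2 h2]
        have hya : y ≠ a := by
          rintro rfl
          have : τ ∈ c y ∩ Set.Ioc 0 T := ⟨hτ.1, hτ0, hτ.2.2.trans hsT⟩
          rw [ha] at this
          exact this
        have hyb : y ≠ b := by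
          rintro rfl
          have : τ ∈ c y ∩ Set.Ioc 0 T := ⟨hτ.1, hτ0, hτ.2.2.trans hsT⟩
          rw [hb] at this
          exact this
        have hy1 : y - 1 ∈ Set.Icc a b := by
          rw [Set.mem_Icc] at hy ⊢
          omega
        have hy2 : y + 1 ∈ Set.Icc a b := by
          rw [Set.mem_Icc] at hy ⊢
          omega
        obtain ⟨ε, hε, hετ, hεH⟩ := hH.2 y hy τ hτ0 hτ.1
        obtain ⟨ε', hε', hετ', hεG⟩ := hG.2 y hy τ hτ0 hτ.1
        -- a time just before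
        obtain ⟨u, hu1, hu2⟩ : ∃ u, max (τ - ε) (τ - ε') < u ∧ u < τ :=
          exists_between (max_lt (by linarith) (by linarith))
        have hu1' := lt_of_le_of_lt (le_max_left _ _) hu1
        have hu1'' := lt_of_le_of_lt (le_max_right _ _) hu1
        have hu0 : 0 ≤ u := by linarith
        have hcard : (rgs c (Finset.Icc a b) 0 u).ncard ≤ k := by
          have hsub : rgs c (Finset.Icc a b) 0 u ⊂ rgs c (Finset.Icc a b) 0 s := by
            rw [Set.ssubset_iff_of_subset]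
            · refine ⟨toLex (τ, y), ⟨Finset.mem_Icc.2 hy, hτ⟩, ?_⟩
              rintro ⟨-, -, -, h3⟩
              exact absurd h3 (not_le.2 hu2)
            · rintro p ⟨h3, h4, h5, h6⟩
              exact ⟨h3, h4, h5, h6.trans (hu2.le.trans hτ.2.2)⟩
          have := Set.ncard_lt_ncard hsub (rgs_finite hc (Finset.Icc a b) le_rfl s)
          omega
        have huT : u ≤ T := hu2.le.trans (hτ.2.2.trans hsT)
        rw [hεH u ⟨hu1', hu2⟩, hεG u ⟨hu1'', hu2⟩, ih u hu0 huT hcard y hy,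
          ih u hu0 huT hcard _ hy1, ih u hu0 huT hcard _ hy2]
  intro s hs hsT y hy
  exact key _ s hs hsT le_rfl y hy

theorem icc_subset_box {a b : ℤ} {n : ℕ} (ha : -(n : ℤ) ≤ a) (hb : b ≤ n) :
    Set.Icc a b ⊆ ((box n : Finset ℤ) : Set ℤ) := by
  intro y hy
  rw [Finset.mem_coe, box, Finset.mem_Icc]
  exact ⟨ha.trans hy.1, hy.2.trans hb⟩

/-- free sites around a given site -/
theorem exists_free {c : ℤ → Set ℝ} (hc : Nice c) (T : ℝ) (x : ℤ) :
    ∃ a b : ℤ, a < x - 1 ∧ x + 1 < b ∧ c a ∩ Set.Ioc 0 T = ∅ ∧ c b ∩ Set.Ioc 0 T = ∅ := by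
  obtain ⟨⟨a, ha, ha'⟩, ⟨b, hb, hb'⟩⟩ := hc.free T (x.natAbs + 2)
  refine ⟨a, b, ?_, ?_, ha', hb'⟩
  · omega
  · omega

end Pool.BDep
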