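import Mathlib
import Pool.Agent.Work.MP_c264fd_pr_h14.TrajBox

open MeasureTheory ProbabilityTheory Filter Topology

namespace Pool.BDep

theorem ringList_zero (c : ℤ → Set ℝ) (Λ : Finset ℤ) : ringList c Λ 0 = [] := by
  rw [ringList_eq_rlist, rlist_self]

/-- Block TrajUnique -/
theorem stmt_TrajUnique : Stmt_TrajUnique := by
  intro c H hc hH t x ht
  obtain ⟨a, b, ha, hb, ha', hb'⟩ := exists_free hc t x
  filter_upwards [eventually_ge_atTop (max a.natAbs b.natAbs)] with n hn
  have hn1 : a.natAbs ≤ n := (le_max_left _ _).trans hn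
  have hn2 : b.natAbs ≤ n := (le_max_right _ _).trans hn
  have hsub : Set.Icc a b ⊆ ((box n : Finset ℤ) : Set ℤ) :=
    icc_subset_box (by omega) (by omega)
  have hG := (obeys_box hc.finite hc.distinct (box n) (H 0)).mono hsub
  refine obeys_unique hc.finite (obeys_of_trajectory hH _) hG ha' hb' ?_ t ht le_rfl x ?_
  · intro y _
    simp only [ringList_zero]
    rfl
  · rw [Set.mem_Icc]; omega

/-- two box dynamics agree -/
theorem box_agree {c : ℤ → Set ℝ} (hc : Nice c) (h : Config) {a b : ℤ} {T : ℝ}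
    (ha : c a ∩ Set.Ioc 0 T = ∅) (hb : c b ∩ Set.Ioc 0 T = ∅) {n m : ℕ}
    (hn : Set.Icc a b ⊆ ((box n : Finset ℤ) : Set ℤ))
    (hm : Set.Icc a b ⊆ ((box m : Finset ℤ) : Set ℤ)) :
    ∀ s, 0 ≤ s → s ≤ T → ∀ y ∈ Set.Icc a b,
      run (ringList c (box n) s) h y = run (ringList c (box m) s) h y := by
  refine obeys_unique hc.finite ((obeys_box hc.finite hc.distinct (box n) h).mono hn)
    ((obeys_box hc.finite hc.distinct (box m) h).mono hm) ha hb ?_
  intro y _
  simp only [ringList_zero]

open Classical in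
/-- the infinite volume path -/
noncomputable def path (c : ℤ → Set ℝ) (h : Config) (t : ℝ) : Config := fun x =>
  if hv : ∃ v : ℤ, ∀ᶠ n in atTop, run (ringList c (box n) t) h x = v then hv.choose else h x

theorem path_eq {c : ℤ → Set ℝ} {h : Config} {t : ℝ} {x v : ℤ}
    (hv : ∀ᶠ n in atTop, run (ringList c (box n) t) h x = v) : path c h t x = v := by
  have hex : ∃ v : ℤ, ∀ᶠ n in atTop, run (ringList c (box n) t) h x = v := ⟨v, hv⟩
  unfold path
  rw [dif_pos hex]
  obtain ⟨n, h1, h2⟩ := (hex.choose_spec.and hv).exists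
  rw [← h1, h2]

/-- on a window between free sites the path is the dynamics of one large box -/
theorem path_window {c : ℤ → Set ℝ} (hc : Nice c) (h : Config) {a b : ℤ} {T : ℝ}
    (ha : c a ∩ Set.Ioc 0 T = ∅) (hb : c b ∩ Set.Ioc 0 T = ∅) {n : ℕ}
    (hn : a.natAbs ≤ n) (hn' : b.natAbs ≤ n) :
    ∀ s, 0 ≤ s → s ≤ T → ∀ y ∈ Set.Icc a b, path c h s y = run (ringList c (box n) s) h y := by
  intro s hs hsT y hy
  apply path_eq
  filter_upwards [eventually_ge_atTop n] with m hm
  exact box_agree hc h ha hb (icc_subset_box (by omega) (by omega))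
    (icc_subset_box (by omega) (by omega)) s hs hsT y hy

/-- Block TrajExists -/
theorem stmt_TrajExists : Stmt_TrajExists := by
  intro c h hc
  refine ⟨path c h, ?_, ?_, ?_⟩
  · funext x
    apply path_eq
    filter_upwards with n
    rw [ringList_zero]
    rfl
  · intro x s t hs hst hemp
    obtain ⟨a, b, ha, hb, ha', hb'⟩ := exists_free hc t x
    have hw := path_window hc h ha' hb' (n := max a.natAbs b.natAbs) (le_max_left _ _)
      (le_max_right _ _)
    have hx : x ∈ Set.Icc a b := by rw [Set.mem_Icc]; omega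
    rw [hw s hs hst x hx, hw t (hs.trans hst) le_rfl x hx]
    have hsub : Set.Icc a b ⊆ ((box (max a.natAbs b.natAbs) : Finset ℤ) : Set ℤ) :=
      icc_subset_box (by have := le_max_left a.natAbs b.natAbs; omega)
        (by have := le_max_right a.natAbs b.natAbs; omega)
    exact (obeys_box hc.finite hc.distinct _ h).1 x (hsub hx) s t hs hst hemp
  · intro x t ht htx
    obtain ⟨a, b, ha, hb, ha', hb'⟩ := exists_free hc t x
    have hw := path_window hc h ha' hb' (n := max a.natAbs b.natAbs) (le_max_left _ _)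
      (le_max_right _ _)
    have hx : x ∈ Set.Icc a b := by rw [Set.mem_Icc]; omega
    have hx1 : x - 1 ∈ Set.Icc a b := by rw [Set.mem_Icc]; omega
    have hx2 : x + 1 ∈ Set.Icc a b := by rw [Set.mem_Icc]; omega
    have hsub : Set.Icc a b ⊆ ((box (max a.natAbs b.natAbs) : Finset ℤ) : Set ℤ) :=
      icc_subset_box (by have := le_max_left a.natAbs b.natAbs; omega)
        (by have := le_max_right a.natAbs b.natAbs; omega)
    obtain ⟨ε, hε, hεt, hεs⟩ :=
      (obeys_box hc.finite hc.distinct (box (max a.natAbs b.natAbs)) h).2 x (hsub hx) t ht htx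
    refine ⟨ε, hε, hεt, ?_⟩
    intro s hs
    have hs0 : 0 ≤ s := by linarith [hs.1]
    rw [hw t ht.le le_rfl x hx, hw s hs0 hs.2.le x hx, hw s hs0 hs.2.le _ hx1,
      hw s hs0 hs.2.le _ hx2]
    exact hεs s hs

end Pool.BDep
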