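import Pool.Agent.Work.MP_c264fd_pr_h14.RhoExp

/-!
# UU: the growth function of the slope one profile
-/

open MeasureTheory ProbabilityTheory Filter Topology
open scoped ENNReal NNReal

namespace Pool.BDep

open Rho

namespace UUb

theorem mem_box {n : ℕ} {x : ℤ} : x ∈ box n ↔ -(n : ℤ) ≤ x ∧ x ≤ n := by
  unfold box
  rw [Finset.mem_Icc]

theorem box_mono {m n : ℕ} (h : m ≤ n) : box m ⊆ box n := by
  intro x hx
  rw [mem_box] at hx ⊢
  omega

theorem exists_box (Λ : Finset ℤ) : ∃ n : ℕ, ∀ m ≥ n, Λ ⊆ box m := by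
  refine ⟨∑ x ∈ Λ, x.natAbs, fun m hm x hx => ?_⟩
  have h1 : x.natAbs ≤ ∑ x ∈ Λ, x.natAbs :=
    Finset.single_le_sum (f := fun x => Int.natAbs x) (fun _ _ => Nat.zero_le _) hx
  rw [mem_box]
  omega

theorem uu_mono (hDet : Stmt_Det) {Λ Λ' : Finset ℤ} (h : Λ ⊆ Λ') (x : ℤ) {t : ℝ} (ht : 0 ≤ t) :
    uu Λ x t ≤ uu Λ' x t := by
  unfold uu
  rw [← stmt_RhoFilter Λ Λ' t ht h, lintegral_map (measurable_of_countable _)
    (measurable_of_countable _)]
  refine lintegral_mono fun l => ENNReal.ofReal_le_ofReal ?_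
  have h1 := hDet.2.2.2.2.1 l lin (fun y => decide (y ∈ Λ)) x
  exact_mod_cast sub_le_sub_right h1 x

theorem uu_shift (hDet : Stmt_Det) (Λ : Finset ℤ) (x : ℤ) (t : ℝ) :
    uu (Λ.image (· + x)) x t = uu Λ 0 t := by
  unfold uu
  rw [← stmt_RhoShift Λ t x, lintegral_map (measurable_of_countable _)
    (measurable_of_countable _)]
  refine lintegral_congr fun l => ?_
  have h1 := hDet.2.2.2.2.2.1 l lin x x
  have h2 := hDet.2.1 l lin x 0
  have h3 : (fun y => lin (y + x)) = fun y => lin y + x := by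
    funext y
    rfl
  rw [h1, h3, sub_self, h2]
  congr 2
  ring

theorem uu_le (hDet : Stmt_Det) (Λ : Finset ℤ) (x : ℤ) (t : ℝ) : uu Λ x t ≤ UU t := by
  have h1 : Λ = (Λ.image (· + (-x))).image (· + x) := by
    rw [Finset.image_image]
    conv_lhs => rw [← Finset.image_id (s := Λ)]
    refine Finset.image_congr fun y _ => ?_
    simp
  rw [h1, uu_shift hDet]
  exact le_iSup (fun Λ => uu Λ 0 t) _

theorem uu_time (hDet : Stmt_Det) (Λ : Finset ℤ) (x : ℤ) {s t : ℝ} (hs : 0 ≤ s) (hst : s ≤ t) :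
    uu Λ x s ≤ uu Λ x t := by
  have hst' : 0 ≤ t - s := sub_nonneg.mpr hst
  have h1 := stmt_RhoAdd Λ s (t - s) hs hst'
  rw [add_sub_cancel] at h1
  have := stmt_RhoProb Λ s hs
  have := stmt_RhoProb Λ (t - s) hst'
  unfold uu
  rw [← h1, lintegral_map (measurable_of_countable _) (measurable_of_countable _),
    lintegral_prod _ (measurable_of_countable _).aemeasurable]
  refine lintegral_mono fun l => ?_
  calc ENNReal.ofReal ((run l lin x - x : ℤ) : ℝ)
      = ∫⁻ _l', ENNReal.ofReal ((run l lin x - x : ℤ) : ℝ) ∂(rho Λ (t - s)) := by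
        rw [lintegral_const, measure_univ, mul_one]
    _ ≤ ∫⁻ l', ENNReal.ofReal ((run (l ++ l') lin x - x : ℤ) : ℝ) ∂(rho Λ (t - s)) := by
        refine lintegral_mono fun l' => ENNReal.ofReal_le_ofReal ?_
        rw [hDet.2.2.1 l l' lin]
        have h2 := hDet.2.2.2.1 l' (run l lin) x
        exact_mod_cast sub_le_sub_right h2 x

end UUb

open UUb

theorem stmt_UU (hDet : Stmt_Det) (hUB : Stmt_UB) : Stmt_UU := by
  refine ⟨fun Λ x t _ => uu_le hDet Λ x t, fun x t ht => ?_, fun s t hs hst => ?_, ?_⟩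
  · have hmono : Monotone fun n => uu (box n) x t := fun m n h => uu_mono hDet (box_mono h) x ht
    have h1 := tendsto_atTop_iSup hmono
    have h2 : ⨆ n, uu (box n) x t = UU t := by
      refine le_antisymm (iSup_le fun n => uu_le hDet _ _ _) ?_
      unfold UU
      refine iSup_le fun Λ => ?_
      rw [← uu_shift hDet Λ x t]
      obtain ⟨n, hn⟩ := exists_box (Λ.image (· + x))
      exact (uu_mono hDet (hn n le_rfl) x ht).trans (le_iSup (fun n => uu (box n) x t) n)
    rw [← h2]
    exact h1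
  · unfold UU
    exact iSup_mono fun Λ => uu_time hDet Λ 0 hs hst
  · obtain ⟨C, hC, hUB⟩ := hUB
    refine ⟨C, hC, fun t ht => ?_⟩
    unfold UU
    refine iSup_le fun Λ => ?_
    set θ := Real.log (10 / 7) with hθ
    have hθ0 : 0 < θ := Real.log_pos (by norm_num)
    set a : ℝ := 10389 / 10000 * t with ha
    have ha0 : 0 ≤ a := by positivity
    have := stmt_RhoProb Λ t ht
    have h1 : ∀ l : List ℤ, ENNReal.ofReal ((run l lin 0 - 0 : ℤ) : ℝ) ≤
        ENNReal.ofReal (Real.exp (-a) / θ) * ENNReal.ofReal ((10 / 7 : ℝ) ^ (run l lin 0)) +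
          ENNReal.ofReal (a / θ) := by
      intro l
      rw [sub_zero, ← ENNReal.ofReal_mul (by positivity),
        ← ENNReal.ofReal_add (by positivity) (by positivity)]
      apply ENNReal.ofReal_le_ofReal
      set M := run l lin 0 with hM
      have h2 : (10 / 7 : ℝ) ^ M = Real.exp (θ * M) := by
        rw [← Real.rpow_intCast, Real.rpow_def_of_pos (by norm_num)]
      rw [h2, div_mul_eq_mul_div, ← Real.exp_add, ← add_div, le_div_iff₀ hθ0]
      have h3 := Real.add_one_le_exp (-a + θ * M)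
      linarith
    unfold uu
    calc ∫⁻ l, ENNReal.ofReal ((run l lin 0 - 0 : ℤ) : ℝ) ∂(rho Λ t)
        ≤ ∫⁻ l, (ENNReal.ofReal (Real.exp (-a) / θ) *
            ENNReal.ofReal ((10 / 7 : ℝ) ^ (run l lin 0)) + ENNReal.ofReal (a / θ)) ∂(rho Λ t) :=
          lintegral_mono h1
      _ = ENNReal.ofReal (Real.exp (-a) / θ) *
            ∫⁻ l, ENNReal.ofReal ((10 / 7 : ℝ) ^ (run l lin 0)) ∂(rho Λ t) +
              ENNReal.ofReal (a / θ) := by
          rw [lintegral_add_right _ measurable_const, lintegral_const, measure_univ, mul_one,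
            lintegral_const_mul _ (measurable_of_countable _)]
      _ ≤ ENNReal.ofReal (Real.exp (-a) / θ) * ENNReal.ofReal (C * Real.exp a) +
            ENNReal.ofReal (a / θ) := add_le_add_left (mul_le_mul_right (hUB Λ t ht) _) _
      _ = ENNReal.ofReal ((a + C) / θ) := by
          rw [← ENNReal.ofReal_mul (by positivity),
            ← ENNReal.ofReal_add (by positivity) (by positivity)]
          congr 1
          have h4 : Real.exp (-a) / θ * (C * Real.exp a) = C * (Real.exp (-a) * Real.exp a) / θ := by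
            ring
          rw [h4, ← Real.exp_add, neg_add_cancel, Real.exp_zero, mul_one, ← add_div, add_comm]

end Pool.BDep
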