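import Pool.Agent.Work.MP_c264fd_pr_h14.UBLocal
import Pool.Agent.Work.MP_c264fd_pr_h14.RhoExp
import Pool.Agent.Work.MP_c264fd_pr_h14.UU

open MeasureTheory Filter Topology
open scoped ENNReal

namespace Pool.BDep.UB

open Classical in
/-- killed functional -/
noncomputable def Ph (Λ : Finset ℤ) (l : List ℤ) : ℝ≥0∞ :=
  if ∀ y, dual l y ≠ ⊥ → y ∈ Λ then V (dual l) else 0

theorem dual_nil_term (y : ℤ) (hy : y ≠ 0) : term (dual []) y = 0 := by
  apply term_bot
  simp [dual, hy]

theorem V_nil : V (dual []) ≤ ENNReal.ofReal (fr 0) := by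
  unfold V
  rw [tsum_eq_single 0 (fun y hy => dual_nil_term y hy)]
  rw [term_coe (dual []) 0 0 (by simp [dual])]
  apply ENNReal.ofReal_le_ofReal
  have h : Ft (win (dual []) 0 0) ≤ fr 0 := by
    apply Ft_le _ _ (by decide)
    intro s hs
    rw [row_zero s hs]
    split_ifs with h
    · subst h
      rw [win_center (dual []) 0 0 (by simp [dual])]
    · exact Nat.zero_le _
  have : (Ft (win (dual []) 0 0) : ℝ) ≤ fr 0 := by exact_mod_cast h
  simpa using this

theorem Ft_pos (w : ℕ → ℕ) (h4 : 4 ≤ w 4) : 1 ≤ Ft w := by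
  obtain ⟨i, hi, _, he⟩ := Ft_att w h4
  obtain ⟨tg, hR⟩ := row_facts i hi
  rw [← he]; exact hR.pos

theorem exp_le_V (l : List ℤ) :
    ENNReal.ofReal ((10 / 7 : ℝ) ^ (run l lin 0)) ≤ V (dual l) := by
  obtain ⟨y, k, hk, hr⟩ := dual_attain l lin
  have h1 : term (dual l) y ≤ V (dual l) := ENNReal.le_tsum y
  refine le_trans ?_ h1
  rw [term_coe _ _ _ hk, hr]
  apply ENNReal.ofReal_le_ofReal
  have h2 : (1 : ℝ) ≤ (Ft (win (dual l) y k) : ℝ) := by
    exact_mod_cast Ft_pos _ (by rw [win_center _ _ _ hk])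
  have h3 : (0 : ℝ) ≤ (10 / 7 : ℝ) ^ (y + k) := by positivity
  have h4 : lin y + k = y + k := rfl
  rw [h4]
  nlinarith

theorem int_Ph (Λ : Finset ℤ) (t : ℝ) (ht : 0 ≤ t) :
    ∫⁻ l, Ph Λ l ∂(rho Λ t) ≤ ENNReal.ofReal (fr 0 * Real.exp (gam * t)) := by
  apply stmt_RhoExp Λ t gam (fr 0) (Ph Λ) ht (by unfold gam; norm_num) (by positivity)
  · unfold Ph
    split_ifs
    · exact V_nil
    · exact bot_le
  · intro l _
    unfold Ph
    by_cases h : ∀ y, dual l y ≠ ⊥ → y ∈ Λ
    · rw [if_pos h]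
      refine le_trans (Finset.sum_le_sum fun x _ => ?_) (V_ineq (dual l) Λ h)
      split_ifs
      · exact le_rfl
      · exact bot_le
    · rw [if_neg h, mul_zero]
      apply le_of_eq
      apply Finset.sum_eq_zero
      intro x _
      rw [if_neg]
      intro h2
      apply h
      intro y hy
      apply h2
      intro hb
      apply hy
      have := le_dring x (dual l) y
      simp only [dual] at hb
      rw [hb] at this
      exact le_bot_iff.1 this

theorem rho_bad (n : ℕ) (t : ℝ) (ht : 0 ≤ t) :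
    rho (box n) t {l | ¬ ∀ y, dual l y ≠ ⊥ → y ∈ box n} ≤
      ENNReal.ofReal (2 * Real.exp t / 2 ^ (n + 1)) := by
  refine le_trans (measure_mono ?_) (stmt_RhoEnds (box n) t 0 (n + 1) ht)
  intro l hl
  simp only [Set.mem_ofPred_eq, not_forall] at hl ⊢
  obtain ⟨y, hy, hyn⟩ := hl
  have h1 := dual_supp l y hy
  rw [UUb.mem_box] at hyn
  push_cast
  omega

/-- truncated bound -/
theorem trunc_bound (hDet : Stmt_Det) (Λ : Finset ℤ) (t : ℝ) (ht : 0 ≤ t) (M : ℝ) (hM : 0 ≤ M) :
    ∫⁻ l, min (ENNReal.ofReal ((10 / 7 : ℝ) ^ (run l lin 0))) (ENNReal.ofReal M) ∂(rho Λ t) ≤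
      ENNReal.ofReal (fr 0 * Real.exp (gam * t)) := by
  obtain ⟨n0, hn0⟩ := UUb.exists_box Λ
  have key : ∀ n ≥ n0,
      ∫⁻ l, min (ENNReal.ofReal ((10 / 7 : ℝ) ^ (run l lin 0))) (ENNReal.ofReal M) ∂(rho Λ t) ≤
      ENNReal.ofReal (fr 0 * Real.exp (gam * t)) +
        ENNReal.ofReal M * ENNReal.ofReal (2 * Real.exp t / 2 ^ (n + 1)) := by
    intro n hn
    rw [← stmt_RhoFilter Λ (box n) t ht (hn0 n hn)]
    rw [lintegral_map (measurable_of_countable _) (measurable_of_countable _)]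
    have hdet := hDet.2.2.2.2.1
    calc ∫⁻ l, min (ENNReal.ofReal ((10 / 7 : ℝ) ^ (run (l.filter (· ∈ Λ)) lin 0)))
          (ENNReal.ofReal M) ∂(rho (box n) t)
        ≤ ∫⁻ l, (Ph (box n) l +
            Set.indicator {l | ¬ ∀ y, dual l y ≠ ⊥ → y ∈ box n} (fun _ => ENNReal.ofReal M) l)
            ∂(rho (box n) t) := by
          apply lintegral_mono
          intro l
          by_cases h : ∀ y, dual l y ≠ ⊥ → y ∈ box n
          · refine le_trans (min_le_left _ _) ?_
            refine le_trans ?_ le_self_add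
            have h1 : Ph (box n) l = V (dual l) := by unfold Ph; rw [if_pos h]
            rw [h1]
            refine le_trans (ENNReal.ofReal_le_ofReal ?_) (exp_le_V l)
            exact zpow_le_zpow_right₀ (by norm_num) (hdet l lin _ 0)
          · refine le_trans (min_le_right _ _) ?_
            show ENNReal.ofReal M ≤ Ph (box n) l +
              Set.indicator {l | ¬ ∀ y, dual l y ≠ ⊥ → y ∈ box n} (fun _ => ENNReal.ofReal M) l
            rw [Set.indicator_of_mem (show l ∈ {l | ¬ ∀ y, dual l y ≠ ⊥ → y ∈ box n} from h)]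
            exact le_add_self
      _ = ∫⁻ l, Ph (box n) l ∂(rho (box n) t) +
            ENNReal.ofReal M * rho (box n) t {l | ¬ ∀ y, dual l y ≠ ⊥ → y ∈ box n} := by
          rw [lintegral_add_left (measurable_of_countable _),
            lintegral_indicator_const (DiscreteMeasurableSpace.forall_measurableSet _)]
      _ ≤ _ := by
          gcongr
          · exact int_Ph (box n) t ht
          · exact rho_bad n t ht
  have hlim : Tendsto (fun n : ℕ => ENNReal.ofReal (fr 0 * Real.exp (gam * t)) +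
        ENNReal.ofReal M * ENNReal.ofReal (2 * Real.exp t / 2 ^ (n + 1))) atTop
        (𝓝 (ENNReal.ofReal (fr 0 * Real.exp (gam * t)) + ENNReal.ofReal M * 0)) := by
    apply Tendsto.add tendsto_const_nhds
    apply ENNReal.Tendsto.const_mul _ (Or.inr ENNReal.ofReal_ne_top)
    rw [← ENNReal.ofReal_zero]
    apply ENNReal.tendsto_ofReal
    have h1 : Tendsto (fun n : ℕ => (2 * Real.exp t / 2) * (1 / 2 : ℝ) ^ n) atTop
        (𝓝 ((2 * Real.exp t / 2) * 0)) :=
      (tendsto_pow_atTop_nhds_zero_of_lt_one (by norm_num) (by norm_num)).const_mul _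
    rw [mul_zero] at h1
    refine h1.congr fun n => ?_
    rw [one_div, inv_pow, pow_succ]
    field_simp
  rw [mul_zero, add_zero] at hlim
  exact ge_of_tendsto hlim (eventually_atTop.2 ⟨n0, key⟩)

theorem full_bound (hDet : Stmt_Det) (Λ : Finset ℤ) (t : ℝ) (ht : 0 ≤ t) :
    ∫⁻ l, ENNReal.ofReal ((10 / 7 : ℝ) ^ (run l lin 0)) ∂(rho Λ t) ≤
      ENNReal.ofReal (fr 0 * Real.exp (gam * t)) := by
  rw [stmt_RhoInt, ENNReal.tsum_eq_iSup_sum]
  apply iSup_le
  intro T
  -- bound on the finite set T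
  obtain ⟨M, hM0, hM⟩ : ∃ M : ℝ, 0 ≤ M ∧ ∀ l ∈ T, (10 / 7 : ℝ) ^ (run l lin 0) ≤ M := by
    refine ⟨∑ l ∈ T, (10 / 7 : ℝ) ^ (run l lin 0), Finset.sum_nonneg fun l _ => by positivity,
      fun l hl => ?_⟩
    exact Finset.single_le_sum (f := fun l => (10 / 7 : ℝ) ^ (run l lin 0))
      (fun l _ => by positivity) hl
  refine le_trans ?_ (trunc_bound hDet Λ t ht M hM0)
  rw [stmt_RhoInt]
  refine le_trans ?_ (ENNReal.sum_le_tsum T)
  apply Finset.sum_le_sum
  intro l hl
  gcongr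
  rw [min_eq_left]
  exact ENNReal.ofReal_le_ofReal (hM l hl)

end Pool.BDep.UB

namespace Pool.BDep

theorem stmt_UB (hDet : Stmt_Det) : Stmt_UB := by
  refine ⟨UB.fr 0, ?_, fun Λ t ht => ?_⟩
  · have : 0 < UB.fr 0 := by
      obtain ⟨tg, hR⟩ := UB.row_facts 0 (by decide)
      exact hR.pos
    exact_mod_cast this
  · have := UB.full_bound hDet Λ t ht
    unfold UB.gam at this
    exact this

end Pool.BDep
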