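import Pool.Agent.Work.MP_c264fd_pr_h14.Core
import Pool.Agent.Work.MP_c264fd_pr_h14.AvgFatou
import Pool.Agent.Work.MP_c264fd_pr_h14.AvgInv
import Pool.Agent.Work.MP_c264fd_pr_h14.AvgShift
import Pool.Agent.Work.MP_c264fd_pr_h14.ClockExists
import Pool.Agent.Work.MP_c264fd_pr_h14.ClockNice
import Pool.Agent.Work.MP_c264fd_pr_h14.Dual
import Pool.Agent.Work.MP_c264fd_pr_h14.Ergodic
import Pool.Agent.Work.MP_c264fd_pr_h14.GoodSeq
import Pool.Agent.Work.MP_c264fd_pr_h14.LB
import Pool.Agent.Work.MP_c264fd_pr_h14.Limit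
import Pool.Agent.Work.MP_c264fd_pr_h14.RhoExp
import Pool.Agent.Work.MP_c264fd_pr_h14.TrajUnique
import Pool.Agent.Work.MP_c264fd_pr_h14.UB
import Pool.Agent.Work.MP_c264fd_pr_h14.UU
import Pool.Agent.Work.MP_c264fd_pr_helper26.ClockLaw
import Pool.Agent.Work.MP_c264fd_pr_helper48.Compare
import Pool.Agent.Work.MP_c264fd_pr_helper48.Num
import Pool.Agent.Work.MP_c264fd_pr_helper94.AvgMoment
import Pool.Agent.Work.MP_c264fd_pr_helper94.Bridge
import Pool.Agent.Work.MP_c264fd_pr_helper94.Det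

open MeasureTheory ProbabilityTheory Filter Topology

namespace Pool.BDep

theorem final_UB : Stmt_UB := stmt_UB stmt_Det

theorem final_LB : Stmt_LB := stmt_LB stmt_RhoProb stmt_RhoLin stmt_Dual

theorem final_UU : Stmt_UU := stmt_UU stmt_Det final_UB

theorem final_Compare : Stmt_Compare :=
  stmt_Compare stmt_Det stmt_RhoProb stmt_RhoFilter stmt_RhoEnds

theorem final_GoodSeq : Stmt_GoodSeq :=
  stmt_GoodSeq stmt_Det stmt_RhoProb final_UU
    (stmt_AvgMoment stmt_RhoInt stmt_RhoFilter stmt_RhoProb stmt_RhoAdd final_UU)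
    (stmt_AvgShift stmt_Det stmt_RhoProb stmt_RhoShift final_Compare)
    (stmt_AvgInv stmt_Det stmt_RhoProb stmt_RhoAdd stmt_RhoSmall final_Compare)
    (stmt_AvgFatou stmt_Det stmt_RhoProb stmt_RhoSupp stmt_RhoAdd stmt_RhoFilter final_UU)

theorem final_Limit : Stmt_Limit := stmt_Limit stmt_Det stmt_RhoProb stmt_RhoSupp

theorem final_Slope : Stmt_Slope :=
  stmt_Slope stmt_Det stmt_RhoProb stmt_RhoEnds stmt_RhoLin final_LB stmt_Num

theorem final_ClockLaw : Stmt_ClockLaw := stmt_ClockLaw stmt_RhoProb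

theorem final_Bridge : Stmt_Bridge :=
  stmt_Bridge stmt_TrajUnique stmt_ClockNice final_ClockLaw stmt_RhoProb

theorem NiceBox.nice {μ : Measure Config} (h : NiceBox μ) : IsNiceStationary μ :=
  ⟨final_Bridge μ h.prob h.inv, h.zero, h.integrable, h.shift⟩

theorem processExists : ProcessExists := by
  classical
  intro μ hμ
  obtain ⟨Ω, mΩ, P, hP, C, g, hC, hg, hgl, hind⟩ := stmt_ClockExists μ hμ
  have hnice := stmt_ClockNice Ω mΩ P hP C hC
  let H : Ω → ℝ → Config := fun ω =>
    if h : Nice (fun x => C x ω) then (stmt_TrajExists _ (g ω) h).choose else fun _ => g ω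
  refine ⟨Ω, mΩ, P, hP, C, g, fun t ω => H ω t, ⟨hC, hg, hind, ?_, ?_⟩, hgl⟩
  · filter_upwards [hnice] with ω hω
    simp only [H, dif_pos hω]
    exact (stmt_TrajExists _ (g ω) hω).choose_spec.1
  · filter_upwards [hnice] with ω hω
    simp only [H, dif_pos hω]
    exact (stmt_TrajExists _ (g ω) hω).choose_spec.2

/-- reduction to a box-nice law with positive slope -/
theorem exists_positive : ∃ μ : Measure Config, NiceBox μ ∧ 0 < ∫ h, (h 1 : ℝ) ∂μ := by
  obtain ⟨m, hm⟩ := final_GoodSeq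
  obtain ⟨μ, hμ⟩ := final_Limit m hm
  have hb := hμ.niceBox
  have hp := hμ.prob
  have hsl := final_Slope μ hμ
  have hr := hb.map_refl stmt_Det stmt_RhoProb stmt_RhoNeg
  rcases lt_or_gt_of_ne hsl with h | h
  · refine ⟨μ.map refl, hr, ?_⟩
    rw [integral_map measurable_refl.aemeasurable (measurable_val 1).aestronglyMeasurable]
    have h1 : ∫ h : Config, (h (-1) : ℝ) ∂μ = - ∫ h : Config, (h 1 : ℝ) ∂μ := by
      have hu := map_unshift hμ.zero hμ.shift
      conv_rhs => rw [← hu]
      rw [integral_map measurable_unshift.aemeasurable (measurable_val 1).aestronglyMeasurable,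
        ← integral_neg]
      refine integral_congr_ae ?_
      filter_upwards [hμ.zero] with h hh
      simp only [unshift]
      have e : (1 : ℤ) - 1 = 0 := by ring
      rw [e, hh]
      push_cast
      ring
    have h2 : ∫ x : Config, ((refl x 1 : ℤ) : ℝ) ∂μ = ∫ h : Config, (h (-1) : ℝ) ∂μ := rfl
    rw [h2, h1]
    linarith
  · exact ⟨μ, hb, h⟩

theorem symmetrised_refl (μ : Measure Config) :
    (symmetrised μ).map (fun (g : Config) (x : ℤ) => g (-x)) = symmetrised μ := by
  have hm : Measurable (fun (g : Config) (x : ℤ) => g (-x)) := measurable_refl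
  have hid : (fun (g : Config) (x : ℤ) => g (-x)) ∘ (fun (g : Config) (x : ℤ) => g (-x)) = id := by
    funext g x
    simp
  unfold symmetrised
  rw [Measure.map_add _ _ hm, Measure.map_smul, Measure.map_smul, Measure.map_map hm hm, hid,
    Measure.map_id, add_comm]

theorem main_statement : MainStatement := by
  obtain ⟨μ, hb, hpos⟩ := exists_positive
  have hr := hb.map_refl stmt_Det stmt_RhoProb stmt_RhoNeg
  obtain ⟨ν, hν, hν0, hsc⟩ := mix_scales hb hpos.ne' stmt_Ergodic
  have e : symmetrised μ = mix μ (μ.map refl) := rfl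
  refine ⟨processExists, μ, hb.nice, hpos, ?_, symmetrised_refl μ, ν, hν, hν0, ?_⟩
  · rw [e]; exact (hb.mix stmt_RhoProb hr).nice
  · rw [e]; exact hsc

end Pool.BDep
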