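import Pool.Agent.Work.MP_c264fd_pr_h14.AvgBase

/-! Block Limit: a good sequence has a good limit (Prokhorov and an ultrafilter). -/

open MeasureTheory ProbabilityTheory Filter Topology
open scoped ENNReal NNReal

namespace Pool.BDep

namespace Lim

/-- `F` depends on the sites of `D` only -/
def Loc {β : Type*} (D : Finset ℤ) (F : Config → β) : Prop :=
  ∀ h h' : Config, (∀ x ∈ D, h x = h' x) → F h = F h'

open Classical in
theorem loc_factor {β : Type*} {D : Finset ℤ} {F : Config → β} (hF : Loc D F) :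
    F = (fun u : ((x : D) → ℤ) => F (fun x => if h : x ∈ D then u ⟨x, h⟩ else 0)) ∘
      (fun h : Config => fun x : D => h x) := by
  funext h
  apply hF
  intro x hx
  simp [hx]

theorem loc_measurable {β : Type*} [MeasurableSpace β] {D : Finset ℤ} {F : Config → β}
    (hF : Loc D F) : Measurable F := by
  rw [loc_factor hF]
  exact (measurable_of_countable _).comp (measurable_pi_lambda _ fun x => measurable_pi_apply _)

theorem loc_continuous {β : Type*} [TopologicalSpace β] {D : Finset ℤ} {F : Config → β}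
    (hF : Loc D F) : Continuous F := by
  rw [loc_factor hF]
  exact continuous_of_discreteTopology.comp (continuous_pi fun x => continuous_apply _)

variable {U : Filter ℕ} {P : ℕ → ProbabilityMeasure Config} {μ : ProbabilityMeasure Config}

theorem tendsto_local (h : Tendsto P U (𝓝 μ)) {D : Finset ℤ} {G : Config → ℝ} (hG : Loc D G)
    {M : ℝ} (hb : ∀ h, |G h| ≤ M) :
    Tendsto (fun k => ∫ h, G h ∂(P k : Measure Config)) U
      (𝓝 (∫ h, G h ∂(μ : Measure Config))) := by
  have := (ProbabilityMeasure.tendsto_iff_forall_integral_tendsto.1 h)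
    (BoundedContinuousFunction.ofNormedAddCommGroup G (loc_continuous hG) M
      (fun x => by rw [Real.norm_eq_abs]; exact hb x))
  simpa using this

theorem lintegral_le_of_eventually [NeBot U] (h : Tendsto P U (𝓝 μ)) {D : Finset ℤ}
    {φ : Config → ℝ≥0∞} (hφ : Loc D φ) {c : ℝ≥0∞}
    (hc : ∀ᶠ k in U, ∫⁻ h, φ h ∂(P k : Measure Config) ≤ c) :
    ∫⁻ h, φ h ∂(μ : Measure Config) ≤ c := by
  have hm := loc_measurable hφ
  have h1 : ∫⁻ h, φ h ∂(μ : Measure Config)
      = ⨆ M : ℕ, ∫⁻ h, min (φ h) M ∂(μ : Measure Config) := by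
    rw [← lintegral_iSup (fun M => hm.min measurable_const)]
    · refine lintegral_congr fun h => ?_
      have : ⨆ M : ℕ, φ h ⊓ (M : ℝ≥0∞) = φ h := by
        rw [← inf_iSup_eq, ENNReal.iSup_natCast, inf_top_eq]
      exact this.symm
    · intro a b hab x
      exact min_le_min le_rfl (by exact_mod_cast hab)
  rw [h1]
  refine iSup_le fun M => ?_
  let G : Config → ℝ := fun h => (min (φ h) M).toReal
  have hG : Loc D G := fun h h' hh => by simp only [G]; rw [hφ h h' hh]
  have hne : ∀ h, min (φ h) (M : ℝ≥0∞) ≠ ∞ := fun h =>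
    ((min_le_right _ _).trans_lt (ENNReal.natCast_lt_top M)).ne
  have hb : ∀ h, |G h| ≤ (M : ℝ) := by
    intro h
    rw [abs_of_nonneg ENNReal.toReal_nonneg]
    have := ENNReal.toReal_mono (ENNReal.natCast_ne_top M) (min_le_right (φ h) (M : ℝ≥0∞))
    simpa using this
  have e : ∀ ν : Measure Config, IsProbabilityMeasure ν →
      ∫⁻ h, min (φ h) M ∂ν = ENNReal.ofReal (∫ h, G h ∂ν) := by
    intro ν hν
    rw [ofReal_integral_eq_lintegral_ofReal]
    · refine lintegral_congr fun h => ?_
      rw [ENNReal.ofReal_toReal (hne h)]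
    · refine Integrable.of_bound (C := (M : ℝ)) (loc_measurable hG).aestronglyMeasurable ?_
      exact Filter.Eventually.of_forall fun h => by rw [Real.norm_eq_abs]; exact hb h
    · exact Filter.Eventually.of_forall fun h => ENNReal.toReal_nonneg
  have t := (ENNReal.continuous_ofReal.tendsto _).comp (tendsto_local h hG hb)
  rw [e _ inferInstance]
  refine le_of_tendsto t (hc.mono fun k hk => ?_)
  rw [Function.comp, ← e _ inferInstance]
  exact (lintegral_mono fun h => min_le_left _ _).trans hk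

theorem ext_of_local {μ ν : Measure Config} [IsProbabilityMeasure μ] [IsProbabilityMeasure ν]
    (h : ∀ (D : Finset ℤ) (F : Config → ℝ), LocalBdd D F → ∫ h, F h ∂μ = ∫ h, F h ∂ν) :
    μ = ν := by
  refine ext_of_generate_finite (measurableCylinders (fun _ : ℤ => ℤ))
    generateFrom_measurableCylinders.symm isPiSystem_measurableCylinders ?_ (by simp)
  intro s hs
  obtain ⟨D, S, hS, rfl⟩ := (mem_measurableCylinders s).1 hs
  have hms : MeasurableSet (cylinder D S : Set Config) :=
    MeasurableSet.cylinder (α := fun _ : ℤ => ℤ) D hS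
  have hloc : LocalBdd D ((cylinder D S).indicator (fun _ => (1 : ℝ))) := by
    refine ⟨fun h h' hh => ?_, fun h => ?_⟩
    · have : D.restrict h = D.restrict h' := by
        funext x
        exact hh x x.2
      have h2 : h ∈ cylinder D S ↔ h' ∈ cylinder D S := by
        rw [mem_cylinder, mem_cylinder, this]
      by_cases h3 : h ∈ cylinder D S
      · rw [Set.indicator_of_mem h3, Set.indicator_of_mem (h2.1 h3)]
      · rw [Set.indicator_of_notMem h3, Set.indicator_of_notMem (fun h4 => h3 (h2.2 h4))]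
    · by_cases h3 : h ∈ cylinder D S
      · rw [Set.indicator_of_mem h3]; norm_num
      · rw [Set.indicator_of_notMem h3]; norm_num
  have := h D _ hloc
  rw [integral_indicator_const _ hms, integral_indicator_const _ hms] at this
  simp only [smul_eq_mul, mul_one] at this
  exact (measureReal_eq_measureReal_iff).1 this

theorem gr_le (n : ℕ) (M z : ℤ) (hM : (n : ℤ) + 1 ≤ M) (hz : z ≤ M) (l : List ℤ)
    (hl : ∀ x ∈ l, x ∈ box n) : gr z l ≤ M := by
  induction l with
  | nil => exact hz
  | cons x l ih =>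
    have ih' := ih fun y hy => hl y (List.mem_cons_of_mem _ hy)
    have hx := hl x List.mem_cons_self
    simp only [box, Finset.mem_Icc] at hx
    simp only [gr]
    split_ifs with h
    · omega
    · exact ih'

theorem le_gl (n : ℕ) (M z : ℤ) (hM : (n : ℤ) + 1 ≤ M) (hz : -M ≤ z) (l : List ℤ)
    (hl : ∀ x ∈ l, x ∈ box n) : -M ≤ gl z l := by
  induction l with
  | nil => exact hz
  | cons x l ih =>
    have ih' := ih fun y hy => hl y (List.mem_cons_of_mem _ hy)
    have hx := hl x List.mem_cons_self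
    simp only [box, Finset.mem_Icc] at hx
    simp only [gl]
    split_ifs with h
    · omega
    · exact ih'

/-- the dynamics with rings in the box `n` is local -/
theorem run_congr (hDet : Stmt_Det) (n : ℕ) (M z : ℤ) (hM : (n : ℤ) + 1 ≤ M) (hz : -M ≤ z)
    (hz' : z ≤ M) (l : List ℤ) (hl : ∀ x ∈ l, x ∈ box n) (h h' : Config)
    (hh : ∀ x ∈ Finset.Icc (-M) M, h x = h' x) : run l h z = run l h' z := by
  have loc := hDet.2.2.2.2.2.2.2.2.2.1
  refine loc l h h' z fun y hy => hh y ?_
  have h1 := gr_le n M z hM hz' l hl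
  have h2 := le_gl n M z hM hz l hl
  simp only [Finset.mem_Icc] at hy ⊢
  omega

theorem loc_inner (hDet : Stmt_Det) (hS : Stmt_RhoSupp) (n K : ℕ) (s : ℝ) {D : Finset ℤ}
    (hK : ∀ x ∈ D, |x| ≤ K) {F : Config → ℝ} (hF : LocalBdd D F) :
    Loc (Finset.Icc (-((n : ℤ) + 1 + K)) ((n : ℤ) + 1 + K))
      (fun h => ∫ l, F (recenter (run l h)) ∂(rho (box n) s)) := by
  intro h h' hh
  refine integral_congr_ae ?_
  filter_upwards [hS (box n) s] with l hl
  apply hF.1
  intro x hx
  have hxK := hK x hx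
  rw [abs_le] at hxK
  have a := run_congr hDet n ((n : ℤ) + 1 + K) x (by omega) (by omega) (by omega) l hl h h' hh
  have b := run_congr hDet n ((n : ℤ) + 1 + K) 0 (by omega) (by omega) (by omega) l hl h h' hh
  simp only [recenter, a, b]

theorem loc_fatou (hDet : Stmt_Det) (hS : Stmt_RhoSupp) (n : ℕ) (T : ℝ) :
    Loc (Finset.Icc (-((n : ℤ) + 1)) ((n : ℤ) + 1))
      (fun h => ∫⁻ l, ENNReal.ofReal ((run l h 0 - h (gr 0 l) : ℤ) : ℝ) ∂(rho (box n) T)) := by
  intro h h' hh
  refine lintegral_congr_ae ?_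
  filter_upwards [hS (box n) T] with l hl
  have a := run_congr hDet n ((n : ℤ) + 1) 0 (by omega) (by omega) (by omega) l hl h h' hh
  have b : h (gr 0 l) = h' (gr 0 l) := by
    apply hh
    have h1 := gr_le n ((n : ℤ) + 1) 0 le_rfl (by omega) l hl
    have h2 := (hDet.2.2.2.2.2.2.2.1 l 0).2.1
    simp only [Finset.mem_Icc]
    omega
  rw [a, b]

theorem tight (m : ℕ → Measure Config) (hm : GoodSeq m) :
    IsTightMeasureSet (Set.range m) := by
  rw [isTightMeasureSet_iff_exists_isCompact_measure_compl_le]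
  intro ε hε
  obtain ⟨ε', hε', hsum⟩ := ENNReal.exists_pos_sum_of_countable' hε.ne' ℤ
  have key : ∀ x : ℤ, ∃ M : ℕ, ∀ k, m k {h | ¬ |h x| ≤ (M : ℤ)} ≤ ε' x := by
    intro x
    obtain ⟨C, hC⟩ := hm.moment x
    obtain ⟨M, hM⟩ := ENNReal.exists_nat_gt
      (ENNReal.div_lt_top ENNReal.ofReal_ne_top (hε' x).ne').ne
      (r := ENNReal.ofReal C / ε' x)
    refine ⟨M, fun k => ?_⟩
    have hmeas : Measurable fun h : Config => ENNReal.ofReal |(h x : ℝ)| :=
      (measurable_of_countable (fun z : ℤ => ENNReal.ofReal |(z : ℝ)|)).comp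
        (measurable_pi_apply x)
    have h1 := mul_meas_ge_le_lintegral (μ := m k) hmeas (M : ℝ≥0∞)
    have h2 : m k {h | ¬ |h x| ≤ (M : ℤ)}
        ≤ m k {h | (M : ℝ≥0∞) ≤ ENNReal.ofReal |(h x : ℝ)|} := by
      refine measure_mono fun h hh => ?_
      simp only [Set.mem_ofPred_eq, not_le] at hh ⊢
      rw [← ENNReal.ofReal_natCast]
      refine ENNReal.ofReal_le_ofReal ?_
      have : ((M : ℤ) : ℝ) ≤ ((|h x| : ℤ) : ℝ) := by exact_mod_cast hh.le
      rw [Int.cast_abs] at this
      simpa using this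
    refine h2.trans ?_
    have h3 : (M : ℝ≥0∞) * m k {h | (M : ℝ≥0∞) ≤ ENNReal.ofReal |(h x : ℝ)|}
        ≤ ENNReal.ofReal C := h1.trans (hC k)
    have hM0 : (M : ℝ≥0∞) ≠ 0 := by
      intro h0
      rw [h0] at hM
      exact absurd hM not_lt_zero
    have h4 : ENNReal.ofReal C ≤ (M : ℝ≥0∞) * ε' x := by
      by_cases htop : ε' x = ∞
      · rw [htop, ENNReal.mul_top hM0]; exact le_top
      · have := (ENNReal.div_le_iff (hε' x).ne' htop).1 hM.le
        exact this
    exact (ENNReal.mul_le_mul_iff_right hM0 (ENNReal.natCast_ne_top M)).1 (h3.trans h4)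
  choose M hM using key
  refine ⟨Set.pi Set.univ fun x => Set.Icc (-(M x : ℤ)) (M x), isCompact_univ_pi fun x =>
    (Set.finite_Icc _ _).isCompact, ?_⟩
  rintro _ ⟨k, rfl⟩
  calc m k (Set.pi Set.univ fun x => Set.Icc (-(M x : ℤ)) (M x))ᶜ
      ≤ m k (⋃ x, {h | ¬ |h x| ≤ (M x : ℤ)}) := by
        refine measure_mono fun h hh => ?_
        simp only [Set.mem_compl_iff, Set.mem_pi, Set.mem_univ, true_implies, not_forall] at hh
        obtain ⟨x, hx⟩ := hh
        simp only [Set.mem_iUnion]
        exact ⟨x, fun h2 => hx (by rwa [Set.mem_Icc, ← abs_le])⟩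
    _ ≤ ∑' x, m k {h | ¬ |h x| ≤ (M x : ℤ)} := measure_iUnion_le _
    _ ≤ ∑' x, ε' x := ENNReal.tsum_le_tsum fun x => hM x k
    _ ≤ ε := hsum.le

end Lim

open Lim

theorem stmt_Limit (hDet : Stmt_Det) (hP : Stmt_RhoProb) (hS : Stmt_RhoSupp) : Stmt_Limit := by
  intro m hm
  let P : ℕ → ProbabilityMeasure Config := fun k => ⟨m k, hm.prob k⟩
  have hPm : ∀ k, (P k : Measure Config) = m k := fun k => rfl
  have htight : IsTightMeasureSet
      {((ν : ProbabilityMeasure Config) : Measure Config) | ν ∈ Set.range P} := by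
    have : {((ν : ProbabilityMeasure Config) : Measure Config) | ν ∈ Set.range P}
        = Set.range m := by
      ext ν
      constructor
      · rintro ⟨_, ⟨k, rfl⟩, rfl⟩
        exact ⟨k, rfl⟩
      · rintro ⟨k, rfl⟩
        exact ⟨P k, ⟨k, rfl⟩, rfl⟩
    rw [this]
    exact tight m hm
  have hc := isCompact_closure_of_isTightMeasureSet htight
  obtain ⟨μ, -, hμ⟩ := hc.ultrafilter_le_nhds ((hyperfilter ℕ).map P) (by
    rw [le_principal_iff]
    refine mem_of_superset ?_ subset_closure
    exact Filter.mem_map.2 (Filter.univ_mem' fun k => ⟨k, rfl⟩))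
  have hμ' : Tendsto P (hyperfilter ℕ : Filter ℕ) (𝓝 μ) := hμ
  have hU : (hyperfilter ℕ : Filter ℕ) ≤ atTop := Nat.hyperfilter_le_atTop
  have lim : ∀ {D : Finset ℤ} {G : Config → ℝ} {M : ℝ}, Loc D G → (∀ h, |G h| ≤ M) →
      Tendsto (fun k => ∫ h, G h ∂(m k)) (hyperfilter ℕ : Filter ℕ)
        (𝓝 (∫ h, G h ∂(μ : Measure Config))) := fun hG hb => tendsto_local hμ' hG hb
  have fat : ∀ {D : Finset ℤ} {φ : Config → ℝ≥0∞} {c : ℝ≥0∞}, Loc D φ →
      (∀ᶠ k in atTop, ∫⁻ h, φ h ∂(m k) ≤ c) → ∫⁻ h, φ h ∂(μ : Measure Config) ≤ c :=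
    fun hφ hc => lintegral_le_of_eventually hμ' hφ (hc.filter_mono hU)
  have hprob : IsProbabilityMeasure (μ : Measure Config) := inferInstance
  refine ⟨(μ : Measure Config), hprob, ?_, ?_, ?_, ?_, ?_⟩
  · -- zero
    have h1 : ∫⁻ h : Config, (if h 0 = 0 then 0 else 1 : ℝ≥0∞) ∂(μ : Measure Config) ≤ 0 := by
      refine fat (D := {0}) (fun h h' hh => ?_) (Filter.Eventually.of_forall fun k => ?_)
      · rw [hh 0 (by simp)]
      · rw [nonpos_iff_eq_zero]
        refine (lintegral_congr_ae ?_).trans lintegral_zero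
        filter_upwards [hm.zero k] with h hh
        simp [hh]
    rw [nonpos_iff_eq_zero, lintegral_eq_zero_iff (by
      refine Measurable.ite ?_ measurable_const measurable_const
      exact measurableSet_eq_fun (measurable_pi_apply 0) measurable_const)] at h1
    filter_upwards [h1] with h hh
    by_contra hne
    simp [hne] at hh
  · -- integrable
    have hmeas : Measurable fun h : Config => (h 1 : ℝ) :=
      (measurable_of_countable (fun z : ℤ => (z : ℝ))).comp (measurable_pi_apply 1)
    refine ⟨hmeas.aestronglyMeasurable, ?_⟩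
    obtain ⟨C, hC⟩ := hm.moment 1
    have h1 : ∫⁻ h : Config, ENNReal.ofReal |(h 1 : ℝ)| ∂(μ : Measure Config)
        ≤ ENNReal.ofReal C :=
      fat (D := {1}) (fun h h' hh => by rw [hh 1 (by simp)])
        (Filter.Eventually.of_forall hC)
    rw [hasFiniteIntegral_iff_norm]
    refine lt_of_le_of_lt (b := ENNReal.ofReal C) ?_ ENNReal.ofReal_lt_top
    exact h1
  · -- shift
    have : IsProbabilityMeasure ((μ : Measure Config).map shift) :=
      Measure.isProbabilityMeasure_map avg_measurable_shift.aemeasurable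
    refine ext_of_local fun D F hF => ?_
    have hFm := measurable_of_localBdd hF
    rw [integral_map avg_measurable_shift.aemeasurable hFm.aestronglyMeasurable]
    have l1 := lim (D := insert 1 (D.image (· + 1))) (G := fun h => F (shift h)) (M := 1)
      (fun h h' hh => hF.1 _ _ fun x hx => by
        simp only [shift]
        rw [hh (x + 1) (Finset.mem_insert_of_mem (Finset.mem_image_of_mem _ hx)),
          hh 1 (Finset.mem_insert_self _ _)]) (fun h => hF.2 _)
    have l2 := lim (D := D) (G := F) (M := 1) hF.1 hF.2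
    have l3 := (hm.shift D F hF).mono_left hU
    have := tendsto_nhds_unique (l1.sub l2) l3
    linarith
  · -- invariance
    intro D F s hF hs
    obtain ⟨K, hK⟩ : ∃ K : ℕ, ∀ x ∈ D, |x| ≤ (K : ℤ) := by
      refine ⟨D.sup Int.natAbs, fun x hx => ?_⟩
      have : x.natAbs ≤ D.sup Int.natAbs := Finset.le_sup (f := Int.natAbs) hx
      rw [Int.abs_eq_natAbs]
      exact_mod_cast this
    rw [Metric.tendsto_atTop]
    intro ε hε
    obtain ⟨N, hN⟩ := hm.inv D F s hF hs (ε / 2) (by positivity)
    refine ⟨N, fun n hn => ?_⟩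
    have hpr := hP (box n) s hs
    have l1 := lim (loc_inner hDet hS n K s hK hF) (M := 1)
      (fun h => abs_integral_le_one _ _ fun l => hF.2 _)
    have l2 := lim (D := D) (G := F) (M := 1) hF.1 hF.2
    have l3 := (l1.sub l2).abs
    have h4 := le_of_tendsto l3 ((hN n hn).filter_mono hU)
    rw [Real.dist_eq]
    linarith
  · -- fatou
    intro n T
    refine ENNReal.le_of_forall_pos_le_add fun ε hε _ => ?_
    have h1 := hm.fatou n T ε (by exact_mod_cast hε)
    set c0 := ∫⁻ l, ENNReal.ofReal (gr 0 l) ∂(rho (box n) T)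
    set A : ℝ := T * (10389 / 10000) / Real.log (10 / 7)
    have hA : 0 ≤ A := by
      have : 0 < Real.log (10 / 7) := Real.log_pos (by norm_num)
      positivity
    have hc0 : c0 ≤ ENNReal.ofReal (A + ε) := by
      obtain ⟨k, hk⟩ := h1.exists
      exact le_trans le_add_self hk
    have h2 := fat (loc_fatou hDet hS n T) (c := ENNReal.ofReal (A + ε) - c0)
      (h1.mono fun k hk => ENNReal.le_sub_of_add_le_right
        (ne_top_of_le_ne_top ENNReal.ofReal_ne_top hc0) hk)
    calc _ ≤ (ENNReal.ofReal (A + ε) - c0) + c0 := add_le_add h2 le_rfl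
      _ = ENNReal.ofReal (A + ε) := tsub_add_cancel_of_le hc0
      _ = ENNReal.ofReal A + ε := by
        rw [ENNReal.ofReal_add hA (NNReal.coe_nonneg ε), ENNReal.ofReal_coe_nnreal]

end Pool.BDep
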