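import Pool.Agent.Work.MP_c264fd_pr_h14.Interface

/-!
# RhoBasic: elementary facts about the law of the list of rings
-/

open MeasureTheory ProbabilityTheory Filter Topology
open scoped ENNReal NNReal
open Finset.HasAntidiagonal (antidiagonal mem_antidiagonal)

namespace Pool.BDep

namespace Rho

/-- the weight `t^k/k!` -/
noncomputable def ww (t : ℝ) (k : ℕ) : ℝ≥0∞ := ENNReal.ofReal (t ^ k / k.factorial)

/-- the sum of `Φ` over the lists of length `k` in `Λ` -/
noncomputable def SS (Λ : Finset ℤ) : ℕ → (List ℤ → ℝ≥0∞) → ℝ≥0∞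
  | 0, Φ => Φ []
  | k + 1, Φ => ∑ x ∈ Λ, SS Λ k (fun l => Φ (x :: l))

theorem SS_zero (Λ : Finset ℤ) (Φ : List ℤ → ℝ≥0∞) : SS Λ 0 Φ = Φ [] := rfl

theorem SS_succ (Λ : Finset ℤ) (k : ℕ) (Φ : List ℤ → ℝ≥0∞) :
    SS Λ (k + 1) Φ = ∑ x ∈ Λ, SS Λ k (fun l => Φ (x :: l)) := rfl

theorem tsum_len (Λ : Finset ℤ) (k : ℕ) : ∀ Φ : List ℤ → ℝ≥0∞,
    ∑' l : List ℤ, (if l.length = k ∧ ∀ x ∈ l, x ∈ Λ then Φ l else 0) = SS Λ k Φ := by
  induction k with
  | zero =>
    intro Φ
    rw [tsum_eq_single [], SS_zero, if_pos ⟨rfl, by simp⟩]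
    intro l hl
    rw [if_neg]
    rintro ⟨h, _⟩
    exact hl (List.length_eq_zero_iff.mp h)
  | succ k ih =>
    intro Φ
    have hinj : Function.Injective (fun p : ℤ × List ℤ => p.1 :: p.2) := by
      rintro ⟨x, l⟩ ⟨y, l'⟩ h
      simp only [List.cons.injEq] at h
      rw [h.1, h.2]
    have hsupp : Function.support
        (fun l : List ℤ => if l.length = k + 1 ∧ ∀ x ∈ l, x ∈ Λ then Φ l else 0) ⊆
        Set.range (fun p : ℤ × List ℤ => p.1 :: p.2) := by
      intro l hl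
      rw [Function.mem_support] at hl
      cases l with
      | nil =>
        exfalso
        apply hl
        rw [if_neg]
        rintro ⟨h, _⟩
        simp at h
      | cons x l => exact ⟨(x, l), rfl⟩
    rw [← hinj.tsum_eq hsupp, ENNReal.tsum_prod', SS_succ]
    have h1 : ∀ x : ℤ, ∑' l : List ℤ,
        (if (x :: l).length = k + 1 ∧ ∀ y ∈ x :: l, y ∈ Λ then Φ (x :: l) else 0) =
        if x ∈ Λ then SS Λ k (fun l => Φ (x :: l)) else 0 := by
      intro x
      by_cases hx : x ∈ Λ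
      · rw [if_pos hx, ← ih]
        refine tsum_congr fun l => ?_
        have h2 : ((x :: l).length = k + 1 ∧ ∀ y ∈ x :: l, y ∈ Λ) ↔
            (l.length = k ∧ ∀ y ∈ l, y ∈ Λ) := by
          simp [hx]
        simp only [h2]
      · rw [if_neg hx, ENNReal.tsum_eq_zero]
        intro l
        rw [if_neg]
        rintro ⟨_, h⟩
        exact hx (h x (by simp))
    rw [tsum_congr h1, tsum_eq_sum (s := Λ) (fun x hx => if_neg hx)]
    exact Finset.sum_congr rfl fun x hx => if_pos hx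

theorem lintegral_rho' (Λ : Finset ℤ) (t : ℝ) (Φ : List ℤ → ℝ≥0∞) :
    ∫⁻ l, Φ l ∂(rho Λ t) = ∑' l, wt Λ t l * Φ l := by
  unfold rho
  rw [lintegral_sum_measure]
  refine tsum_congr fun l => ?_
  rw [lintegral_smul_measure, lintegral_dirac, smul_eq_mul]

theorem tsum_wt (Λ : Finset ℤ) (t : ℝ) (Φ : List ℤ → ℝ≥0∞) :
    ∑' l, wt Λ t l * Φ l =
      ENNReal.ofReal (Real.exp (-(Λ.card * t))) * ∑' k, ww t k * SS Λ k Φ := by
  have h1 : ∀ l : List ℤ, wt Λ t l * Φ l = ∑' k : ℕ,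
      (ENNReal.ofReal (Real.exp (-(Λ.card * t))) * ww t k) *
        (if l.length = k ∧ ∀ x ∈ l, x ∈ Λ then Φ l else 0) := by
    intro l
    rw [tsum_eq_single l.length]
    · unfold wt ww
      by_cases h : ∀ x ∈ l, x ∈ Λ
      · rw [if_pos h, if_pos ⟨rfl, h⟩, ← ENNReal.ofReal_mul (Real.exp_pos _).le, mul_div_assoc]
      · rw [if_neg h, if_neg (fun h' => h h'.2), zero_mul, mul_zero]
    · intro k hk
      rw [if_neg (fun h' => hk h'.1.symm), mul_zero]
  rw [tsum_congr h1, ENNReal.tsum_comm, ← ENNReal.tsum_mul_left]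
  refine tsum_congr fun k => ?_
  rw [ENNReal.tsum_mul_left, tsum_len, mul_assoc]

theorem lintegral_rho (Λ : Finset ℤ) (t : ℝ) (Φ : List ℤ → ℝ≥0∞) :
    ∫⁻ l, Φ l ∂(rho Λ t) =
      ENNReal.ofReal (Real.exp (-(Λ.card * t))) * ∑' k, ww t k * SS Λ k Φ := by
  rw [lintegral_rho', tsum_wt]

theorem SS_one (Λ : Finset ℤ) (k : ℕ) : SS Λ k (fun _ => 1) = (Λ.card : ℝ≥0∞) ^ k := by
  induction k with
  | zero => rw [SS_zero, pow_zero]
  | succ k ih => rw [SS_succ, Finset.sum_congr rfl fun _ _ => ih, Finset.sum_const, nsmul_eq_mul,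
      pow_succ, mul_comm]

theorem SS_mono {Λ : Finset ℤ} (k : ℕ) : ∀ {Φ Ψ : List ℤ → ℝ≥0∞},
    (∀ l : List ℤ, l.length = k → (∀ x ∈ l, x ∈ Λ) → Φ l ≤ Ψ l) → SS Λ k Φ ≤ SS Λ k Ψ := by
  induction k with
  | zero => intro Φ Ψ h; exact h [] rfl (by simp)
  | succ k ih =>
    intro Φ Ψ h
    refine Finset.sum_le_sum fun x hx => ih fun l hl hl' => h (x :: l) (by simp [hl]) ?_
    intro y hy
    rcases List.mem_cons.mp hy with h1 | h1
    · rw [h1]; exact hx
    · exact hl' y h1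

theorem SS_congr {Λ : Finset ℤ} (k : ℕ) {Φ Ψ : List ℤ → ℝ≥0∞}
    (h : ∀ l : List ℤ, l.length = k → (∀ x ∈ l, x ∈ Λ) → Φ l = Ψ l) : SS Λ k Φ = SS Λ k Ψ :=
  le_antisymm (SS_mono k fun l hl hl' => (h l hl hl').le) (SS_mono k fun l hl hl' => (h l hl hl').ge)

theorem SS_add (Λ : Finset ℤ) (k : ℕ) : ∀ (Φ Ψ : List ℤ → ℝ≥0∞),
    SS Λ k (fun l => Φ l + Ψ l) = SS Λ k Φ + SS Λ k Ψ := by
  induction k with
  | zero => intro Φ Ψ; rfl
  | succ k ih =>
    intro Φ Ψ
    rw [SS_succ, SS_succ, SS_succ, ← Finset.sum_add_distrib]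
    exact Finset.sum_congr rfl fun x _ => ih _ _

theorem SS_const_mul (Λ : Finset ℤ) (k : ℕ) (c : ℝ≥0∞) : ∀ (Φ : List ℤ → ℝ≥0∞),
    SS Λ k (fun l => c * Φ l) = c * SS Λ k Φ := by
  induction k with
  | zero => intro Φ; rfl
  | succ k ih =>
    intro Φ
    rw [SS_succ, SS_succ, Finset.mul_sum]
    exact Finset.sum_congr rfl fun x _ => ih _

theorem SS_finset_sum {ι : Type*} (s : Finset ι) (Λ : Finset ℤ) (k : ℕ) :
    ∀ (Φ : ι → List ℤ → ℝ≥0∞), SS Λ k (fun l => ∑ i ∈ s, Φ i l) = ∑ i ∈ s, SS Λ k (Φ i) := by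
  induction k with
  | zero => intro Φ; rfl
  | succ k ih =>
    intro Φ
    rw [SS_succ, Finset.sum_congr rfl fun x _ => ih fun i l => Φ i (x :: l), Finset.sum_comm]
    rfl

/-- the last step of the recursion at the end of the list of sums: sums over `Λ^(k+1)` as sums over
`Λ^k` of the sums of `Φ (x :: l)` -/
theorem SS_succ' (Λ : Finset ℤ) (k : ℕ) (Φ : List ℤ → ℝ≥0∞) :
    SS Λ (k + 1) Φ = SS Λ k (fun l => ∑ x ∈ Λ, Φ (x :: l)) := by
  rw [SS_succ, SS_finset_sum Λ Λ k fun x l => Φ (x :: l)]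

theorem exp_tsum {a : ℝ} (ha : 0 ≤ a) :
    ∑' k : ℕ, ENNReal.ofReal (a ^ k / k.factorial) = ENNReal.ofReal (Real.exp a) := by
  have h1 : HasSum (fun k : ℕ => a ^ k / (k.factorial : ℝ)) (Real.exp a) := by
    rw [Real.exp_eq_exp_ℝ]
    exact NormedSpace.expSeries_div_hasSum_exp a
  rw [← h1.tsum_eq, ENNReal.ofReal_tsum_of_nonneg (fun k => by positivity) h1.summable]

theorem ww_mul_pow {t : ℝ} (ht : 0 ≤ t) {b : ℝ} (hb : 0 ≤ b) (k : ℕ) :
    ww t k * ENNReal.ofReal b ^ k = ENNReal.ofReal ((b * t) ^ k / k.factorial) := by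
  unfold ww
  rw [← ENNReal.ofReal_pow hb, ← ENNReal.ofReal_mul (by positivity)]
  congr 1
  rw [mul_pow]
  ring

theorem tsum_ww {t : ℝ} (ht : 0 ≤ t) {b : ℝ} (hb : 0 ≤ b) :
    ∑' k, ww t k * ENNReal.ofReal b ^ k = ENNReal.ofReal (Real.exp (b * t)) := by
  rw [tsum_congr fun k => ww_mul_pow ht hb k, exp_tsum (mul_nonneg hb ht)]

theorem natCast_eq (n : ℕ) : (n : ℝ≥0∞) = ENNReal.ofReal n := (ENNReal.ofReal_natCast n).symm

theorem tsum_antidiagonal (f : ℕ → ℕ → ℝ≥0∞) :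
    ∑' m, ∑ p ∈ antidiagonal m, f p.1 p.2 = ∑' i, ∑' j, f i j := by
  rw [← ENNReal.tsum_prod (f := f), ← Finset.HasAntidiagonal.sigmaAntidiagonalEquivProd.tsum_eq
    (fun p : ℕ × ℕ => f p.1 p.2), ENNReal.tsum_sigma']
  refine tsum_congr fun m => ?_
  rw [tsum_fintype, ← Finset.sum_coe_sort (antidiagonal m)]
  rfl

theorem ww_add {s t : ℝ} (hs : 0 ≤ s) (ht : 0 ≤ t) (m : ℕ) :
    ∑ p ∈ antidiagonal m, ww s p.1 * ww t p.2 = ww (s + t) m := by
  unfold ww
  rw [Finset.sum_congr rfl fun p _ => (ENNReal.ofReal_mul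
    (show 0 ≤ s ^ p.1 / (p.1.factorial : ℝ) by positivity)).symm,
    ← ENNReal.ofReal_sum_of_nonneg (fun p _ => by positivity)]
  congr 1
  rw [(Commute.all s t).add_pow', Finset.sum_div]
  refine Finset.sum_congr rfl fun p hp => ?_
  rw [mem_antidiagonal] at hp
  have h1 : (m.choose p.1 : ℝ) * p.1.factorial * p.2.factorial = m.factorial := by
    have h2 := Nat.choose_mul_factorial_mul_factorial (show p.1 ≤ m by omega)
    have h3 : m - p.1 = p.2 := by omega
    rw [h3] at h2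
    exact_mod_cast h2
  have h4 : (p.1.factorial : ℝ) ≠ 0 := by positivity
  have h5 : (p.2.factorial : ℝ) ≠ 0 := by positivity
  have h6 : (m.factorial : ℝ) ≠ 0 := by positivity
  rw [nsmul_eq_mul, div_mul_div_comm, div_eq_div_iff (mul_ne_zero h4 h5) h6, ← h1]
  ring

theorem ww_choose {t : ℝ} (ht : 0 ≤ t) {m : ℕ} {p : ℕ × ℕ} (hp : p ∈ antidiagonal m) :
    ww t m * (m.choose p.1 : ℝ≥0∞) = ww t p.1 * ww t p.2 := by
  rw [mem_antidiagonal] at hp
  unfold ww
  rw [natCast_eq, ← ENNReal.ofReal_mul (by positivity), ← ENNReal.ofReal_mul (by positivity)]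
  congr 1
  have h1 : (m.choose p.1 : ℝ) * p.1.factorial * p.2.factorial = m.factorial := by
    have h2 := Nat.choose_mul_factorial_mul_factorial (show p.1 ≤ m by omega)
    have h3 : m - p.1 = p.2 := by omega
    rw [h3] at h2
    exact_mod_cast h2
  have h4 : (p.1.factorial : ℝ) ≠ 0 := by positivity
  have h5 : (p.2.factorial : ℝ) ≠ 0 := by positivity
  have h6 : (m.factorial : ℝ) ≠ 0 := by positivity
  rw [div_mul_eq_mul_div, div_mul_div_comm, div_eq_div_iff h6 (mul_ne_zero h4 h5), ← h1, ← hp,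
    pow_add]
  ring

theorem SS_append (Λ : Finset ℤ) (j k : ℕ) : ∀ (Φ : List ℤ → ℝ≥0∞),
    SS Λ j (fun l => SS Λ k (fun l' => Φ (l ++ l'))) = SS Λ (j + k) Φ := by
  induction j with
  | zero => intro Φ; rw [SS_zero, zero_add]; rfl
  | succ j ih =>
    intro Φ
    rw [show j + 1 + k = (j + k) + 1 by ring, SS_succ, SS_succ]
    exact Finset.sum_congr rfl fun x _ => ih fun l => Φ (x :: l)

theorem SS_map {f : ℤ → ℤ} (hf : Function.Injective f) (Λ : Finset ℤ) (k : ℕ) :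
    ∀ (Φ : List ℤ → ℝ≥0∞), SS (Λ.image f) k Φ = SS Λ k (fun l => Φ (l.map f)) := by
  induction k with
  | zero => intro Φ; rfl
  | succ k ih =>
    intro Φ
    rw [SS_succ, SS_succ, Finset.sum_image fun x _ y _ h => hf h]
    exact Finset.sum_congr rfl fun x _ => ih _

theorem SS_filter {Λ Λ' : Finset ℤ} (h : Λ ⊆ Λ') (m : ℕ) : ∀ (Φ : List ℤ → ℝ≥0∞),
    SS Λ' m (fun l => Φ (l.filter (· ∈ Λ))) =
      ∑ p ∈ antidiagonal m, (m.choose p.1 : ℝ≥0∞) *
        (((Λ' \ Λ).card : ℝ≥0∞) ^ p.1 * SS Λ p.2 Φ) := by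
  induction m with
  | zero =>
    intro Φ
    rw [SS_zero, Finset.Nat.antidiagonal_zero, Finset.sum_singleton, SS_zero]
    simp
  | succ m ih =>
    intro Φ
    rw [Finset.sum_antidiagonal_choose_succ_mul
      (fun i j => ((Λ' \ Λ).card : ℝ≥0∞) ^ i * SS Λ j Φ), SS_succ,
      ← Finset.sum_sdiff h, add_comm]
    congr 1
    · have h1 : ∀ x ∈ Λ, SS Λ' m (fun l => Φ ((x :: l).filter (· ∈ Λ))) =
          ∑ p ∈ antidiagonal m, (m.choose p.1 : ℝ≥0∞) *
            (((Λ' \ Λ).card : ℝ≥0∞) ^ p.1 * SS Λ p.2 (fun l => Φ (x :: l))) := by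
        intro x hx
        rw [← ih]
        congr 1
        funext l
        rw [List.filter_cons_of_pos (by simpa using hx)]
      rw [Finset.sum_congr rfl h1, Finset.sum_comm]
      refine Finset.sum_congr rfl fun p _ => ?_
      rw [SS_succ, Finset.mul_sum, Finset.mul_sum]
    · have h1 : ∀ x ∈ Λ' \ Λ, SS Λ' m (fun l => Φ ((x :: l).filter (· ∈ Λ))) =
          ∑ p ∈ antidiagonal m, (m.choose p.1 : ℝ≥0∞) *
            (((Λ' \ Λ).card : ℝ≥0∞) ^ p.1 * SS Λ p.2 Φ) := by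
        intro x hx
        rw [← ih]
        congr 1
        funext l
        rw [List.filter_cons_of_neg (by simpa using (Finset.mem_sdiff.mp hx).2)]
      rw [Finset.sum_congr rfl h1, Finset.sum_const, nsmul_eq_mul, Finset.mul_sum]
      refine Finset.sum_congr rfl fun p hp => ?_
      rw [mem_antidiagonal] at hp
      rw [Nat.choose_symm_of_eq_add hp.symm, pow_succ]
      ring

theorem map_eq_of_lintegral {μ ν : Measure (List ℤ)}
    (h : ∀ Φ : List ℤ → ℝ≥0∞, ∫⁻ l, Φ l ∂μ = ∫⁻ l, Φ l ∂ν) : μ = ν := by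
  refine Measure.ext_of_lintegral _ fun Φ _ => h Φ

end Rho

open Rho

theorem stmt_RhoInt : Stmt_RhoInt := fun Λ t Φ => lintegral_rho' Λ t Φ

theorem stmt_RhoProb : Stmt_RhoProb := by
  intro Λ t ht
  constructor
  have h1 : ∀ k, ww t k * SS Λ k (fun _ => 1) = ww t k * ENNReal.ofReal (Λ.card : ℝ) ^ k := by
    intro k
    rw [SS_one, natCast_eq]
  rw [← lintegral_one, lintegral_rho, tsum_congr h1, tsum_ww ht (by positivity),
    ← ENNReal.ofReal_mul (Real.exp_pos _).le, ← Real.exp_add, neg_add_cancel, Real.exp_zero,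
    ENNReal.ofReal_one]

theorem stmt_RhoSupp : Stmt_RhoSupp := by
  intro Λ t
  rw [ae_iff, ← lintegral_indicator_one (MeasurableSet.of_discrete), lintegral_rho',
    ENNReal.tsum_eq_zero]
  intro l
  by_cases h : ∀ x ∈ l, x ∈ Λ
  · rw [Set.indicator_of_notMem (by simpa using h), mul_zero]
  · unfold wt
    rw [if_neg h, zero_mul]

namespace Rho

theorem SS_tsum {ι : Type*} (Λ : Finset ℤ) (k : ℕ) : ∀ (Φ : ι → List ℤ → ℝ≥0∞),
    SS Λ k (fun l => ∑' i, Φ i l) = ∑' i, SS Λ k (Φ i) := by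
  induction k with
  | zero => intro Φ; rfl
  | succ k ih =>
    intro Φ
    rw [SS_succ, Finset.sum_congr rfl fun x _ => ih fun i l => Φ i (x :: l)]
    exact (Summable.tsum_finsetSum fun _ _ => ENNReal.summable).symm

end Rho

theorem stmt_RhoAdd : Stmt_RhoAdd := by
  intro Λ s t hs ht
  have := stmt_RhoProb Λ s hs
  have := stmt_RhoProb Λ t ht
  refine map_eq_of_lintegral fun Φ => ?_
  rw [lintegral_map (measurable_of_countable _) (measurable_of_countable _),
    lintegral_prod _ (measurable_of_countable _).aemeasurable, lintegral_rho, lintegral_rho]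
  have h1 : ∀ j, ww s j * SS Λ j (fun l => ∫⁻ l', Φ (l ++ l') ∂(rho Λ t)) =
      ENNReal.ofReal (Real.exp (-(Λ.card * t))) *
        ∑' k, (ww s j * ww t k) * SS Λ (j + k) Φ := by
    intro j
    have h2 : (fun l => ∫⁻ l', Φ (l ++ l') ∂(rho Λ t)) = fun l =>
        ENNReal.ofReal (Real.exp (-(Λ.card * t))) *
          ∑' k, ww t k * SS Λ k (fun l' => Φ (l ++ l')) := by
      funext l
      exact lintegral_rho Λ t fun l' => Φ (l ++ l')
    rw [h2, SS_const_mul, SS_tsum, ← mul_assoc, mul_comm (ww s j), mul_assoc,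
      ← ENNReal.tsum_mul_left]
    congr 1
    refine tsum_congr fun k => ?_
    rw [SS_const_mul, SS_append, mul_assoc]
  change ENNReal.ofReal (Real.exp (-(Λ.card * s))) *
    ∑' j, ww s j * SS Λ j (fun l => ∫⁻ l', Φ (l ++ l') ∂(rho Λ t)) = _
  rw [tsum_congr h1, ENNReal.tsum_mul_left, ← mul_assoc, ← ENNReal.ofReal_mul (Real.exp_pos _).le,
    ← Real.exp_add, ← tsum_antidiagonal fun j k => (ww s j * ww t k) * SS Λ (j + k) Φ]
  congr 2
  · congr 1
    ring
  · funext m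
    rw [← ww_add hs ht, Finset.sum_mul]
    refine Finset.sum_congr rfl fun p hp => ?_
    rw [mem_antidiagonal.mp hp]

theorem stmt_RhoFilter : Stmt_RhoFilter := by
  intro Λ Λ' t ht h
  refine map_eq_of_lintegral fun Φ => ?_
  rw [lintegral_map (measurable_of_countable _) (measurable_of_countable _), lintegral_rho,
    lintegral_rho]
  set b := (Λ' \ Λ).card with hb
  have hcard : (Λ'.card : ℝ) = Λ.card + b := by
    have h1 := Finset.card_sdiff_add_card_eq_card h
    rw [← h1, hb]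
    push_cast
    ring
  have h1 : ∀ m, ww t m * SS Λ' m (fun l => Φ (l.filter (· ∈ Λ))) =
      ∑ p ∈ antidiagonal m, (ww t p.1 * ENNReal.ofReal b ^ p.1) * (ww t p.2 * SS Λ p.2 Φ) := by
    intro m
    rw [SS_filter h, Finset.mul_sum]
    refine Finset.sum_congr rfl fun p hp => ?_
    rw [← mul_assoc, ww_choose ht hp, ← hb, natCast_eq]
    ring
  rw [tsum_congr h1, tsum_antidiagonal fun i j =>
    (ww t i * ENNReal.ofReal b ^ i) * (ww t j * SS Λ j Φ)]
  simp_rw [ENNReal.tsum_mul_left, ENNReal.tsum_mul_right]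
  rw [tsum_ww ht (by positivity), ← mul_assoc, ← ENNReal.ofReal_mul (Real.exp_pos _).le,
    ← Real.exp_add, hcard]
  congr 3
  ring

namespace Rho

theorem map_map_rho {f : ℤ → ℤ} (hf : Function.Injective f) (Λ : Finset ℤ) (t : ℝ) :
    (rho Λ t).map (List.map f) = rho (Λ.image f) t := by
  refine map_eq_of_lintegral fun Φ => ?_
  rw [lintegral_map (measurable_of_countable _) (measurable_of_countable _), lintegral_rho,
    lintegral_rho, Finset.card_image_of_injective _ hf]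
  congr 1
  refine tsum_congr fun k => ?_
  rw [SS_map hf]

theorem rho_nil (Λ : Finset ℤ) (t : ℝ) :
    rho Λ t {[]} = ENNReal.ofReal (Real.exp (-(Λ.card * t))) := by
  rw [← lintegral_indicator_one (MeasurableSet.of_discrete), lintegral_rho', tsum_eq_single []]
  · unfold wt
    simp
  · intro l hl
    rw [Set.indicator_of_notMem (by simpa using hl), mul_zero]

end Rho

theorem stmt_RhoShift : Stmt_RhoShift := by
  intro Λ t a
  have hf : Function.Injective (fun x : ℤ => x + a) := add_left_injective a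
  convert map_map_rho hf Λ t

theorem stmt_RhoNeg : Stmt_RhoNeg := by
  intro Λ t
  have hf : Function.Injective (fun x : ℤ => -x) := neg_injective
  convert map_map_rho hf Λ t

theorem stmt_RhoSmall : Stmt_RhoSmall := by
  intro Λ D t ht
  set E := D ∩ Λ with hE
  have hprob := stmt_RhoProb E t ht
  have h1 : rho Λ t {l | ∃ x ∈ l, x ∈ D} ≤ rho Λ t ((fun l => l.filter (· ∈ E)) ⁻¹' {[]}ᶜ) := by
    refine measure_mono_ae ?_
    filter_upwards [stmt_RhoSupp Λ t] with l hl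
    rintro ⟨x, hx, hxD⟩
    change l.filter (· ∈ E) ≠ []
    intro h2
    have h3 : x ∈ l.filter (· ∈ E) := by
      rw [List.mem_filter]
      exact ⟨hx, by simpa [hE] using ⟨hxD, hl x hx⟩⟩
    rw [h2] at h3
    exact absurd h3 (by simp)
  have h2 : rho Λ t ((fun l => l.filter (· ∈ E)) ⁻¹' {[]}ᶜ) = rho E t {[]}ᶜ := by
    rw [← stmt_RhoFilter E Λ t ht Finset.inter_subset_right,
      Measure.map_apply (measurable_of_countable _) MeasurableSet.of_discrete]
  rw [h2, measure_compl MeasurableSet.of_discrete (measure_ne_top _ _), measure_univ, rho_nil] at h1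
  refine h1.trans ?_
  rw [tsub_le_iff_right, ← ENNReal.ofReal_add (by positivity) (Real.exp_pos _).le,
    ← ENNReal.ofReal_one]
  apply ENNReal.ofReal_le_ofReal
  have h3 := Real.add_one_le_exp (-(E.card * t))
  have h4 : (E.card : ℝ) ≤ D.card := by exact_mod_cast Finset.card_le_card Finset.inter_subset_left
  have h5 := mul_le_mul_of_nonneg_right h4 ht
  linarith

end Pool.BDep
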