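import Pool.Agent.Work.MP_c264fd_pr_h14.UBData

namespace Pool.BDep.UB

/-- profile code of row `j` (nine digits in base 8, digit `s` is the code of the offset `s - 4`) -/
def pr (j : ℕ) : ℕ := (PF >>> (50 * j)) % 134217728

/-- weight of row `j` -/
def fr (j : ℕ) : ℕ := (PF >>> (50 * j + 27)) % 8388608

/-- digit -/
def dg (n s : ℕ) : ℕ := (n >>> (3 * s)) % 8

/-- target slot -/
def sl (t s : ℕ) : ℕ := (t >>> (12 * s)) % 4096

def all9 (f : ℕ → Bool) : Bool :=
  f 0 && (f 1 && (f 2 && (f 3 && (f 4 && (f 5 && (f 6 && (f 7 && f 8)))))))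

def sum9 (f : ℕ → ℕ) : ℕ :=
  f 0 + (f 1 + (f 2 + (f 3 + (f 4 + (f 5 + (f 6 + (f 7 + f 8)))))))

/-- forces evaluation of a natural number -/
def force {α : Type} (n : ℕ) (f : ℕ → α) : α := Nat.rec (f 0) (fun m _ => f (m + 1)) n

theorem force_eq {α : Type} (n : ℕ) (f : ℕ → α) : force n f = f n := by
  cases n <;> rfl

def nmax (a b : ℕ) : ℕ := bif Nat.ble a b then b else a

/-- digit at `r` after a ring at `s` -/
def up (n s r : ℕ) : ℕ :=
  bif Nat.beq r s then dg n r + 1
  else bif (Nat.beq r (s + 1) || Nat.beq s (r + 1)) then nmax (dg n r) (dg n s) else dg n r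

/-- the tip dies when `s` rings -/
def dead (n s : ℕ) : Bool := (Nat.beq s 3 || Nat.beq s 5) && Nat.ble 5 (dg n s)

def okRing (n s m : ℕ) : Bool := all9 fun r => Nat.ble (dg m r) (up n s r)

def okStay (n m : ℕ) : Bool := all9 fun r => Nat.ble (dg m r) (up n 4 r - 1)

def okR (n m : ℕ) : Bool := all9 fun r =>
  Nat.ble (dg m r) (bif Nat.beq r 8 then 0 else up n 4 (r + 1))

def okL (n m : ℕ) : Bool := all9 fun r =>
  Nat.ble (dg m r) (bif Nat.beq r 0 then 0 else up n 4 (r - 1))

/-- target at ring `s` is admissible -/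
def tgOK (n t s : ℕ) : Bool :=
  bif Nat.beq (dg n s) 0 then true else
  bif dead n s then true else
  force (sl t s) fun j => Nat.blt j NR && force (pr j) fun m =>
    bif Nat.beq s 4 then okStay n m else okRing n s m

/-- contribution of ring `s` -/
def ct (n t s : ℕ) : ℕ :=
  bif Nat.beq (dg n s) 0 then 0 else
  bif dead n s then 0 else
  bif Nat.beq s 4 then 100 * fr (sl t s) else 70 * fr (sl t s)

def kn (n s : ℕ) : ℕ := bif Nat.beq (dg n s) 0 then 0 else 1

def rowOK (t i : ℕ) : Bool :=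
  force (pr i) fun n => force t fun t =>
    (Nat.beq (dg n 4) 4 && Nat.ble 1 (fr i)) &&
    (all9 (tgOK n t) &&
    ((Nat.ble 4 (dg n 5) || (force (sl t 9) fun j => Nat.blt j NR && force (pr j) (okR n))) &&
    ((Nat.ble 4 (dg n 3) || (force (sl t 10) fun j => Nat.blt j NR && force (pr j) (okL n))) &&
    Nat.ble (10000 * (sum9 (ct n t) + ((bif Nat.ble 4 (dg n 5) then 0 else 100 * fr (sl t 9)) +
        (bif Nat.ble 4 (dg n 3) then 0 else 49 * fr (sl t 10)))))
      ((700000 * sum9 (kn n) + 727230) * fr i))))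

/-- check `k` rows from row `i` on; `T` holds the targets, 132 bits each -/
def rows (T : ℕ) (i : ℕ) : ℕ → Bool
  | 0 => true
  | k + 1 => rowOK (T >>> (132 * k) % 2 ^ 132) (i + k) && rows T i k

end Pool.BDep.UB
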