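import Pool.Agent.Work.MP_c264fd_pr_h14.UBSem

open scoped ENNReal

namespace Pool.BDep.UB

/-- the growth constant -/
noncomputable def gam : ℝ := 10389 / 10000

/-- coefficient of the ring at `x` for the tip at `y` -/
noncomputable def co (i : ℕ) (tg : ℕ → ℕ) (s : ℕ) : ℝ :=
  if (s = 3 ∨ s = 5) ∧ 5 ≤ dg (pr i) s then 0 else
  if s = 4 then (10 / 7) * fr (tg 4) else fr (tg s)

/-- the site `x` is known in row `i` for the tip `y` -/
def known (i : ℕ) (y x : ℤ) : Prop := -4 ≤ x - y ∧ x - y ≤ 4 ∧ dg (pr i) (x - y + 4).toNat ≠ 0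

open Classical in
noncomputable def bb (i : ℕ) (tg : ℕ → ℕ) (y x : ℤ) : ℝ :=
  if known i y x then co i tg (x - y + 4).toNat else fr i

theorem co_nonneg (i : ℕ) (tg : ℕ → ℕ) (s : ℕ) : 0 ≤ co i tg s := by
  unfold co; split_ifs <;> positivity

theorem bb_nonneg (i : ℕ) (tg : ℕ → ℕ) (y x : ℤ) : 0 ≤ bb i tg y x := by
  unfold bb; split_ifs
  · exact co_nonneg _ _ _
  · positivity

theorem ofReal_Ft_le (W : ℝ) (hW : 0 ≤ W) (w : ℕ → ℕ) (b : ℝ) (hb : (Ft w : ℝ) ≤ b) :
    ENNReal.ofReal (W * (Ft w : ℝ)) ≤ ENNReal.ofReal (W * b) :=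
  ENNReal.ofReal_le_ofReal (mul_le_mul_of_nonneg_left hb hW)

theorem A0_le (K : ℤ → WithBot ℤ) (y k : ℤ) (hK : K y = k) (i : ℕ) (tg : ℕ → ℕ)
    (hR : RowFacts i tg) (hle : ∀ s, s < 9 → dg (pr i) s ≤ win K y k s)
    (hF : fr i = Ft (win K y k)) (x : ℤ) :
    A0 K x y ≤ ENNReal.ofReal ((10 / 7 : ℝ) ^ (y + k) * bb i tg y x) := by
  have hW : (0 : ℝ) ≤ (10 / 7 : ℝ) ^ (y + k) := by positivity
  unfold A0
  by_cases hd : (y = x - 1 ∨ y = x + 1) ∧ K y < K x
  · rw [if_pos hd]; exact bot_le
  rw [if_neg hd]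
  by_cases hxy : x = y
  · subst hxy
    have hk : known i x x := by
      refine ⟨by omega, by omega, ?_⟩
      have : (x - x + 4 : ℤ).toNat = 4 := by omega
      rw [this, hR.center]; norm_num
    have hb : bb i tg x x = (10 / 7) * fr (tg 4) := by
      unfold bb
      rw [if_pos hk]
      have : (x - x + 4 : ℤ).toNat = 4 := by omega
      rw [this]
      unfold co
      rw [if_neg (by omega), if_pos rfl]
    have hKx : dring x K x = ((k + 1 : ℤ) : WithBot ℤ) := by
      simp only [dring, if_true, hK]; push_cast; rfl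
    rw [term_coe _ _ _ hKx, hb]
    have hFt : Ft (win (dring x K) x (k + 1)) ≤ fr (tg 4) := by
      apply Ft_le _ _ hR.stay.1
      intro r hr
      refine (hR.stay.2 r hr).trans ?_
      have h1 := up_le_win K x k (pr i) 4 hle (by norm_num) (by rw [hR.center]; norm_num) r hr
      have e : x + ((4 : ℕ) : ℤ) - 4 = x := by push_cast; ring
      rw [e] at h1
      have h2 : up (pr i) 4 r ≤ 7 := by
        rw [up_eq]
        have := dg_lt (pr i) r
        have := dg_lt (pr i) 4
        have := hR.center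
        split_ifs with a b
        · subst a; omega
        · omega
        · omega
      have h3 := cd_succ (dring x K (x + r - 4)) k
      unfold win at h1 ⊢
      omega
    have e2 : (10 / 7 : ℝ) ^ (x + (k + 1)) * (Ft (win (dring x K) x (k + 1)) : ℝ)
        ≤ (10 / 7 : ℝ) ^ (x + k) * (10 / 7 * (fr (tg 4) : ℝ)) := by
      have : (10 / 7 : ℝ) ^ (x + (k + 1)) = (10 / 7 : ℝ) ^ (x + k) * (10 / 7) := by
        rw [← add_assoc, zpow_add_one₀ (by norm_num)]
      rw [this, mul_assoc]
      have h5 : (Ft (win (dring x K) x (k + 1)) : ℝ) ≤ fr (tg 4) := by exact_mod_cast hFt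
      have : (10 / 7 : ℝ) * (Ft (win (dring x K) x (k + 1)) : ℝ) ≤ 10 / 7 * fr (tg 4) := by
        linarith
      exact mul_le_mul_of_nonneg_left this hW
    exact ENNReal.ofReal_le_ofReal e2
  · -- x ≠ y : the height at y does not change
    have hKy : dring x K y = (k : WithBot ℤ) := by
      unfold dring
      rw [if_neg (fun h => hxy h.symm)]
      by_cases h2 : y = x - 1 ∨ y = x + 1
      · rw [if_pos h2]
        have : ¬ K y < K x := fun h => hd ⟨h2, h⟩
        rw [max_eq_left (not_lt.1 this), hK]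
      · rw [if_neg h2, hK]
    rw [term_coe _ _ _ hKy]
    by_cases hk : known i y x
    · obtain ⟨hk1, hk2, hk3⟩ := hk
      set s : ℕ := (x - y + 4).toNat with hs
      have hs9 : s < 9 := by omega
      have hxs : x = y + s - 4 := by omega
      have hb : bb i tg y x = co i tg s := by
        unfold bb; rw [if_pos ⟨hk1, hk2, hk3⟩]
      rw [hb]
      by_cases hdd : (s = 3 ∨ s = 5) ∧ 5 ≤ dg (pr i) s
      · exfalso
        apply hd
        refine ⟨by omega, ?_⟩
        have h5 := hle s hs9
        unfold win at h5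
        rw [← hxs] at h5
        rw [hK]
        cases hKx : K x with
        | bot => rw [hKx] at h5; simp at h5; omega
        | coe v =>
          rw [hKx, cd_coe] at h5
          have : k < v := by omega
          exact_mod_cast this
      · have hco : co i tg s = fr (tg s) := by
          unfold co
          rw [if_neg hdd]
          split_ifs with h4
          · exfalso; omega
          · rfl
        rw [hco]
        have hr := hR.ring s hs9 (by omega) hk3 hdd
        apply ofReal_Ft_le _ hW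
        have : Ft (win (dring x K) y k) ≤ fr (tg s) := by
          apply Ft_le _ _ hr.1
          intro r hr9
          have h1 := up_le_win K y k (pr i) s hle hs9 hk3 r hr9
          rw [← hxs] at h1
          have h2 := hr.2 r hr9
          have h3 := dg_lt (pr (tg s)) r
          omega
        exact_mod_cast this
    · have hb : bb i tg y x = fr i := by unfold bb; rw [if_neg hk]
      rw [hb]
      apply ofReal_Ft_le _ hW
      rw [hF]
      have : Ft (win (dring x K) y k) ≤ Ft (win K y k) := by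
        apply Ft_anti
        · rw [win_center K y k hK]
        · intro s _
          exact cd_mono (le_dring x K _) k
      exact_mod_cast this

theorem Bp_le (K : ℤ → WithBot ℤ) (y k : ℤ) (hK : K y = k) (i : ℕ) (tg : ℕ → ℕ)
    (hR : RowFacts i tg) (hle : ∀ s, s < 9 → dg (pr i) s ≤ win K y k s) :
    Bp K y ≤ ENNReal.ofReal ((10 / 7 : ℝ) ^ (y + k) *
      (if 4 ≤ dg (pr i) 5 then 0 else (10 / 7 : ℝ) * (fr (tg 9) : ℝ))) := by
  have hW : (0 : ℝ) ≤ (10 / 7 : ℝ) ^ (y + k) := by positivity
  unfold Bp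
  by_cases h : K (y + 1) < K y
  · rw [if_pos h]
    have h5 : dg (pr i) 5 < 4 := by
      have h1 := hle 5 (by norm_num)
      unfold win at h1
      have e : y + ((5 : ℕ) : ℤ) - 4 = y + 1 := by push_cast; ring
      rw [e] at h1
      rw [hK] at h
      cases hKx : K (y + 1) with
      | bot => rw [hKx] at h1; simp at h1; omega
      | coe v =>
        rw [hKx] at h h1
        have : v < k := by exact_mod_cast h
        rw [cd_coe] at h1
        omega
    rw [if_neg (by omega)]
    have hKy : dring y K (y + 1) = (k : WithBot ℤ) := by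
      unfold dring
      rw [if_neg (by omega), if_pos (Or.inr rfl), max_eq_right h.le, hK]
    rw [term_coe _ _ _ hKy]
    obtain ⟨h9, hr, hr8⟩ := hR.right h5
    have hFt : Ft (win (dring y K) (y + 1) k) ≤ fr (tg 9) := by
      apply Ft_le _ _ h9
      intro r hr9
      by_cases h8 : r = 8
      · subst h8; rw [hr8]; exact Nat.zero_le _
      · have h1 := up_le_win K y k (pr i) 4 hle (by norm_num) (by rw [hR.center]; norm_num)
          (r + 1) (by omega)
        have e : y + ((4 : ℕ) : ℤ) - 4 = y := by push_cast; ring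
        rw [e] at h1
        have h2 := hr r (by omega)
        have h3 := dg_lt (pr (tg 9)) r
        have e2 : win (dring y K) (y + 1) k r = win (dring y K) y k (r + 1) := by
          unfold win
          congr 2
          push_cast; ring
        rw [e2]
        omega
    have e2 : (10 / 7 : ℝ) ^ (y + 1 + k) = (10 / 7 : ℝ) ^ (y + k) * (10 / 7) := by
      rw [show y + 1 + k = y + k + 1 by ring, zpow_add_one₀ (by norm_num)]
    rw [e2, mul_assoc]
    apply ENNReal.ofReal_le_ofReal
    apply mul_le_mul_of_nonneg_left _ hW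
    have h5 : (Ft (win (dring y K) (y + 1) k) : ℝ) ≤ fr (tg 9) := by exact_mod_cast hFt
    linarith
  · rw [if_neg h]; exact bot_le

theorem Bm_le (K : ℤ → WithBot ℤ) (y k : ℤ) (hK : K y = k) (i : ℕ) (tg : ℕ → ℕ)
    (hR : RowFacts i tg) (hle : ∀ s, s < 9 → dg (pr i) s ≤ win K y k s) :
    Bm K y ≤ ENNReal.ofReal ((10 / 7 : ℝ) ^ (y + k) *
      (if 4 ≤ dg (pr i) 3 then 0 else (7 / 10 : ℝ) * (fr (tg 10) : ℝ))) := by
  have hW : (0 : ℝ) ≤ (10 / 7 : ℝ) ^ (y + k) := by positivity
  unfold Bm
  by_cases h : K (y - 1) < K y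
  · rw [if_pos h]
    have h5 : dg (pr i) 3 < 4 := by
      have h1 := hle 3 (by norm_num)
      unfold win at h1
      have e : y + ((3 : ℕ) : ℤ) - 4 = y - 1 := by push_cast; ring
      rw [e] at h1
      rw [hK] at h
      cases hKx : K (y - 1) with
      | bot => rw [hKx] at h1; simp at h1; omega
      | coe v =>
        rw [hKx] at h h1
        have : v < k := by exact_mod_cast h
        rw [cd_coe] at h1
        omega
    rw [if_neg (by omega)]
    have hKy : dring y K (y - 1) = (k : WithBot ℤ) := by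
      unfold dring
      rw [if_neg (by omega), if_pos (Or.inl rfl), max_eq_right h.le, hK]
    rw [term_coe _ _ _ hKy]
    obtain ⟨h9, hr, hr8⟩ := hR.left h5
    have hFt : Ft (win (dring y K) (y - 1) k) ≤ fr (tg 10) := by
      apply Ft_le _ _ h9
      intro r hr9
      cases r with
      | zero => rw [hr8]; exact Nat.zero_le _
      | succ r =>
        have h1 := up_le_win K y k (pr i) 4 hle (by norm_num) (by rw [hR.center]; norm_num)
          r (by omega)
        have e : y + ((4 : ℕ) : ℤ) - 4 = y := by push_cast; ring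
        rw [e] at h1
        have h2 := hr r (by omega)
        have h3 := dg_lt (pr (tg 10)) (r + 1)
        have e2 : win (dring y K) (y - 1) k (r + 1) = win (dring y K) y k r := by
          unfold win
          congr 2
          push_cast; ring
        rw [e2]
        omega
    have e2 : (10 / 7 : ℝ) ^ (y - 1 + k) = (10 / 7 : ℝ) ^ (y + k) * (7 / 10) := by
      rw [show y - 1 + k = y + k - 1 by ring, zpow_sub_one₀ (by norm_num)]
      norm_num
    rw [e2, mul_assoc]
    apply ENNReal.ofReal_le_ofReal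
    apply mul_le_mul_of_nonneg_left _ hW
    have h5 : (Ft (win (dring y K) (y - 1) k) : ℝ) ≤ fr (tg 10) := by exact_mod_cast hFt
    linarith
  · rw [if_neg h]; exact bot_le

theorem sum_bb (i : ℕ) (tg : ℕ → ℕ) (y : ℤ) (Λ : Finset ℤ) (hΛ : ∀ x, known i y x → x ∈ Λ) :
    ∑ x ∈ Λ, bb i tg y x = Λ.card * fr i +
      ∑ s ∈ Finset.range 9, (if dg (pr i) s = 0 then 0 else co i tg s - fr i) := by
  classical
  have h1 : ∀ x ∈ Λ, bb i tg y x =
      fr i + (if known i y x then co i tg (x - y + 4).toNat - fr i else 0) := by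
    intro x _
    unfold bb
    split_ifs <;> ring
  rw [Finset.sum_congr rfl h1, Finset.sum_add_distrib, Finset.sum_const, nsmul_eq_mul]
  congr 1
  rw [← Finset.sum_filter]
  have h2 : ∑ s ∈ Finset.range 9, (if dg (pr i) s = 0 then 0 else co i tg s - fr i)
      = ∑ s ∈ (Finset.range 9).filter (fun s => dg (pr i) s ≠ 0), (co i tg s - fr i) := by
    rw [Finset.sum_filter]
    apply Finset.sum_congr rfl
    intro s _
    by_cases h : dg (pr i) s = 0 <;> simp [h]
  rw [h2]
  symm
  apply Finset.sum_bij' (fun (s : ℕ) _ => y + (s : ℤ) - 4) (fun x _ => (x - y + 4).toNat)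
  · intro s hs
    rw [Finset.mem_filter, Finset.mem_range] at hs
    have hk : known i y (y + s - 4) := by
      refine ⟨by omega, by omega, ?_⟩
      have : (y + (s : ℤ) - 4 - y + 4).toNat = s := by omega
      rw [this]; exact hs.2
    rw [Finset.mem_filter]
    exact ⟨hΛ _ hk, hk⟩
  · intro x hx
    rw [Finset.mem_filter] at hx
    obtain ⟨_, h1, h2, h3⟩ := hx
    rw [Finset.mem_filter, Finset.mem_range]
    exact ⟨by omega, h3⟩
  · intro s hs
    omega
  · intro x hx
    rw [Finset.mem_filter] at hx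
    obtain ⟨_, h1, h2, h3⟩ := hx
    omega
  · intro s hs
    have : (y + (s : ℤ) - 4 - y + 4).toNat = s := by omega
    rw [this]

theorem real_ineq (i : ℕ) (tg : ℕ → ℕ) (hR : RowFacts i tg) (c : ℝ) :
    (c * fr i + ∑ s ∈ Finset.range 9, (if dg (pr i) s = 0 then 0 else co i tg s - fr i))
      + ((if 4 ≤ dg (pr i) 5 then 0 else (10 / 7) * (fr (tg 9) : ℝ)) +
      (if 4 ≤ dg (pr i) 3 then 0 else (7 / 10) * (fr (tg 10) : ℝ))) ≤ (c + gam) * fr i := by
  have h := hR.ineq
  have h' : (10000 : ℝ) * (∑ s ∈ Finset.range 9, (if dg (pr i) s = 0 then 0 else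
      if (s = 3 ∨ s = 5) ∧ 5 ≤ dg (pr i) s then 0 else
      if s = 4 then 100 * (fr (tg s) : ℝ) else 70 * fr (tg s)) +
      ((if 4 ≤ dg (pr i) 5 then 0 else 100 * (fr (tg 9) : ℝ)) +
       (if 4 ≤ dg (pr i) 3 then 0 else 49 * (fr (tg 10) : ℝ)))) ≤
    (700000 * (∑ s ∈ Finset.range 9, if dg (pr i) s = 0 then (0 : ℝ) else 1) + 727230) * fr i := by
    have := (Nat.cast_le (α := ℝ)).2 h
    push_cast at this
    convert this using 3
  have e1 : ∑ s ∈ Finset.range 9, (if dg (pr i) s = 0 then 0 else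
      if (s = 3 ∨ s = 5) ∧ 5 ≤ dg (pr i) s then 0 else
      if s = 4 then 100 * (fr (tg s) : ℝ) else 70 * fr (tg s)) =
      70 * ∑ s ∈ Finset.range 9, (if dg (pr i) s = 0 then 0 else co i tg s) := by
    rw [Finset.mul_sum]
    apply Finset.sum_congr rfl
    intro s _
    by_cases h0 : dg (pr i) s = 0
    · simp [h0]
    · rw [if_neg h0, if_neg h0]
      unfold co
      split_ifs with h1 h2
      · ring
      · subst h2; ring
      · ring
  have e2 : ∑ s ∈ Finset.range 9, (if dg (pr i) s = 0 then 0 else co i tg s - fr i) =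
      ∑ s ∈ Finset.range 9, (if dg (pr i) s = 0 then 0 else co i tg s) -
      (∑ s ∈ Finset.range 9, if dg (pr i) s = 0 then (0 : ℝ) else 1) * fr i := by
    rw [Finset.sum_mul, ← Finset.sum_sub_distrib]
    apply Finset.sum_congr rfl
    intro s _
    split_ifs <;> ring
  rw [e1] at h'
  rw [e2]
  unfold gam
  split_ifs at h' ⊢ <;> linarith

/-- the local inequality -/
theorem local_ineq (K : ℤ → WithBot ℤ) (Λ : Finset ℤ) (hΛ : ∀ x, K x ≠ ⊥ → x ∈ Λ) (y : ℤ) :
    ∑ x ∈ Λ, A0 K x y + (Bp K y + Bm K y) ≤ ENNReal.ofReal (Λ.card + gam) * term K y := by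
  cases hK : K y with
  | bot =>
    have h1 : ∀ x ∈ Λ, A0 K x y = 0 := by
      intro x _
      unfold A0
      split_ifs with h
      · rfl
      · apply term_bot
        unfold dring
        split_ifs with h1 h2
        · subst h1; rw [hK]; simp
        · have : K x = ⊥ := by
            by_contra hne
            exact h ⟨h2, by rw [hK]; exact bot_lt_iff_ne_bot.2 hne⟩
          rw [hK, this]; simp
        · exact hK
    have h2 : Bp K y = 0 := by unfold Bp; rw [if_neg (by rw [hK]; exact not_lt_bot)]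
    have h3 : Bm K y = 0 := by unfold Bm; rw [if_neg (by rw [hK]; exact not_lt_bot)]
    rw [Finset.sum_eq_zero h1, h2, h3]
    simp
  | coe k =>
    obtain ⟨i, hi, hle, hF⟩ := Ft_att (win K y k) (by rw [win_center K y k hK])
    obtain ⟨tg, hR⟩ := row_facts i hi
    have hW : (0 : ℝ) ≤ (10 / 7 : ℝ) ^ (y + k) := by positivity
    rw [term_coe K y k hK, ← hF, ← ENNReal.ofReal_mul (by unfold gam; positivity)]
    have hkn : ∀ x, known i y x → x ∈ Λ := by
      intro x ⟨h1, h2, h3⟩
      apply hΛ
      intro hb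
      have h4 := hle (x - y + 4).toNat (by omega)
      unfold win at h4
      have e : y + (((x - y + 4).toNat : ℕ) : ℤ) - 4 = x := by omega
      rw [e, hb] at h4
      simp at h4
      exact h3 h4
    calc ∑ x ∈ Λ, A0 K x y + (Bp K y + Bm K y)
        ≤ ∑ x ∈ Λ, ENNReal.ofReal ((10 / 7 : ℝ) ^ (y + k) * bb i tg y x) +
          (ENNReal.ofReal ((10 / 7 : ℝ) ^ (y + k) *
            (if 4 ≤ dg (pr i) 5 then 0 else (10 / 7 : ℝ) * (fr (tg 9) : ℝ))) +
          ENNReal.ofReal ((10 / 7 : ℝ) ^ (y + k) *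
            (if 4 ≤ dg (pr i) 3 then 0 else (7 / 10 : ℝ) * (fr (tg 10) : ℝ)))) := by
          gcongr with x hx
          · exact A0_le K y k hK i tg hR hle hF x
          · exact Bp_le K y k hK i tg hR hle
          · exact Bm_le K y k hK i tg hR hle
      _ = ENNReal.ofReal ((10 / 7 : ℝ) ^ (y + k) * ((Λ.card * fr i +
          ∑ s ∈ Finset.range 9, (if dg (pr i) s = 0 then 0 else co i tg s - fr i)) +
          ((if 4 ≤ dg (pr i) 5 then 0 else (10 / 7) * (fr (tg 9) : ℝ)) +
          (if 4 ≤ dg (pr i) 3 then 0 else (7 / 10) * (fr (tg 10) : ℝ))))) := by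
          rw [← ENNReal.ofReal_sum_of_nonneg
            (fun x _ => mul_nonneg hW (bb_nonneg i tg y x)), ← ENNReal.ofReal_add,
            ← ENNReal.ofReal_add, ← Finset.mul_sum, sum_bb i tg y Λ hkn]
          · congr 1; ring
          · rw [← Finset.mul_sum]
            exact mul_nonneg hW (Finset.sum_nonneg fun x _ => bb_nonneg i tg y x)
          · split_ifs <;> positivity
          · split_ifs <;> positivity
          · split_ifs <;> positivity
      _ ≤ ENNReal.ofReal ((Λ.card + gam) * ((10 / 7 : ℝ) ^ (y + k) * (fr i : ℝ))) := by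
          apply ENNReal.ofReal_le_ofReal
          have := mul_le_mul_of_nonneg_left (real_ineq i tg hR (Λ.card : ℝ)) hW
          linarith

theorem V_ineq (K : ℤ → WithBot ℤ) (Λ : Finset ℤ) (hΛ : ∀ x, K x ≠ ⊥ → x ∈ Λ) :
    ∑ x ∈ Λ, V (dring x K) ≤ ENNReal.ofReal (Λ.card + gam) * V K := by
  calc ∑ x ∈ Λ, V (dring x K)
      ≤ ∑ x ∈ Λ, ((∑' y, A0 K x y) + (Bp K x + Bm K x)) :=
        Finset.sum_le_sum fun x _ => V_dring_le K x
    _ = (∑' y, ∑ x ∈ Λ, A0 K x y) + ∑ x ∈ Λ, (Bp K x + Bm K x) := by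
        rw [Finset.sum_add_distrib, Summable.tsum_finsetSum (fun _ _ => ENNReal.summable)]
    _ ≤ (∑' y, ∑ x ∈ Λ, A0 K x y) + ∑' y, (Bp K y + Bm K y) := by
        gcongr
        exact ENNReal.sum_le_tsum Λ
    _ = ∑' y, (∑ x ∈ Λ, A0 K x y + (Bp K y + Bm K y)) := by
        rw [← ENNReal.tsum_add]
    _ ≤ ∑' y, ENNReal.ofReal (Λ.card + gam) * term K y :=
        ENNReal.tsum_le_tsum fun y => local_ineq K Λ hΛ y
    _ = ENNReal.ofReal (Λ.card + gam) * V K := by
        rw [ENNReal.tsum_mul_left]; rfl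

end Pool.BDep.UB
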