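import Pool.Agent.Work.MP_c264fd_pr_h14.UBTable
import Pool.Agent.Work.MP_c264fd_pr_h14.Dual

open scoped ENNReal

namespace Pool.BDep.UB

/-- code of the height `a` relative to `k` -/
noncomputable def cd (a : WithBot ℤ) (k : ℤ) : ℕ :=
  WithBot.recBotCoe 0 (fun v => min 7 (v - k + 4).toNat) a

@[simp] theorem cd_bot (k : ℤ) : cd ⊥ k = 0 := rfl

@[simp] theorem cd_coe (v k : ℤ) : cd (v : WithBot ℤ) k = min 7 (v - k + 4).toNat := rfl

theorem cd_mono {a b : WithBot ℤ} (h : a ≤ b) (k : ℤ) : cd a k ≤ cd b k := by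
  induction a with
  | bot => simp
  | coe v =>
    induction b with
    | bot => exact absurd h (by simp)
    | coe w =>
      have : v ≤ w := by exact_mod_cast h
      simp only [cd_coe]
      omega

theorem cd_succ (a : WithBot ℤ) (k : ℤ) : cd a k - 1 ≤ cd a (k + 1) := by
  induction a with
  | bot => simp
  | coe v => simp only [cd_coe]; omega

theorem cd_le7 (a : WithBot ℤ) (k : ℤ) : cd a k ≤ 7 := by
  induction a with
  | bot => simp
  | coe v => simp only [cd_coe]; omega

/-- window of `K` around `y`, relative to the height `k` -/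
noncomputable def win (K : ℤ → WithBot ℤ) (y k : ℤ) (s : ℕ) : ℕ := cd (K (y + s - 4)) k

noncomputable def Ft (w : ℕ → ℕ) : ℕ :=
  sInf {n | ∃ i, i < NR ∧ (∀ s, s < 9 → dg (pr i) s ≤ w s) ∧ fr i = n}

theorem Ft_le (w : ℕ → ℕ) (i : ℕ) (hi : i < NR) (h : ∀ s, s < 9 → dg (pr i) s ≤ w s) :
    Ft w ≤ fr i := Nat.sInf_le ⟨i, hi, h, rfl⟩

theorem Ft_att (w : ℕ → ℕ) (h4 : 4 ≤ w 4) :
    ∃ i, i < NR ∧ (∀ s, s < 9 → dg (pr i) s ≤ w s) ∧ fr i = Ft w := by
  have hne : {n | ∃ i, i < NR ∧ (∀ s, s < 9 → dg (pr i) s ≤ w s) ∧ fr i = n}.Nonempty := by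
    refine ⟨fr 0, 0, by decide, ?_, rfl⟩
    intro s hs
    rw [row_zero s hs]
    split_ifs with h
    · subst h; exact h4
    · exact Nat.zero_le _
  exact Nat.sInf_mem hne

theorem Ft_anti (w w' : ℕ → ℕ) (h4 : 4 ≤ w 4) (h : ∀ s, s < 9 → w s ≤ w' s) :
    Ft w' ≤ Ft w := by
  obtain ⟨i, hi, hl, he⟩ := Ft_att w h4
  rw [← he]
  exact Ft_le w' i hi fun s hs => (hl s hs).trans (h s hs)

theorem win_center (K : ℤ → WithBot ℤ) (y k : ℤ) (h : K y = k) : win K y k 4 = 4 := by
  unfold win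
  have : y + ((4 : ℕ) : ℤ) - 4 = y := by push_cast; ring
  rw [this, h, cd_coe]
  omega

theorem le_dring (x : ℤ) (K : ℤ → WithBot ℤ) (z : ℤ) : K z ≤ dring x K z := by
  unfold dring
  split_ifs with h1 h2
  · subst h1
    cases h : K z with
    | bot => simp
    | coe v =>
      have : v ≤ v + 1 := by omega
      exact_mod_cast this
  · exact le_max_left _ _
  · exact le_rfl

theorem up_le_win (K : ℤ → WithBot ℤ) (y k : ℤ) (n s : ℕ)
    (hn : ∀ r, r < 9 → dg n r ≤ win K y k r) (hs : s < 9) (h0 : dg n s ≠ 0) (r : ℕ) (hr : r < 9) :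
    min 7 (up n s r) ≤ win (dring (y + s - 4) K) y k r := by
  rw [up_eq]
  have hns := hn s hs
  have hnr := hn r hr
  unfold win at hns hnr ⊢
  by_cases h1 : r = s
  · subst h1
    rw [if_pos rfl]
    have : dring (y + r - 4) K (y + r - 4) = K (y + r - 4) + 1 := by simp [dring]
    rw [this]
    cases hK : K (y + r - 4) with
    | bot => rw [hK] at hns; simp at hns; omega
    | coe v =>
      rw [hK] at hns
      have e : ((v : WithBot ℤ) + 1) = ((v + 1 : ℤ) : WithBot ℤ) := by push_cast; rfl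
      rw [e, cd_coe]
      rw [cd_coe] at hns
      omega
  · rw [if_neg h1]
    by_cases h2 : r = s + 1 ∨ s = r + 1
    · rw [if_pos h2]
      have e : dring (y + s - 4) K (y + r - 4) = max (K (y + r - 4)) (K (y + s - 4)) := by
        unfold dring
        rw [if_neg (by omega), if_pos]
        rcases h2 with h2 | h2
        · right; subst h2; push_cast; ring
        · left; subst h2; push_cast; ring
      rw [e]
      have h3 := cd_mono (le_max_left (K (y + r - 4)) (K (y + s - 4))) k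
      have h4 := cd_mono (le_max_right (K (y + r - 4)) (K (y + s - 4))) k
      have := max_le (hnr.trans h3) (hns.trans h4)
      omega
    · rw [if_neg h2]
      have e : dring (y + s - 4) K (y + r - 4) = K (y + r - 4) := by
        unfold dring
        rw [if_neg (by omega), if_neg (by omega)]
      rw [e]
      omega

/-- contribution of the tip at `y` -/
noncomputable def term (K : ℤ → WithBot ℤ) (y : ℤ) : ℝ≥0∞ :=
  WithBot.recBotCoe (0 : ℝ≥0∞)
    (fun k : ℤ => ENNReal.ofReal ((10 / 7 : ℝ) ^ (y + k) * (Ft (win K y k) : ℝ))) (K y)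

theorem term_bot (K : ℤ → WithBot ℤ) (y : ℤ) (h : K y = ⊥) : term K y = 0 := by
  simp [term, h]

theorem term_coe (K : ℤ → WithBot ℤ) (y k : ℤ) (h : K y = k) :
    term K y = ENNReal.ofReal ((10 / 7 : ℝ) ^ (y + k) * (Ft (win K y k) : ℝ)) := by
  simp [term, h]

noncomputable def A0 (K : ℤ → WithBot ℤ) (x y : ℤ) : ℝ≥0∞ :=
  if (y = x - 1 ∨ y = x + 1) ∧ K y < K x then 0 else term (dring x K) y

noncomputable def Bp (K : ℤ → WithBot ℤ) (x : ℤ) : ℝ≥0∞ :=
  if K (x + 1) < K x then term (dring x K) (x + 1) else 0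

noncomputable def Bm (K : ℤ → WithBot ℤ) (x : ℤ) : ℝ≥0∞ :=
  if K (x - 1) < K x then term (dring x K) (x - 1) else 0

noncomputable def V (K : ℤ → WithBot ℤ) : ℝ≥0∞ := ∑' y, term K y

theorem term_split (K : ℤ → WithBot ℤ) (x z : ℤ) :
    term (dring x K) z ≤ A0 K x z + (if z = x + 1 then Bp K x else 0) +
      (if z = x - 1 then Bm K x else 0) := by
  unfold A0
  by_cases h : (z = x - 1 ∨ z = x + 1) ∧ K z < K x
  · rw [if_pos h]
    obtain ⟨h1, h2⟩ := h
    rcases h1 with h1 | h1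
    · subst h1
      rw [if_neg (by omega), if_pos rfl]
      unfold Bm
      rw [if_pos h2]
      simp
    · subst h1
      rw [if_pos rfl, if_neg (by omega)]
      unfold Bp
      rw [if_pos h2]
      simp
  · rw [if_neg h, add_assoc]
    exact le_self_add

theorem V_dring_le (K : ℤ → WithBot ℤ) (x : ℤ) :
    V (dring x K) ≤ (∑' y, A0 K x y) + (Bp K x + Bm K x) := by
  unfold V
  calc ∑' z, term (dring x K) z
      ≤ ∑' z, (A0 K x z + (if z = x + 1 then Bp K x else 0) +
        (if z = x - 1 then Bm K x else 0)) := ENNReal.tsum_le_tsum fun z => term_split K x z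
    _ = (∑' y, A0 K x y) + (Bp K x + Bm K x) := by
        rw [ENNReal.tsum_add, ENNReal.tsum_add, tsum_ite_eq, tsum_ite_eq, add_assoc]

end Pool.BDep.UB
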