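import Pool.Agent.Work.MP_c264fd_pr_h14.UBCheck

namespace Pool.BDep.UB

def T10 : ℕ :=
  0x11911700011a91b0748e89b20008ff9c4

theorem rows10 : rows T10 2500 1 = true := by decide +kernel

end Pool.BDep.UB
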