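import Pool.Agent.Work.MP_c264fd_pr_h14.UBT0
import Pool.Agent.Work.MP_c264fd_pr_h14.UBT1
import Pool.Agent.Work.MP_c264fd_pr_h14.UBT2
import Pool.Agent.Work.MP_c264fd_pr_h14.UBT3
import Pool.Agent.Work.MP_c264fd_pr_h14.UBT4
import Pool.Agent.Work.MP_c264fd_pr_h14.UBT5
import Pool.Agent.Work.MP_c264fd_pr_h14.UBT6
import Pool.Agent.Work.MP_c264fd_pr_h14.UBT7
import Pool.Agent.Work.MP_c264fd_pr_h14.UBT8
import Pool.Agent.Work.MP_c264fd_pr_h14.UBT9
import Pool.Agent.Work.MP_c264fd_pr_h14.UBT10

namespace Pool.BDep.UB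

theorem rows_spec (T i : ℕ) : ∀ k, rows T i k = true → ∀ j, i ≤ j → j < i + k →
    ∃ t, rowOK t j = true
  | 0, _, j, h1, h2 => by omega
  | k + 1, h, j, h1, h2 => by
      simp only [rows, Bool.and_eq_true] at h
      by_cases hj : j = i + k
      · exact ⟨_, hj ▸ h.1⟩
      · exact rows_spec T i k h.2 j h1 (by omega)

theorem exists_rowOK (j : ℕ) (hj : j < NR) : ∃ t, rowOK t j = true := by
  have hN : NR = 2501 := rfl
  rw [hN] at hj
  by_cases h0 : j < 250
  · exact rows_spec _ _ _ rows0 j (by omega) (by omega)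
  by_cases h1 : j < 500
  · exact rows_spec _ _ _ rows1 j (by omega) (by omega)
  by_cases h2 : j < 750
  · exact rows_spec _ _ _ rows2 j (by omega) (by omega)
  by_cases h3 : j < 1000
  · exact rows_spec _ _ _ rows3 j (by omega) (by omega)
  by_cases h4 : j < 1250
  · exact rows_spec _ _ _ rows4 j (by omega) (by omega)
  by_cases h5 : j < 1500
  · exact rows_spec _ _ _ rows5 j (by omega) (by omega)
  by_cases h6 : j < 1750
  · exact rows_spec _ _ _ rows6 j (by omega) (by omega)
  by_cases h7 : j < 2000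
  · exact rows_spec _ _ _ rows7 j (by omega) (by omega)
  by_cases h8 : j < 2250
  · exact rows_spec _ _ _ rows8 j (by omega) (by omega)
  by_cases h9 : j < 2500
  · exact rows_spec _ _ _ rows9 j (by omega) (by omega)
  · exact rows_spec _ _ _ rows10 j (by omega) (by omega)

theorem all9_spec (f : ℕ → Bool) (h : all9 f = true) : ∀ s, s < 9 → f s = true := by
  simp only [all9, Bool.and_eq_true] at h
  obtain ⟨h0, h1, h2, h3, h4, h5, h6, h7, h8⟩ := h
  intro s hs
  interval_cases s <;> assumption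

theorem nmax_eq (a b : ℕ) : nmax a b = max a b := by
  unfold nmax
  cases h : Nat.ble a b with
  | true => have := Nat.le_of_ble_eq_true h; simp [this]
  | false =>
    have : ¬ a ≤ b := by
      intro hle; rw [Nat.ble_eq_true_of_le hle] at h; exact absurd h (by simp)
    simp [max_def, this]

theorem up_eq (n s r : ℕ) : up n s r =
    if r = s then dg n r + 1 else if (r = s + 1 ∨ s = r + 1) then max (dg n r) (dg n s)
      else dg n r := by
  unfold up
  by_cases h1 : r = s
  · subst h1; simp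
  · have h1' : Nat.beq r s = false := by
      rw [← Bool.not_eq_true]; intro h; exact h1 (Nat.eq_of_beq_eq_true h)
    rw [h1', cond_false, if_neg h1]
    by_cases h2 : r = s + 1 ∨ s = r + 1
    · have : (Nat.beq r (s + 1) || Nat.beq s (r + 1)) = true := by
        rcases h2 with h2 | h2
        · rw [h2]; simp
        · rw [h2]; simp
      rw [this, cond_true, if_pos h2, nmax_eq]
    · have : (Nat.beq r (s + 1) || Nat.beq s (r + 1)) = false := by
        rw [Bool.or_eq_false_iff]
        constructor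
        · rw [← Bool.not_eq_true]; intro h; exact h2 (Or.inl (Nat.eq_of_beq_eq_true h))
        · rw [← Bool.not_eq_true]; intro h; exact h2 (Or.inr (Nat.eq_of_beq_eq_true h))
      rw [this, cond_false, if_neg h2]

theorem dead_iff (n s : ℕ) : dead n s = true ↔ (s = 3 ∨ s = 5) ∧ 5 ≤ dg n s := by
  unfold dead
  rw [Bool.and_eq_true, Bool.or_eq_true]
  constructor
  · rintro ⟨h1, h2⟩
    exact ⟨h1.imp Nat.eq_of_beq_eq_true Nat.eq_of_beq_eq_true, Nat.le_of_ble_eq_true h2⟩
  · rintro ⟨h1, h2⟩
    refine ⟨?_, Nat.ble_eq_true_of_le h2⟩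
    rcases h1 with rfl | rfl
    · left; rfl
    · right; rfl

theorem beq0 (a : ℕ) : Nat.beq a 0 = decide (a = 0) := by
  by_cases h : a = 0
  · subst h; rfl
  · rw [decide_eq_false h, ← Bool.not_eq_true]; intro h2; exact h (Nat.eq_of_beq_eq_true h2)

/-- The content of the check of one row. -/
structure RowFacts (i : ℕ) (tg : ℕ → ℕ) : Prop where
  center : dg (pr i) 4 = 4
  pos : 1 ≤ fr i
  stay : tg 4 < NR ∧ ∀ r, r < 9 → dg (pr (tg 4)) r ≤ up (pr i) 4 r - 1
  ring : ∀ s, s < 9 → s ≠ 4 → dg (pr i) s ≠ 0 → ¬ ((s = 3 ∨ s = 5) ∧ 5 ≤ dg (pr i) s) →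
    tg s < NR ∧ ∀ r, r < 9 → dg (pr (tg s)) r ≤ up (pr i) s r
  right : dg (pr i) 5 < 4 → tg 9 < NR ∧
    (∀ r, r < 8 → dg (pr (tg 9)) r ≤ up (pr i) 4 (r + 1)) ∧ dg (pr (tg 9)) 8 = 0
  left : dg (pr i) 3 < 4 → tg 10 < NR ∧
    (∀ r, r < 8 → dg (pr (tg 10)) (r + 1) ≤ up (pr i) 4 r) ∧ dg (pr (tg 10)) 0 = 0
  ineq : 10000 * (∑ s ∈ Finset.range 9, (if dg (pr i) s = 0 then 0 else
      if (s = 3 ∨ s = 5) ∧ 5 ≤ dg (pr i) s then 0 else
      if s = 4 then 100 * fr (tg s) else 70 * fr (tg s)) +
      ((if 4 ≤ dg (pr i) 5 then 0 else 100 * fr (tg 9)) +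
       (if 4 ≤ dg (pr i) 3 then 0 else 49 * fr (tg 10)))) ≤
    (700000 * (∑ s ∈ Finset.range 9, if dg (pr i) s = 0 then 0 else 1) + 727230) * fr i

theorem sum9_eq (f : ℕ → ℕ) : sum9 f = ∑ s ∈ Finset.range 9, f s := by
  simp [sum9, Finset.sum_range_succ]
  ring

theorem row_facts (j : ℕ) (hj : j < NR) : ∃ tg : ℕ → ℕ, RowFacts j tg := by
  obtain ⟨t, ht⟩ := exists_rowOK j hj
  unfold rowOK at ht
  simp only [force_eq] at ht
  rw [Bool.and_eq_true, Bool.and_eq_true, Bool.and_eq_true, Bool.and_eq_true,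
    Bool.and_eq_true] at ht
  obtain ⟨⟨hc, hp⟩, h9, hR, hL, hI⟩ := ht
  have hc' : dg (pr j) 4 = 4 := Nat.eq_of_beq_eq_true hc
  have hall := all9_spec _ h9
  refine ⟨sl t, ?_⟩
  refine ⟨hc', Nat.le_of_ble_eq_true hp, ?_, ?_, ?_, ?_, ?_⟩
  · have h4 := hall 4 (by norm_num)
    unfold tgOK at h4
    simp only [force_eq] at h4
    have hd : dead (pr j) 4 = false := by
      rw [← Bool.not_eq_true, dead_iff]; omega
    rw [beq0, hc', hd] at h4
    simp only [show ¬ (4 = 0) by norm_num, decide_false, cond_false, Bool.and_eq_true] at h4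
    obtain ⟨h41, h42⟩ := h4
    refine ⟨Nat.le_of_ble_eq_true h41, ?_⟩
    have h42' : okStay (pr j) (pr (sl t 4)) = true := h42
    intro r hr
    exact Nat.le_of_ble_eq_true (all9_spec _ h42' r hr)
  · intro s hs hs4 hs0 hnd
    have h4 := hall s hs
    unfold tgOK at h4
    simp only [force_eq] at h4
    have hd : dead (pr j) s = false := by
      rw [← Bool.not_eq_true, dead_iff]; exact hnd
    have hb4 : Nat.beq s 4 = false := by
      rw [← Bool.not_eq_true]; intro h; exact hs4 (Nat.eq_of_beq_eq_true h)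
    rw [beq0, hd, hb4] at h4
    simp only [hs0, decide_false, cond_false, Bool.and_eq_true] at h4
    obtain ⟨h41, h42⟩ := h4
    refine ⟨Nat.le_of_ble_eq_true h41, ?_⟩
    intro r hr
    exact Nat.le_of_ble_eq_true (all9_spec _ h42 r hr)
  · intro h5
    rw [Bool.or_eq_true] at hR
    rcases hR with hR | hR
    · exact absurd (Nat.le_of_ble_eq_true hR) (by omega)
    · rw [Bool.and_eq_true] at hR
      refine ⟨Nat.le_of_ble_eq_true hR.1, ?_, ?_⟩
      · intro r hr
        have := Nat.le_of_ble_eq_true (all9_spec _ hR.2 r (by omega))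
        have h8 : Nat.beq r 8 = false := by
          rw [← Bool.not_eq_true]; intro h; have := Nat.eq_of_beq_eq_true h; omega
        rw [h8, cond_false] at this
        exact this
      · have := Nat.le_of_ble_eq_true (all9_spec _ hR.2 8 (by omega))
        have h8 : Nat.beq 8 8 = true := rfl
        rw [h8, cond_true] at this
        omega
  · intro h5
    rw [Bool.or_eq_true] at hL
    rcases hL with hR | hR
    · exact absurd (Nat.le_of_ble_eq_true hR) (by omega)
    · rw [Bool.and_eq_true] at hR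
      refine ⟨Nat.le_of_ble_eq_true hR.1, ?_, ?_⟩
      · intro r hr
        have := Nat.le_of_ble_eq_true (all9_spec _ hR.2 (r + 1) (by omega))
        have h8 : Nat.beq (r + 1) 0 = false := rfl
        rw [h8, cond_false] at this
        exact this
      · have := Nat.le_of_ble_eq_true (all9_spec _ hR.2 0 (by omega))
        have h8 : Nat.beq 0 0 = true := rfl
        rw [h8, cond_true] at this
        omega
  · have hI' := Nat.le_of_ble_eq_true hI
    rw [sum9_eq, sum9_eq] at hI'
    have e1 : ∀ s, ct (pr j) t s = (if dg (pr j) s = 0 then 0 else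
      if (s = 3 ∨ s = 5) ∧ 5 ≤ dg (pr j) s then 0 else
      if s = 4 then 100 * fr (sl t s) else 70 * fr (sl t s)) := by
      intro s
      unfold ct
      rw [beq0]
      by_cases h0 : dg (pr j) s = 0
      · simp [h0]
      · simp only [h0, decide_false, cond_false, if_false]
        by_cases hd : (s = 3 ∨ s = 5) ∧ 5 ≤ dg (pr j) s
        · rw [(dead_iff _ _).2 hd, cond_true, if_pos hd]
        · have : dead (pr j) s = false := by rw [← Bool.not_eq_true, dead_iff]; exact hd
          rw [this, cond_false, if_neg hd]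
          by_cases h4 : s = 4
          · subst h4; rfl
          · have hb4 : Nat.beq s 4 = false := by
              rw [← Bool.not_eq_true]; intro h; exact h4 (Nat.eq_of_beq_eq_true h)
            rw [hb4, cond_false, if_neg h4]
    have e2 : ∀ s, kn (pr j) s = (if dg (pr j) s = 0 then 0 else 1) := by
      intro s; unfold kn; rw [beq0]
      by_cases h0 : dg (pr j) s = 0 <;> simp [h0]
    have e3 : ∀ a b : ℕ, (bif Nat.ble 4 a then 0 else b) = if 4 ≤ a then 0 else b := by
      intro a b
      cases h : Nat.ble 4 a with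
      | true => rw [cond_true, if_pos (Nat.le_of_ble_eq_true h)]
      | false =>
        rw [cond_false, if_neg]
        intro hle; rw [Nat.ble_eq_true_of_le hle] at h; exact absurd h (by simp)
    simp only [e1, e2, e3] at hI'
    exact hI'

theorem row_zero : ∀ s, s < 9 → dg (pr 0) s = if s = 4 then 4 else 0 := by
  decide +kernel

theorem dg_lt (n s : ℕ) : dg n s ≤ 7 := by
  unfold dg
  omega

end Pool.BDep.UB
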